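import Pool.Agent.Lib.MP_509488_nt.Surf.Stmts

/-! Module (G): a one-dimensional class has few `z`. -/

namespace Pool.Agent.Lib.MP_509488_nt.Surf

open Finset Polynomial

namespace ClassAux

/-- The functions `z ^ i` and `z ^ i v`. -/
noncomputable def fm (I : ℕ) (v : Fin 3) (i : ℕ) : MvPolynomial (Fin 3) ℤ :=
  if i < I then MvPolynomial.X 2 ^ i else MvPolynomial.X 2 ^ (i - I) * MvPolynomial.X v

lemma eval_fm (I : ℕ) (v : Fin 3) (i : ℕ) (P : Pt) : MvPolynomial.eval P (fm I v i) =
    if i < I then P 2 ^ i else P 2 ^ (i - I) * P v := by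
  unfold fm
  split_ifs <;> simp

/-- Bounds. -/
def bb (I N τ i : ℕ) : ℕ := if i < I then N ^ i else N ^ (i - I) * N ^ τ

lemma eval_le {I N τ : ℕ} {v : Fin 3} (i : ℕ) {P : Pt} (h1 : |P v| ≤ (N : ℤ) ^ τ)
    (h2 : |P 2| ≤ N) : |MvPolynomial.eval P (fm I v i)| ≤ (bb I N τ i : ℕ) := by
  rw [eval_fm, bb]
  split_ifs with h
  · rw [abs_pow]
    push_cast
    exact pow_le_pow_left₀ (abs_nonneg _) h2 i
  · rw [abs_mul, abs_pow]
    push_cast
    exact mul_le_mul (pow_le_pow_left₀ (abs_nonneg _) h2 _) h1 (abs_nonneg _) (by positivity)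

lemma prod_bb (I N τ : ℕ) : ∏ i ∈ range (2 * I), bb I N τ i = N ^ (I * (I - 1) + I * τ) := by
  rw [two_mul, Finset.prod_range_add]
  have h1 : ∏ i ∈ range I, bb I N τ i = N ^ (∑ i ∈ range I, i) := by
    rw [← Finset.prod_pow_eq_pow_sum]
    refine Finset.prod_congr rfl fun i hi => ?_
    rw [bb, if_pos (Finset.mem_range.mp hi)]
  have h2 : ∏ i ∈ range I, bb I N τ (I + i) = N ^ (∑ i ∈ range I, i) * N ^ (I * τ) := by
    have : ∀ i ∈ range I, bb I N τ (I + i) = N ^ i * N ^ τ := by
      intro i _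
      rw [bb, if_neg (by omega), Nat.add_sub_cancel_left]
    rw [Finset.prod_congr rfl this, Finset.prod_mul_distrib, Finset.prod_pow_eq_pow_sum,
      Finset.prod_const, Finset.card_range, ← pow_mul, mul_comm τ I]
  rw [h1, h2, ← mul_assoc, ← pow_add, ← pow_add]
  congr 1
  have := Finset.sum_range_id_mul_two I
  omega

lemma expo_one (I : ℕ) : expo 1 (2 * I) (2 * I) = I * (2 * I - 1) := by
  unfold expo
  have h1 : ∑ v ∈ range (2 * I), (v + 1).choose 1 = I * (2 * I + 1) := by
    simp only [Nat.choose_one_right]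
    have h2 := Finset.sum_range_id_mul_two (2 * I + 1)
    rw [Finset.sum_range_succ'] at h2
    simp only [add_zero] at h2
    have h3 : (∑ k ∈ range (2 * I), (k + 1)) * 2 = (I * (2 * I + 1)) * 2 := by
      rw [h2, Nat.add_sub_cancel]; ring
    omega
  rw [h1]
  rcases Nat.eq_zero_or_pos I with h | h
  · simp [h]
  · obtain ⟨J, rfl⟩ : ∃ J, I = J + 1 := ⟨I - 1, by omega⟩
    have e1 : 2 * (J + 1) - 1 = 2 * J + 1 := by omega
    rw [e1]
    have e2 : 2 * (J + 1) * (2 * (J + 1)) = (J + 1) * (2 * (J + 1) + 1) + (J + 1) * (2 * J + 1) := by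
      ring
    omega

lemma det_zero (hA : StDet) {ℓ N I τ : ℕ} {S : Set Pt} {v : Fin 3} (hS : Loc 1 ℓ S)
    (hb : ∀ P ∈ S, |P v| ≤ (N : ℤ) ^ τ ∧ |P 2| ≤ N)
    (hlt : (2 * I).factorial * N ^ (I * (I - 1) + I * τ) < ℓ ^ (I * (2 * I - 1)))
    (P : Fin (2 * I) → Pt) (hP : ∀ j, P j ∈ S) :
    (Matrix.of fun i j : Fin (2 * I) => MvPolynomial.eval (P j) (fm I v i)).det = 0 := by
  have h1 := hA 1 ℓ (2 * I) (2 * I) S (fun i => fm I v i) P hS hP
  rw [expo_one] at h1
  have h2 : |(Matrix.of fun i j : Fin (2 * I) => MvPolynomial.eval (P j) (fm I v i)).det| ≤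
      ((2 * I).factorial * N ^ (I * (I - 1) + I * τ) : ℕ) := by
    rw [Matrix.det_apply]
    refine (Finset.abs_sum_le_sum_abs _ _).trans ?_
    have h3 : ∀ σ ∈ (Finset.univ : Finset (Equiv.Perm (Fin (2 * I)))),
        |Equiv.Perm.sign σ • ∏ j, Matrix.of (fun i j : Fin (2 * I) =>
          MvPolynomial.eval (P j) (fm I v i)) (σ j) j| ≤ (N ^ (I * (I - 1) + I * τ) : ℕ) := by
      intro σ _
      rw [Units.smul_def, abs_smul]
      have h4 : |((Equiv.Perm.sign σ : ℤˣ) : ℤ)| = 1 := by
        rcases Int.units_eq_one_or (Equiv.Perm.sign σ) with h | h <;> simp [h]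
      rw [h4, one_smul, Finset.abs_prod]
      calc ∏ j, |Matrix.of (fun i j : Fin (2 * I) =>
          MvPolynomial.eval (P j) (fm I v i)) (σ j) j| ≤ ∏ j, ((bb I N τ (σ j : Fin (2 * I)) : ℕ) : ℤ) := by
            refine Finset.prod_le_prod (fun _ _ => abs_nonneg _) fun j _ => ?_
            rw [Matrix.of_apply]
            exact eval_le _ (hb _ (hP j)).1 (hb _ (hP j)).2
        _ = ∏ j : Fin (2 * I), ((bb I N τ j : ℕ) : ℤ) :=
            Equiv.prod_comp σ fun j : Fin (2 * I) => ((bb I N τ j : ℕ) : ℤ)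
        _ = ((N ^ (I * (I - 1) + I * τ) : ℕ) : ℤ) := by
            rw [← prod_bb, Nat.cast_prod, ← Fin.prod_univ_eq_prod_range]
    refine (Finset.sum_le_sum h3).trans ?_
    rw [Finset.sum_const, Finset.card_univ, Fintype.card_perm, Fintype.card_fin]
    simp
  by_contra hne
  have h5 := Int.le_of_dvd (abs_pos.mpr hne) ((dvd_abs _ _).mpr h1)
  have h6 : (((2 * I).factorial * N ^ (I * (I - 1) + I * τ) : ℕ) : ℤ) <
      ((ℓ ^ (I * (2 * I - 1)) : ℕ) : ℤ) := by exact_mod_cast hlt
  push_cast at h2 h5 h6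
  linarith

lemma rel (hA : StDet) (hB : StRel) {ℓ N I τ : ℕ} {S : Set Pt} {v : Fin 3} (hN : 1 ≤ N)
    (hS : Loc 1 ℓ S) (hb : ∀ P ∈ S, |P v| ≤ (N : ℤ) ^ τ ∧ |P 2| ≤ N)
    (hlt : (2 * I).factorial * N ^ (I * (I - 1) + I * τ) < ℓ ^ (I * (2 * I - 1))) :
    ∃ A B : Polynomial ℤ, (A ≠ 0 ∨ B ≠ 0) ∧ A.natDegree ≤ I ∧ B.natDegree ≤ I ∧
      ∀ P ∈ S, B.eval (P 2) * P v = A.eval (P 2) := by
  obtain ⟨c, hc, -, hrel⟩ := hB (2 * I) Pt S (fun i P => MvPolynomial.eval P (fm I v i))
    (N ^ (2 * I + τ)) (Nat.one_le_pow _ _ hN) (by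
      intro i P hP
      refine (eval_le _ (hb P hP).1 (hb P hP).2).trans ?_
      have : bb I N τ i ≤ N ^ (2 * I + τ) := by
        unfold bb
        split_ifs with h
        · exact Nat.pow_le_pow_right hN (by omega)
        · rw [← pow_add]
          have := i.2
          exact Nat.pow_le_pow_right hN (by omega)
      exact_mod_cast this) (fun P hP => det_zero hA hS hb hlt P hP)
  set c' : ℕ → ℤ := fun i => if h : i < 2 * I then c ⟨i, h⟩ else 0 with hc'
  have hdeg : ∀ g : ℕ → ℤ, (∑ i ∈ range I, Polynomial.C (g i) * X ^ i).natDegree ≤ I := by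
    intro g
    refine Polynomial.natDegree_sum_le_of_forall_le _ _ fun i hi => ?_
    refine (Polynomial.natDegree_C_mul_X_pow_le _ _).trans (Finset.mem_range.mp hi).le
  have hcoeff : ∀ (g : ℕ → ℤ) (n : ℕ), n < I →
      (∑ i ∈ range I, Polynomial.C (g i) * X ^ i).coeff n = g n := by
    intro g n hn
    simp only [Polynomial.finsetSum_coeff, Polynomial.coeff_C_mul, Polynomial.coeff_X_pow]
    rw [Finset.sum_eq_single n]
    · simp
    · intro i _ hi
      rw [if_neg (Ne.symm hi), mul_zero]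
    · intro h
      exact absurd (Finset.mem_range.mpr hn) h
  refine ⟨-∑ i ∈ range I, Polynomial.C (c' i) * X ^ i,
    ∑ i ∈ range I, Polynomial.C (c' (I + i)) * X ^ i, ?_, ?_, hdeg _, ?_⟩
  · by_contra hcon
    push Not at hcon
    obtain ⟨h1, h2⟩ := hcon
    rw [neg_eq_zero] at h1
    apply hc
    funext i
    have hi : c i = c' i := by
      rw [hc']
      simp only [i.2, dif_pos]
    rw [hi, Pi.zero_apply]
    by_cases h : (i : ℕ) < I
    · have := hcoeff c' i h
      rw [h1, Polynomial.coeff_zero] at this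
      exact this.symm
    · have h3 : (i : ℕ) - I < I := by have := i.2; omega
      have := hcoeff (fun j => c' (I + j)) ((i : ℕ) - I) h3
      rw [h2, Polynomial.coeff_zero] at this
      have h4 : I + ((i : ℕ) - I) = i := by omega
      simp only [h4] at this
      exact this.symm
  · rw [Polynomial.natDegree_neg]
    exact hdeg _
  · intro P hP
    have h1 := hrel P hP
    have h2 : ∑ i : Fin (2 * I), c i * MvPolynomial.eval P (fm I v i) =
        ∑ i ∈ range (2 * I), c' i * MvPolynomial.eval P (fm I v i) := by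
      rw [← Fin.sum_univ_eq_sum_range (fun i => c' i * MvPolynomial.eval P (fm I v i)) (2 * I)]
      refine Finset.sum_congr rfl fun i _ => ?_
      rw [hc']
      simp only [i.2, dif_pos]
    rw [h2, two_mul, Finset.sum_range_add] at h1
    have h3 : ∑ i ∈ range I, c' i * MvPolynomial.eval P (fm I v i) =
        (∑ i ∈ range I, Polynomial.C (c' i) * X ^ i).eval (P 2) := by
      rw [Polynomial.eval_finsetSum]
      refine Finset.sum_congr rfl fun i hi => ?_
      rw [eval_fm, if_pos (Finset.mem_range.mp hi)]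
      simp
    have h4 : ∑ i ∈ range I, c' (I + i) * MvPolynomial.eval P (fm I v (I + i)) =
        (∑ i ∈ range I, Polynomial.C (c' (I + i)) * X ^ i).eval (P 2) * P v := by
      rw [Polynomial.eval_finsetSum, Finset.sum_mul]
      refine Finset.sum_congr rfl fun i hi => ?_
      rw [eval_fm, if_neg (by omega), Nat.add_sub_cancel_left]
      simp
      ring
    rw [h3, h4] at h1
    rw [Polynomial.eval_neg]
    linarith

lemma few {E : Polynomial ℤ} (hE : E ≠ 0) {Z : Finset ℤ} (h : ∀ z ∈ Z, E.eval z = 0) :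
    Z.card ≤ E.natDegree := by
  classical
  refine le_trans (Finset.card_le_card ?_) ((Multiset.toFinset_card_le _).trans
    (Polynomial.card_roots' E))
  intro z hz
  rw [Multiset.mem_toFinset, Polynomial.mem_roots hE]
  exact h z hz

end ClassAux

open ClassAux

/-- (G) A one-dimensional class has few `z`. -/
theorem stClass (hA : StDet) (hB : StRel) (hF : StRat) : StClass := by
  intro p q r s₁ s₂ hE ℓ N I τ S hN hI hS hP hlt Z hZ
  obtain ⟨A, B, hAB, hAd, hBd, hy⟩ := rel (v := 1) hA hB hN hS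
    (fun P hPS => ⟨(hP P hPS).2.2.1, (hP P hPS).2.2.2⟩) hlt
  obtain ⟨C, D, hCD, hCd, hDd, hx⟩ := rel (v := 0) hA hB hN hS
    (fun P hPS => ⟨(hP P hPS).2.1, (hP P hPS).2.2.2⟩) hlt
  have hp := hE.hp
  have hq := hE.hq
  have hI' : I ≤ (p + q) * I := Nat.le_mul_of_pos_left I (by omega)
  by_cases hB0 : B = 0
  · have hA0 : A ≠ 0 := by
      rcases hAB with h | h
      · exact h
      · exact absurd hB0 h
    have h1 := few hA0 (Z := Z) (fun z hz => by
      obtain ⟨P, hPS, hPz⟩ := hZ z hz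
      have := hy P hPS
      rw [hB0, Polynomial.eval_zero, zero_mul, hPz] at this
      exact this.symm)
    omega
  by_cases hD0 : D = 0
  · have hC0 : C ≠ 0 := by
      rcases hCD with h | h
      · exact h
      · exact absurd hD0 h
    have h1 := few hC0 (Z := Z) (fun z hz => by
      obtain ⟨P, hPS, hPz⟩ := hZ z hz
      have := hx P hPS
      rw [hD0, Polynomial.eval_zero, zero_mul, hPz] at this
      exact this.symm)
    omega
  have hne := hF p q r s₁ s₂ hE A B C D hB0 hD0
  have hne' : C ^ p * B ^ q - (Polynomial.C s₁ * X ^ r * D ^ p * B ^ q +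
      Polynomial.C s₂ * A ^ q * D ^ p) ≠ 0 := sub_ne_zero.mpr hne
  have h1 := few hne' (Z := Z) (fun z hz => by
    obtain ⟨P, hPS, hPz⟩ := hZ z hz
    have e1 := hy P hPS
    have e2 := hx P hPS
    have e3 := (hP P hPS).1
    unfold Eqn at e3
    rw [hPz] at e1 e2 e3
    simp only [Polynomial.eval_sub, Polynomial.eval_add, Polynomial.eval_mul, Polynomial.eval_pow,
      Polynomial.eval_C, Polynomial.eval_X]
    rw [← e1, ← e2, mul_pow, mul_pow, e3]
    ring)
  refine h1.trans ?_
  have hpd : ∀ (F G : Polynomial ℤ), F.natDegree ≤ I → G.natDegree ≤ I →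
      (F ^ p * G ^ q).natDegree ≤ (p + q) * I := by
    intro F G hF' hG'
    calc (F ^ p * G ^ q).natDegree ≤ (F ^ p).natDegree + (G ^ q).natDegree :=
          Polynomial.natDegree_mul_le
      _ ≤ p * F.natDegree + q * G.natDegree :=
          add_le_add Polynomial.natDegree_pow_le Polynomial.natDegree_pow_le
      _ ≤ p * I + q * I := add_le_add (Nat.mul_le_mul_left _ hF') (Nat.mul_le_mul_left _ hG')
      _ = (p + q) * I := by ring
  refine (Polynomial.natDegree_sub_le _ _).trans (max_le ?_ ?_)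
  · exact (hpd C B hCd hBd).trans (by omega)
  · refine (Polynomial.natDegree_add_le _ _).trans (max_le ?_ ?_)
    · calc (Polynomial.C s₁ * X ^ r * D ^ p * B ^ q).natDegree
          = (Polynomial.C s₁ * (X ^ r * (D ^ p * B ^ q))).natDegree := by
            congr 1; ring
        _ ≤ (X ^ r * (D ^ p * B ^ q)).natDegree := Polynomial.natDegree_C_mul_le _ _
        _ ≤ (X ^ r : Polynomial ℤ).natDegree + (D ^ p * B ^ q).natDegree :=
            Polynomial.natDegree_mul_le
        _ ≤ r + (p + q) * I := add_le_add (Polynomial.natDegree_X_pow_le r) (hpd D B hDd hBd)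
    · calc (Polynomial.C s₂ * A ^ q * D ^ p).natDegree
          = (Polynomial.C s₂ * (D ^ p * A ^ q)).natDegree := by
            congr 1; ring
        _ ≤ (D ^ p * A ^ q).natDegree := Polynomial.natDegree_C_mul_le _ _
        _ ≤ (p + q) * I := hpd D A hDd hAd
        _ ≤ r + (p + q) * I := by omega

end Pool.Agent.Lib.MP_509488_nt.Surf
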