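import Pool.Agent.Lib.MP_509488_nt.Surf.Curve

/-!
# Module Count: the non-asymptotic bound for one signature
-/

namespace Pool.Agent.Lib.MP_509488_nt.Surf

open Finset Polynomial

open CurveAux in
theorem stCount (hD : StLocSurf) (hJ : StSurf) (hK : StElim) (hI : StCurve) : StCount := by
  classical
  intro p q r s₁ s₂ hx τ N M I L₁ L₂ LL₁ LL₂ hrτ hN hI1 hLL₁ hLL₂ hp₁ hp₂
  have hp1 : 1 ≤ p := by have := hx.hp; omega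
  have hq1 : 1 ≤ q := by have := hx.hq; omega
  have hr1 : 1 ≤ r := by have := hx.hr; omega
  have hτ1 : 1 ≤ τ := by omega
  have hNZ : (1 : ℤ) ≤ N := by exact_mod_cast hN
  have hpow : ∀ (a : ℤ) (k : ℕ), 1 ≤ k → |a| ^ k ≤ (N : ℤ) ^ τ → |a| ≤ (N : ℤ) ^ τ := by
    intro a k hk h
    rcases Int.lt_or_le |a| 1 with h1 | h1
    · have h2 : (1 : ℤ) ≤ (N : ℤ) ^ τ := one_le_pow₀ hNZ
      omega
    · calc |a| = |a| ^ 1 := (pow_one _).symm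
        _ ≤ |a| ^ k := pow_le_pow_right₀ h1 hk
        _ ≤ _ := h
  have hNτ : (N : ℤ) ≤ (N : ℤ) ^ τ := by
    calc (N : ℤ) = (N : ℤ) ^ 1 := (pow_one _).symm
      _ ≤ (N : ℤ) ^ τ := pow_le_pow_right₀ hNZ hτ1
  -- the bound for one class
  set b : ℕ := 2 * p * τ + 2 * p * q * (LL₂.card *
    (p * ((2 * p * q + 2 * p * τ) * L₂) * (r + (p + q) * I))) with hb
  have hclass : ∀ ℓ ∈ LL₁, ∀ T : Set Pt, (∀ P ∈ T, P ∈ Sol p q r τ N s₁ s₂) → ∀ P₀ : Pt,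
      (∀ P ∈ T, ∀ i, (ℓ : ℤ) ∣ P i - P₀ i) → ¬ (ℓ : ℤ) ∣ p * P₀ 0 → ZB T b := by
    intro ℓ hℓ T hT P₀ hres hnd
    obtain ⟨l1, l2, l3⟩ := hLL₁ ℓ hℓ
    have hloc : Loc 2 ℓ T := hD ℓ p q r s₁ s₂ T P₀ l1 (fun P hP => (hT P hP).1) hres hnd
    obtain ⟨c, hc0, hcB, hcv⟩ := hJ p q τ N M ℓ T hp1 hq1 hτ1 hN hloc
      (fun P hP => ⟨(hT P hP).2.2.1, (hT P hP).2.2.2.1, (hT P hP).2.2.2.2⟩) l3
    obtain ⟨H, hH0, hH1, hH2, hHv, hHB⟩ := hK p q r τ (hB p q τ N) s₁ s₂ c hp1 hq1 hr1 hrτ hx.qr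
      hx.e₁ hx.e₂ hc0 hcB
    refine hI p q r s₁ s₂ hx τ N I (2 * p * q) (2 * p * τ) (eB p q τ (hB p q τ N) (N ^ τ)) L₂ H
      LL₂ T hN hI1 hH0 hH1 hH2 hLL₂ hp₂ ?_ ?_
    · intro P hP k
      refine hHB k (N ^ τ) (P 1) (P 2) ?_ ?_
      · push_cast
        exact hpow _ q hq1 (hT P hP).2.2.2.1
      · push_cast
        exact (hT P hP).2.2.2.2.trans hNτ
    · intro P hP
      obtain ⟨g1, g2, g3, g4, g5⟩ := hT P hP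
      exact ⟨g1, g2, hpow _ p hp1 g3, hpow _ q hq1 g4, g5, hHv _ _ _ g1 (hcv P hP)⟩
  refine zb_biUnion LL₁ (fun ℓ => {P | P ∈ Sol p q r τ N s₁ s₂ ∧ ¬ (ℓ : ℤ) ∣ p * P 0})
    (L₁ ^ 3 * b) _ ?_ ?_
  · intro P hP
    have hp0 : (p : ℤ) ≠ 0 := by omega
    have hne : (p : ℤ) * P 0 ≠ 0 := mul_ne_zero hp0 hP.2.1
    have hlt : |(p : ℤ) * P 0| < ((∏ ℓ ∈ LL₁, ℓ : ℕ) : ℤ) := by
      have h3 : |(p : ℤ) * P 0| ≤ (p : ℤ) * (N : ℤ) ^ τ := by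
        rw [abs_mul, Nat.abs_cast]
        exact mul_le_mul_of_nonneg_left (hpow _ p hp1 hP.2.2.1) (by positivity)
      have h5 : ((p * N ^ τ : ℕ) : ℤ) < ((∏ ℓ ∈ LL₁, ℓ : ℕ) : ℤ) := by exact_mod_cast hp₁
      push_cast at h5 ⊢
      exact lt_of_le_of_lt h3 h5
    obtain ⟨ℓ, hℓ, hnd⟩ := exists_not_dvd LL₁ (fun ℓ hℓ => (hLL₁ ℓ hℓ).1) _ hne hlt
    exact ⟨ℓ, hℓ, hP, hnd⟩
  · intro ℓ hℓ
    obtain ⟨l1, l2, l3⟩ := hLL₁ ℓ hℓ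
    have : Fact ℓ.Prime := ⟨l1⟩
    have hcard : (univ : Finset (Fin 3 → ZMod ℓ)).card ≤ L₁ ^ 3 := by
      rw [Finset.card_univ, Fintype.card_fun, ZMod.card, Fintype.card_fin]
      exact Nat.pow_le_pow_left l2 3
    refine zb_le (Nat.mul_le_mul_right _ hcard) ?_
    refine zb_biUnion univ (fun Q : Fin 3 → ZMod ℓ => {P | (P ∈ Sol p q r τ N s₁ s₂ ∧
      ¬ (ℓ : ℤ) ∣ p * P 0) ∧ ∀ i, ((P i : ℤ) : ZMod ℓ) = Q i}) _ _ ?_ ?_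
    · intro P hP
      exact ⟨fun i => ((P i : ℤ) : ZMod ℓ), mem_univ _, hP, fun i => rfl⟩
    · intro Q _
      by_cases hq : ∃ P : Pt, (P ∈ Sol p q r τ N s₁ s₂ ∧ ¬ (ℓ : ℤ) ∣ p * P 0) ∧
          ∀ i, ((P i : ℤ) : ZMod ℓ) = Q i
      swap
      · exact zb_empty (fun P hP => hq ⟨P, hP⟩) _
      obtain ⟨P₀, hP₀, hQ₀⟩ := hq
      refine hclass ℓ hℓ _ (fun P hP => hP.1.1) P₀ ?_ hP₀.2
      rintro P ⟨-, hPQ⟩ i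
      have h3 : ((P₀ i : ℤ) : ZMod ℓ) = ((P i : ℤ) : ZMod ℓ) := (hQ₀ i).trans (hPQ i).symm
      exact (ZMod.intCast_eq_intCast_iff_dvd_sub _ _ _).1 h3

end Pool.Agent.Lib.MP_509488_nt.Surf
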