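import Pool.Agent.Lib.MP_509488_nt.Surf.Stmts

/-!
# Module Curve: the number of `z` on a curve of the surface
-/

namespace Pool.Agent.Lib.MP_509488_nt.Surf

open Finset Polynomial

namespace CurveAux

theorem zb_mono {S T : Set Pt} {b : ℕ} (h : S ⊆ T) (hT : ZB T b) : ZB S b := by
  intro Z hZ
  refine hT Z fun z hz => ?_
  obtain ⟨P, hP, e⟩ := hZ z hz
  exact ⟨P, h hP, e⟩

theorem zb_le {S : Set Pt} {a b : ℕ} (h : a ≤ b) (hS : ZB S a) : ZB S b :=
  fun Z hZ => (hS Z hZ).trans h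

theorem zb_biUnion {ι : Type*} (J : Finset ι) (T : ι → Set Pt) (b : ℕ) (S : Set Pt)
    (hS : ∀ P ∈ S, ∃ i ∈ J, P ∈ T i) (hT : ∀ i ∈ J, ZB (T i) b) : ZB S (J.card * b) := by
  classical
  intro Z hZ
  have h1 : Z ⊆ J.biUnion fun i => Z.filter fun z => ∃ P ∈ T i, P 2 = z := by
    intro z hz
    obtain ⟨P, hP, e⟩ := hZ z hz
    obtain ⟨i, hi, hPi⟩ := hS P hP
    simp only [mem_biUnion, mem_filter]
    exact ⟨i, hi, hz, P, hPi, e⟩
  calc Z.card ≤ _ := card_le_card h1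
    _ ≤ ∑ i ∈ J, (Z.filter fun z => ∃ P ∈ T i, P 2 = z).card := card_biUnion_le
    _ ≤ ∑ i ∈ J, b := sum_le_sum fun i hi => hT i hi _ (fun z hz => (mem_filter.mp hz).2)
    _ = J.card * b := by simp

theorem zb_union {A B : Set Pt} {a b : ℕ} (S : Set Pt) (hS : ∀ P ∈ S, P ∈ A ∨ P ∈ B)
    (hA : ZB A a) (hB : ZB B b) : ZB S (a + b) := by
  classical
  intro Z hZ
  have h1 : Z ⊆ (Z.filter fun z => ∃ P ∈ A, P 2 = z) ∪ Z.filter fun z => ∃ P ∈ B, P 2 = z := by
    intro z hz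
    obtain ⟨P, hP, e⟩ := hZ z hz
    simp only [mem_union, mem_filter]
    rcases hS P hP with h | h
    · exact Or.inl ⟨hz, P, h, e⟩
    · exact Or.inr ⟨hz, P, h, e⟩
  calc Z.card ≤ _ := card_le_card h1
    _ ≤ _ := card_union_le _ _
    _ ≤ a + b := Nat.add_le_add (hA _ fun z hz => (mem_filter.mp hz).2)
        (hB _ fun z hz => (mem_filter.mp hz).2)

theorem zb_empty {S : Set Pt} (h : ∀ P, P ∉ S) (b : ℕ) : ZB S b := by
  intro Z hZ
  have : Z = ∅ := by
    rw [Finset.eq_empty_iff_forall_notMem]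
    intro z hz
    obtain ⟨P, hP, _⟩ := hZ z hz
    exact h P hP
  rw [this]
  simp

/-- Classes modulo `ℓ`. -/
theorem zb_res (hE : StLocCurve) (hG : StClass) (hH : StRes) {p q r : ℕ} {s₁ s₂ : ℤ}
    (hx : Exps p q r s₁ s₂) {ℓ N I τ D₁ D₂ : ℕ} (hℓ : ℓ.Prime) (hN : 1 ≤ N) (hI : 1 ≤ I)
    (hb : (2 * I).factorial * N ^ (I * (I - 1) + I * τ) < ℓ ^ (I * (2 * I - 1)))
    (F : Polynomial (Polynomial ℤ)) (h1 : F.natDegree ≤ D₁) (h2 : ∀ k, (F.coeff k).natDegree ≤ D₂)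
    (T : Set Pt) (hT : ∀ P ∈ T, Eqn p q r s₁ s₂ P ∧ |P 0| ≤ (N : ℤ) ^ τ ∧
      |P 1| ≤ (N : ℤ) ^ τ ∧ |P 2| ≤ N ∧ evalEval (P 2) (P 1) F = 0 ∧ ¬ (ℓ : ℤ) ∣ p * P 0 ∧
      ¬ (ℓ : ℤ) ∣ evalEval (P 2) (P 1) (derivative F)) :
    ZB T (p * ((D₁ + D₂) * ℓ) * (r + (p + q) * I)) := by
  classical
  by_cases hne : ∃ P, P ∈ T
  swap
  · exact zb_empty (fun P hP => hne ⟨P, hP⟩) _
  obtain ⟨P₁, hP₁⟩ := hne
  have : Fact ℓ.Prime := ⟨hℓ⟩
  let f : ℤ →+* ZMod ℓ := Int.castRingHom (ZMod ℓ)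
  let h : Polynomial (Polynomial (ZMod ℓ)) := F.map (mapRingHom f)
  have hev : ∀ (x y : ℤ) (G : Polynomial (Polynomial ℤ)),
      evalEval (f x) (f y) (G.map (mapRingHom f)) = f (evalEval x y G) :=
    fun x y G => map_mapRingHom_evalEval f G x y
  have hh : h ≠ 0 := by
    intro h0
    have h3 := (hT P₁ hP₁).2.2.2.2.2.2
    apply h3
    have h4 := hev (P₁ 2) (P₁ 1) (derivative F)
    rw [← Polynomial.derivative_map] at h4
    have h5 : F.map (mapRingHom f) = 0 := h0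
    rw [h5, derivative_zero, evalEval_zero] at h4
    have h6 : ((evalEval (P₁ 2) (P₁ 1) (derivative F) : ℤ) : ZMod ℓ) = 0 := h4.symm
    exact (ZMod.intCast_zmod_eq_zero_iff_dvd _ _).1 h6
  have hc := hH ℓ p q r D₁ D₂ (f s₁) (f s₂) h (by have := hx.hp; omega) hh
    ((natDegree_map_le).trans h1) (fun k => by
      show ((F.map (mapRingHom f)).coeff k).natDegree ≤ D₂
      rw [coeff_map]
      exact (natDegree_map_le).trans (h2 k))
  rw [Nat.card_eq_fintype_card, Fintype.card_subtype] at hc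
  refine zb_le (Nat.mul_le_mul_right _ hc) ?_
  refine zb_biUnion _ (fun Q => {P | P ∈ T ∧ ∀ i, f (P i) = Q i}) _ T ?_ ?_
  · intro P hP
    refine ⟨fun i => f (P i), ?_, hP, fun i => rfl⟩
    obtain ⟨e1, -, -, -, e2, -, -⟩ := hT P hP
    simp only [mem_filter, mem_univ, true_and]
    constructor
    · have h3 := hev (P 2) (P 1) F
      rw [e2, map_zero] at h3
      exact h3
    · have h3 := congrArg f e1
      simp only [map_add, map_mul, map_pow] at h3
      exact h3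
  · intro Q _
    by_cases hq : ∃ P, P ∈ T ∧ ∀ i, f (P i) = Q i
    swap
    · exact zb_empty (fun P hP => hq ⟨P, hP⟩) _
    obtain ⟨P₀, hP₀, hQ₀⟩ := hq
    have hloc : Loc 1 ℓ {P | P ∈ T ∧ ∀ i, f (P i) = Q i} := by
      refine hE ℓ p q r s₁ s₂ _ P₀ F hℓ ?_ ?_ (hT P₀ hP₀).2.2.2.2.2.1 (hT P₀ hP₀).2.2.2.2.2.2
      · rintro P ⟨hP, -⟩
        exact ⟨(hT P hP).1, (hT P hP).2.2.2.2.1⟩
      · rintro P ⟨hP, hPQ⟩ i
        have h3 : ((P₀ i : ℤ) : ZMod ℓ) = ((P i : ℤ) : ZMod ℓ) := (hQ₀ i).trans (hPQ i).symm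
        exact (ZMod.intCast_eq_intCast_iff_dvd_sub _ _ _).1 h3
    exact hG p q r s₁ s₂ hx ℓ N I τ _ hN hI hloc
      (fun P hP => ⟨(hT P hP.1).1, (hT P hP.1).2.1, (hT P hP.1).2.2.1, (hT P hP.1).2.2.2.1⟩) hb

/-- A nonzero integer smaller than a product of primes is not divisible by one of them. -/
theorem exists_not_dvd (LL : Finset ℕ) (hp : ∀ ℓ ∈ LL, ℓ.Prime) (a : ℤ) (ha : a ≠ 0)
    (hlt : |a| < ((∏ ℓ ∈ LL, ℓ : ℕ) : ℤ)) : ∃ ℓ ∈ LL, ¬ (ℓ : ℤ) ∣ a := by
  by_contra hcon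
  push Not at hcon
  have h1 : (∏ ℓ ∈ LL, ℓ) ∣ a.natAbs := by
    refine Finset.prod_primes_dvd _ (fun ℓ hℓ => (hp ℓ hℓ).prime) fun ℓ hℓ => ?_
    exact Int.natCast_dvd.mp (hcon ℓ hℓ)
  have h2 := Nat.le_of_dvd (Int.natAbs_pos.mpr ha) h1
  have h3 : ((∏ ℓ ∈ LL, ℓ : ℕ) : ℤ) ≤ (a.natAbs : ℤ) := by exact_mod_cast h2
  rw [Int.natCast_natAbs] at h3
  omega

end CurveAux

open CurveAux in
theorem stCurve (hE : StLocCurve) (hG : StClass) (hH : StRes) : StCurve := by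
  classical
  intro p q r s₁ s₂ hx τ N I D₁ D₂ E L H LL S hN hI hH0 hD₁ hD₂ hLL hprod hval hS
  set e := H.natDegree with he
  -- the points with all derivatives equal to zero
  have hA : ZB {P | P ∈ S ∧ ∀ k, k ≤ e → evalEval (P 2) (P 1) (derivative^[k] H) = 0} D₂ := by
    intro Z hZ
    have hlc : H.leadingCoeff ≠ 0 := leadingCoeff_ne_zero.mpr hH0
    have h1 : Z ⊆ H.leadingCoeff.roots.toFinset := by
      intro z hz
      obtain ⟨P, ⟨-, hP⟩, rfl⟩ := hZ z hz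
      rw [Multiset.mem_toFinset, mem_roots hlc, IsRoot.def]
      have h2 := hP e le_rfl
      have h3 : derivative^[e] H = C (e.factorial • H.leadingCoeff) := by
        have h4 : (derivative^[e] H).natDegree ≤ 0 := by
          have := natDegree_iterate_derivative H e
          omega
        rw [eq_C_of_natDegree_le_zero h4, coeff_iterate_derivative]
        simp only [zero_add, Nat.descFactorial_self]
        rfl
      rw [h3, evalEval_C, eval_smul, smul_eq_zero] at h2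
      rcases h2 with h2 | h2
      · exact absurd h2 (Nat.factorial_ne_zero _)
      · exact h2
    calc Z.card ≤ H.leadingCoeff.roots.toFinset.card := card_le_card h1
      _ ≤ Multiset.card H.leadingCoeff.roots := Multiset.toFinset_card_le _
      _ ≤ H.leadingCoeff.natDegree := card_roots' _
      _ ≤ D₂ := hD₂ _
  -- the other points
  have hB : ZB {P | P ∈ S ∧ ∃ k, k ≤ e ∧ evalEval (P 2) (P 1) (derivative^[k] H) ≠ 0}
      ((range e).card * (LL.card * (p * ((D₁ + D₂) * L) * (r + (p + q) * I)))) := by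
    refine zb_biUnion (range e) (fun k => {P | P ∈ S ∧
      evalEval (P 2) (P 1) (derivative^[k] H) = 0 ∧
      evalEval (P 2) (P 1) (derivative^[k + 1] H) ≠ 0}) _ _ ?_ ?_
    · rintro P ⟨hP, hk⟩
      have hmin := Nat.find_spec hk
      set k := Nat.find hk with hkdef
      have hk0 : k ≠ 0 := by
        intro h0
        rw [h0] at hmin
        exact hmin.2 (hS P hP).2.2.2.2.2
      obtain ⟨j, hj⟩ := Nat.exists_eq_succ_of_ne_zero hk0
      refine ⟨j, by rw [mem_range]; omega, hP, ?_, ?_⟩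
      · by_contra hne
        have := Nat.find_min hk (m := j) (by rw [← hkdef]; omega)
        exact this ⟨by omega, hne⟩
      · have h3 := hmin.2
        rw [hj] at h3
        exact h3
    · intro k hk
      have hk' : k < e := mem_range.mp hk
      set F := derivative^[k] H with hF
      have hFd : derivative^[k + 1] H = derivative F := by
        rw [hF, Function.iterate_succ_apply']
      refine zb_biUnion LL (fun ℓ => {P | P ∈ S ∧ evalEval (P 2) (P 1) F = 0 ∧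
        ¬ (ℓ : ℤ) ∣ p * P 0 ∧ ¬ (ℓ : ℤ) ∣ evalEval (P 2) (P 1) (derivative F)}) _ _ ?_ ?_
      · rintro P ⟨hP, h1, h2⟩
        rw [hFd] at h2
        obtain ⟨g1, g2, g3, g4, g5, g6⟩ := hS P hP
        have hv := hval P hP (k + 1)
        rw [hFd] at hv
        set a := evalEval (P 2) (P 1) (derivative F) with ha
        have hp0 : (p : ℤ) ≠ 0 := by have := hx.hp; omega
        have hne : (p : ℤ) * P 0 * a ≠ 0 := mul_ne_zero (mul_ne_zero hp0 g2) h2
        have hlt : |(p : ℤ) * P 0 * a| < ((∏ ℓ ∈ LL, ℓ : ℕ) : ℤ) := by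
          have h3 : |(p : ℤ) * P 0 * a| ≤ (p : ℤ) * (N : ℤ) ^ τ * E := by
            rw [abs_mul, abs_mul, Nat.abs_cast]
            have h4 : (p : ℤ) * |P 0| ≤ p * (N : ℤ) ^ τ :=
              mul_le_mul_of_nonneg_left g3 (by positivity)
            exact mul_le_mul h4 hv (abs_nonneg _) (by positivity)
          have h5 : ((E * p * N ^ τ : ℕ) : ℤ) < ((∏ ℓ ∈ LL, ℓ : ℕ) : ℤ) := by exact_mod_cast hprod
          have h6 : ((E * p * N ^ τ : ℕ) : ℤ) = (p : ℤ) * (N : ℤ) ^ τ * E := by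
            push_cast
            ring
          rw [h6] at h5
          exact lt_of_le_of_lt h3 h5
        obtain ⟨ℓ, hℓ, hnd⟩ := exists_not_dvd LL (fun ℓ hℓ => (hLL ℓ hℓ).1) _ hne hlt
        exact ⟨ℓ, hℓ, hP, h1, fun hd => hnd (hd.mul_right _), fun hd => hnd (hd.mul_left _)⟩
      · intro ℓ hℓ
        obtain ⟨l1, l2, l3⟩ := hLL ℓ hℓ
        have h4 : p * ((D₁ + D₂) * ℓ) * (r + (p + q) * I) ≤
            p * ((D₁ + D₂) * L) * (r + (p + q) * I) :=
          Nat.mul_le_mul_right _ (Nat.mul_le_mul_left _ (Nat.mul_le_mul_left _ l2))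
        refine zb_le h4 (zb_res hE hG hH hx l1 hN hI l3 F ?_ ?_ _ ?_)
        · have h5 := natDegree_iterate_derivative H k
          rw [← hF] at h5
          omega
        · intro j
          rw [hF, coeff_iterate_derivative]
          exact (natDegree_smul_le _ _).trans (hD₂ _)
        · rintro P ⟨hP, h1, h2, h3⟩
          obtain ⟨g1, g2, g3, g4, g5, g6⟩ := hS P hP
          exact ⟨g1, g3, g4, g5, h1, h2, h3⟩
  rw [card_range] at hB
  have hU := zb_union S (fun P hP => ?_) hA hB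
  · refine zb_le ?_ hU
    refine Nat.add_le_add_left ?_ _
    exact Nat.mul_le_mul_right _ hD₁
  · by_cases h : ∀ k, k ≤ e → evalEval (P 2) (P 1) (derivative^[k] H) = 0
    · exact Or.inl ⟨hP, h⟩
    · push Not at h
      exact Or.inr ⟨hP, h⟩

end Pool.Agent.Lib.MP_509488_nt.Surf
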