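import Pool.Agent.Lib.MP_509488_nt.Surf.Stmts

/-!
# Almost all bases: the choice of the parameters for one signature
-/

namespace Pool.Agent.Lib.MP_509488_nt.Surf

open Finset

namespace FixedAux

lemma sum_choose (M : ℕ) : 6 * ∑ v ∈ range M, (v + 2).choose 2 = M * (M + 1) * (M + 2) := by
  induction M with
  | zero => simp
  | succ M ih =>
    rw [Finset.sum_range_succ, mul_add, ih]
    have h : 2 * (M + 2).choose 2 = (M + 2) * (M + 1) := by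
      have h1 := Nat.triangle_succ (M + 1)
      rw [Nat.choose_two_right]
      have h2 : 2 ∣ (M + 2) * (M + 2 - 1) := by
        rw [show M + 2 - 1 = M + 1 by omega, mul_comm]
        exact (Nat.even_mul_succ_self (M + 1)).two_dvd
      rw [Nat.mul_div_cancel' h2]
      simp
    have h3 : 6 * (M + 2).choose 2 = 3 * ((M + 2) * (M + 1)) := by rw [← h]; ring
    rw [h3]; ring

lemma expo_ge {K M : ℕ} (hM : 2 ≤ M) (hK : M ^ 2 ≤ K) : K * M ≤ 2 * expo 2 K M := by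
  unfold expo
  have h := sum_choose M
  have h1 : M * (M + 1) * (M + 2) ≤ 3 * (K * M) := by
    have h2 : (M + 1) * (M + 2) ≤ 3 * M ^ 2 := by nlinarith
    calc M * (M + 1) * (M + 2) = M * ((M + 1) * (M + 2)) := by ring
      _ ≤ M * (3 * K) := Nat.mul_le_mul_left _ (h2.trans (Nat.mul_le_mul_left 3 hK))
      _ = 3 * (K * M) := by ring
  omega

lemma cond1 {N ℓ K τ M : ℕ} {a : ℝ} (hN : 2 ≤ N) (ha : 0 < a) (hl : (N : ℝ) ^ a ≤ ℓ)
    (hKN : K ≤ N) (hK : 1 ≤ K) (hτ : 2 ≤ τ) (hM : 2 ≤ M) (hMK : M ^ 2 ≤ K)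
    (haM : 9 * (τ : ℝ) ≤ a * M) :
    K.factorial ^ 2 * N ^ (3 * τ * K) < ℓ ^ (2 * expo 2 K M) := by
  have hNR : (1 : ℝ) < N := by exact_mod_cast (by omega : 1 < N)
  have hl1 : 1 ≤ ℓ := by
    have : (1 : ℝ) ≤ (ℓ : ℝ) := (Real.one_le_rpow hNR.le ha.le).trans hl
    exact_mod_cast this
  have h1 : K.factorial ^ 2 * N ^ (3 * τ * K) ≤ N ^ (4 * τ * K) := by
    have h2 : K.factorial ≤ N ^ K := (Nat.factorial_le_pow K).trans (Nat.pow_le_pow_left hKN K)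
    calc K.factorial ^ 2 * N ^ (3 * τ * K) ≤ (N ^ K) ^ 2 * N ^ (3 * τ * K) := by gcongr
      _ = N ^ (2 * K + 3 * τ * K) := by rw [← pow_mul, ← pow_add]; congr 1; ring
      _ ≤ N ^ (4 * τ * K) := by
          apply Nat.pow_le_pow_right (by omega)
          nlinarith
  have h3 : ℓ ^ (K * M) ≤ ℓ ^ (2 * expo 2 K M) := Nat.pow_le_pow_right hl1 (expo_ge hM hMK)
  refine lt_of_le_of_lt h1 (lt_of_lt_of_le ?_ h3)
  have h4 : ((N ^ (4 * τ * K) : ℕ) : ℝ) < ((ℓ ^ (K * M) : ℕ) : ℝ) := by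
    push_cast
    have hK' : (1 : ℝ) ≤ K := by exact_mod_cast hK
    have hτ' : (2 : ℝ) ≤ τ := by exact_mod_cast hτ
    calc (N : ℝ) ^ (4 * τ * K) = (N : ℝ) ^ ((4 * τ * K : ℕ) : ℝ) := (Real.rpow_natCast _ _).symm
      _ < (N : ℝ) ^ (a * ((K * M : ℕ) : ℝ)) := by
          apply Real.rpow_lt_rpow_of_exponent_lt hNR
          push_cast
          have h5 : 9 * (τ : ℝ) * K ≤ a * M * K := by gcongr
          nlinarith
      _ = ((N : ℝ) ^ a) ^ (K * M) := by rw [Real.rpow_mul (by positivity), Real.rpow_natCast]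
      _ ≤ (ℓ : ℝ) ^ (K * M) := by gcongr
  exact_mod_cast h4

lemma cond2 {N ℓ I τ : ℕ} {ε : ℝ} (hN : 2 ≤ N) (hε : 0 < ε) (hε2 : ε ≤ 1 / 2)
    (hl : (N : ℝ) ^ (1 / 2 + ε / 4) ≤ ℓ) (hIN : 2 * I ≤ N) (hI : 1 ≤ I) (hτ : 2 ≤ τ)
    (hIτ : 4 * (τ : ℝ) ≤ ε * I) :
    (2 * I).factorial * N ^ (I * (I - 1) + I * τ) < ℓ ^ (I * (2 * I - 1)) := by
  have hNR : (1 : ℝ) < N := by exact_mod_cast (by omega : 1 < N)
  have h1 : (2 * I).factorial * N ^ (I * (I - 1) + I * τ) ≤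
      N ^ (2 * I + (I * (I - 1) + I * τ)) := by
    have h2 : (2 * I).factorial ≤ N ^ (2 * I) :=
      (Nat.factorial_le_pow _).trans (Nat.pow_le_pow_left hIN _)
    rw [pow_add N (2 * I)]
    gcongr
  refine lt_of_le_of_lt h1 ?_
  have h4 : ((N ^ (2 * I + (I * (I - 1) + I * τ)) : ℕ) : ℝ) <
      ((ℓ ^ (I * (2 * I - 1)) : ℕ) : ℝ) := by
    push_cast
    have hI' : (1 : ℝ) ≤ I := by exact_mod_cast hI
    have hτ' : (2 : ℝ) ≤ τ := by exact_mod_cast hτ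
    have hs : ((I - 1 : ℕ) : ℝ) = I - 1 := by rw [Nat.cast_sub hI]; simp
    have hs2 : ((2 * I - 1 : ℕ) : ℝ) = 2 * I - 1 := by
      rw [Nat.cast_sub (by omega)]; push_cast; ring
    calc (N : ℝ) ^ (2 * I + (I * (I - 1) + I * τ))
        = (N : ℝ) ^ ((2 * I + (I * (I - 1) + I * τ) : ℕ) : ℝ) := (Real.rpow_natCast _ _).symm
      _ < (N : ℝ) ^ ((1 / 2 + ε / 4) * ((I * (2 * I - 1) : ℕ) : ℝ)) := by
          apply Real.rpow_lt_rpow_of_exponent_lt hNR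
          push_cast
          rw [hs, hs2]
          have h6 : (1 / 2 + ε / 4) * ((I : ℝ) * (2 * I - 1)) -
              (2 * I + (I * (I - 1) + I * τ)) = I * ((ε * I) / 2 - ε / 4 - 3 / 2 - τ) := by ring
          have h7 : 0 < (ε * I) / 2 - ε / 4 - 3 / 2 - τ := by linarith
          nlinarith [mul_pos (show (0 : ℝ) < I by linarith) h7]
      _ = ((N : ℝ) ^ (1 / 2 + ε / 4)) ^ (I * (2 * I - 1)) := by
          rw [Real.rpow_mul (by positivity), Real.rpow_natCast]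
      _ ≤ (ℓ : ℝ) ^ (I * (2 * I - 1)) := by gcongr
  exact_mod_cast h4

/-- The exponent in the bound for the values of the derivatives. -/
def E₁ (p q τ : ℕ) : ℕ :=
  2 * p * q + (p + (1 + 4 * τ * (p * q * τ) + (τ + 1) * (2 * (q + τ))) * p)

lemma eB_le {p q τ N : ℕ} (hp : 2 ≤ p) (hq : 2 ≤ q) (hτ : 2 ≤ τ) (hN : 2 ≤ N)
    (h1 : 2 * p * q ≤ N) (h2 : 2 * q * τ ≤ N) (h3 : p * q * τ ≤ N) :
    eB p q τ (hB p q τ N) (N ^ τ) ≤ N ^ E₁ p q τ := by
  have hpN : p ≤ N := by nlinarith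
  have hhB : hB p q τ N ≤ N ^ (4 * τ * (p * q * τ)) := by
    unfold hB
    have h4 : (p * q * τ).factorial ≤ N ^ (p * q * τ) :=
      (Nat.factorial_le_pow _).trans (Nat.pow_le_pow_left h3 _)
    calc (p * q * τ).factorial * (N ^ (3 * τ)) ^ (p * q * τ)
        ≤ N ^ (p * q * τ) * (N ^ (3 * τ)) ^ (p * q * τ) := by gcongr
      _ = N ^ (p * q * τ + 3 * τ * (p * q * τ)) := by rw [← pow_mul, ← pow_add]
      _ ≤ N ^ (4 * τ * (p * q * τ)) := by
          apply Nat.pow_le_pow_right (by omega)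
          have : p * q * τ ≤ τ * (p * q * τ) := Nat.le_mul_of_pos_left _ (by omega)
          nlinarith
  have hV : N ^ τ + 1 ≤ N ^ (τ + 1) := by
    have h5 : 1 ≤ N ^ τ := Nat.one_le_pow _ _ (by omega)
    rw [pow_succ]
    nlinarith
  unfold eB E₁
  have h6 : (2 * p * q).factorial ≤ N ^ (2 * p * q) :=
    (Nat.factorial_le_pow _).trans (Nat.pow_le_pow_left h1 _)
  have h7 : p.factorial ≤ N ^ p := (Nat.factorial_le_pow _).trans (Nat.pow_le_pow_left hpN _)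
  have h8 : 2 * q * τ * hB p q τ N * (N ^ τ + 1) ^ (2 * (q + τ)) ≤
      N ^ (1 + 4 * τ * (p * q * τ) + (τ + 1) * (2 * (q + τ))) := by
    rw [pow_add, pow_add, pow_one, pow_mul N (τ + 1)]
    gcongr
  rw [pow_add N (2 * p * q), pow_add N p, pow_mul N (1 + 4 * τ * (p * q * τ) + _)]
  gcongr

lemma E₁_le {p q τ : ℕ} (hp : 2 ≤ p) (hq : 2 ≤ q) (hτ : 2 ≤ τ) :
    E₁ p q τ + 1 + τ ≤ 12 * (p * τ * (p * q * τ)) := by
  unfold E₁
  set K := p * q * τ with hK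
  have a1 : q + τ ≤ q * τ := by nlinarith
  have a2 : τ + 1 ≤ 2 * τ := by omega
  have a3 : (τ + 1) * (2 * (q + τ)) * p ≤ 4 * (τ * K) := by
    calc (τ + 1) * (2 * (q + τ)) * p ≤ (2 * τ) * (2 * (q * τ)) * p := by gcongr
      _ = 4 * (τ * K) := by rw [hK]; ring
  have a4 : τ * K ≤ p * τ * K := by
    rw [mul_assoc]; exact Nat.le_mul_of_pos_left _ (by omega)
  have a5 : 2 * p * q ≤ K := by rw [hK]; nlinarith
  have a6 : K ≤ τ * K := Nat.le_mul_of_pos_left _ (by omega)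
  have a7 : p ≤ K := by rw [hK, mul_assoc]; exact Nat.le_mul_of_pos_right _ (by positivity)
  have a8 : 1 + τ ≤ K := by
    rw [hK]
    have : 4 * τ ≤ p * q * τ := Nat.mul_le_mul_right _ (by nlinarith)
    omega
  have a9 : (1 + 4 * τ * K + (τ + 1) * (2 * (q + τ))) * p =
      p + 4 * (p * τ * K) + (τ + 1) * (2 * (q + τ)) * p := by ring
  rw [a9]
  omega

lemma prod_ge {LL : Finset ℕ} {N E : ℕ} {a : ℝ} (hN : 2 ≤ N)
    (h : ∀ ℓ ∈ LL, (N : ℝ) ^ a ≤ ℓ) (hE : (E : ℝ) < a * LL.card) :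
    N ^ E < ∏ ℓ ∈ LL, ℓ := by
  have hNR : (1 : ℝ) < N := by exact_mod_cast (by omega : 1 < N)
  have h1 : ((N ^ E : ℕ) : ℝ) < ((∏ ℓ ∈ LL, ℓ : ℕ) : ℝ) := by
    push_cast
    calc (N : ℝ) ^ E = (N : ℝ) ^ (E : ℝ) := (Real.rpow_natCast _ _).symm
      _ < (N : ℝ) ^ (a * LL.card) := Real.rpow_lt_rpow_of_exponent_lt hNR hE
      _ = ((N : ℝ) ^ a) ^ LL.card := by rw [Real.rpow_mul (by positivity), Real.rpow_natCast]
      _ = ∏ _ℓ ∈ LL, (N : ℝ) ^ a := by rw [Finset.prod_const]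
      _ ≤ ∏ ℓ ∈ LL, (ℓ : ℝ) := Finset.prod_le_prod (fun _ _ => by positivity) h
  exact_mod_cast h1

end FixedAux

open FixedAux

/-- (N) The bound for one signature. -/
theorem stFixed (hM : StCount) (hL : StPrimes) : StFixed := by
  intro ε hε hε2
  set δ : ℝ := ε / 200 with hδ
  set c : ℝ := (ε / 400) ^ 2 with hc
  have hδ0 : 0 < δ := by positivity
  have hc0 : 0 < c := by positivity
  have hc1 : c ≤ 1 := by rw [hc]; nlinarith
  obtain ⟨N₁, hN₁⟩ := hL (ε / 40) (ε / 20) (by positivity) (by linarith)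
  obtain ⟨N₂, hN₂⟩ := hL (1 / 2 + ε / 4) (1 / 2 + ε / 2) (by positivity) (by linarith)
  obtain ⟨N₃, hN₃⟩ : ∃ N₃ : ℕ, ∀ N : ℕ, N₃ ≤ N → max 25 (100 / ε) ≤ (N : ℝ) ^ δ := by
    have := (tendsto_rpow_atTop hδ0).comp tendsto_natCast_atTop_atTop
    exact (Filter.eventually_atTop.1 (this.eventually_ge_atTop (max 25 (100 / ε))))
  refine ⟨c, δ, hc0, hc1, hδ0, max (max N₁ N₂) (max N₃ 2), fun N hN => ?_⟩
  have hNN₁ : N₁ ≤ N := (le_max_left _ _).trans ((le_max_left _ _).trans hN)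
  have hNN₂ : N₂ ≤ N := (le_max_right _ _).trans ((le_max_left _ _).trans hN)
  have hNN₃ : N₃ ≤ N := (le_max_left _ _).trans ((le_max_right _ _).trans hN)
  have hN2 : 2 ≤ N := (le_max_right _ _).trans ((le_max_right _ _).trans hN)
  intro p q r τ s₁ s₂ hE hrτ hτc hpN hqN
  have hNR : (1 : ℝ) < N := by exact_mod_cast (by omega : 1 < N)
  set A : ℝ := (N : ℝ) ^ δ with hA
  have hA25 : 25 ≤ A := (le_max_left _ _).trans (hN₃ N hNN₃)
  have hAε : 100 / ε ≤ A := (le_max_right _ _).trans (hN₃ N hNN₃)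
  have hAε' : 100 ≤ ε * A := by
    rw [div_le_iff₀ hε] at hAε; linarith
  have hApow : ∀ k : ℕ, A ^ k = (N : ℝ) ^ (k * δ) := by
    intro k
    rw [hA, ← Real.rpow_natCast, ← Real.rpow_mul (by positivity), mul_comm]
  have hAle : ∀ k : ℕ, (k : ℝ) * δ ≤ 1 → A ^ k ≤ N := by
    intro k hk
    rw [hApow]
    calc (N : ℝ) ^ (k * δ) ≤ (N : ℝ) ^ (1 : ℝ) := Real.rpow_le_rpow_of_exponent_le hNR.le hk
      _ = N := Real.rpow_one _
  have hp := hE.hp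
  have hq := hE.hq
  have hr := hE.hr
  have hτ2 : 2 ≤ τ := hr.trans hrτ
  have hp2 : (2 : ℝ) ≤ p := by exact_mod_cast hp
  have hq2 : (2 : ℝ) ≤ q := by exact_mod_cast hq
  have hr2 : (2 : ℝ) ≤ r := by exact_mod_cast hr
  have hτ2' : (2 : ℝ) ≤ τ := by exact_mod_cast hτ2
  have hrτ' : (r : ℝ) ≤ τ := by exact_mod_cast hrτ
  have hA0 : 0 < A := by linarith
  have hpq : (p * q : ℝ) ≤ A ^ 2 := by
    rw [sq]
    exact mul_le_mul hpN hqN (by linarith) hA0.le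
  have hA3' : 625 * A ≤ A ^ 3 := by
    have h1 : (25 : ℝ) ^ 2 * A ≤ A ^ 2 * A := by gcongr
    have h2 : A ^ 3 = A ^ 2 * A := by ring
    rw [h2]
    linarith
  have hA43 : 25 * A ^ 3 ≤ A ^ 4 := by
    have h1 : 25 * A ^ 3 ≤ A * A ^ 3 := by gcongr
    have h2 : A ^ 4 = A * A ^ 3 := by ring
    linarith
  have hA32 : 25 * A ^ 2 ≤ A ^ 3 := by
    have h1 : 25 * A ^ 2 ≤ A * A ^ 2 := by gcongr
    have h2 : A ^ 3 = A * A ^ 2 := by ring
    linarith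
  have hτA : (τ : ℝ) ≤ A ^ 2 := by
    refine hτc.trans (le_trans ?_ hpq)
    exact mul_le_of_le_one_left (by positivity) hc1
  set K := p * q * τ with hK
  have hKA : (K : ℝ) ≤ A ^ 4 := by
    rw [hK]; push_cast
    calc (p * q * τ : ℝ) ≤ A ^ 2 * A ^ 2 := by gcongr
      _ = A ^ 4 := by ring
  have hA4N : A ^ 4 ≤ N := hAle 4 (by rw [hδ]; push_cast; linarith)
  have hKN : K ≤ N := by
    have : (K : ℝ) ≤ N := hKA.trans hA4N
    exact_mod_cast this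
  -- the parameter `I`
  set I := ⌈4 * (τ : ℝ) / ε⌉₊ with hI
  have hI1 : 4 * (τ : ℝ) ≤ ε * I := by
    have := Nat.le_ceil (4 * (τ : ℝ) / ε)
    rw [div_le_iff₀ hε] at this
    linarith
  have hIA : (I : ℝ) ≤ A ^ 3 := by
    have h1 : (I : ℝ) < 4 * (τ : ℝ) / ε + 1 := Nat.ceil_lt_add_one (by positivity)
    have h2 : 4 * (τ : ℝ) / ε ≤ (4 / 100) * A ^ 3 := by
      rw [div_le_iff₀ hε]
      have : (4 / 100) * A ^ 3 * ε = (4 / 100) * (ε * A) * A ^ 2 := by ring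
      rw [this]
      have h5 : (4 / 100) * 100 * A ^ 2 ≤ (4 / 100) * (ε * A) * A ^ 2 := by gcongr
      linarith
    linarith
  have hIpos : 1 ≤ I := by
    have : (0 : ℝ) < I := by
      by_contra hcon
      push Not at hcon
      have : ε * I ≤ 0 := mul_nonpos_of_nonneg_of_nonpos hε.le hcon
      linarith
    have : 0 < I := by exact_mod_cast this
    omega
  have h2IN : 2 * I ≤ N := by
    have : ((2 * I : ℕ) : ℝ) ≤ N := by
      push_cast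
      linarith
    exact_mod_cast this
  -- the parameter `M`
  set M := Nat.sqrt K with hMdef
  have hMK : M ^ 2 ≤ K := by rw [sq]; exact Nat.sqrt_le K
  have hKτ : (400 / ε * τ) ^ 2 ≤ K := by
    have h1 : (τ : ℝ) ^ 2 ≤ c * K := by
      rw [hK]; push_cast
      calc (τ : ℝ) ^ 2 = τ * τ := sq _
        _ ≤ c * (p * q) * τ := by gcongr
        _ = c * (p * q * τ) := by ring
    rw [hc] at h1
    have h2 : (400 / ε * τ) ^ 2 = (400 / ε) ^ 2 * (τ : ℝ) ^ 2 := by ring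
    rw [h2]
    calc (400 / ε) ^ 2 * (τ : ℝ) ^ 2 ≤ (400 / ε) ^ 2 * ((ε / 400) ^ 2 * (K : ℝ)) := by gcongr
      _ = (K : ℝ) := by field_simp
  have hM1 : 400 / ε * τ < M + 1 := by
    have h1 : K < (M + 1) ^ 2 := by rw [sq]; exact Nat.lt_succ_sqrt K
    have h2 : (K : ℝ) < ((M : ℝ) + 1) ^ 2 := by exact_mod_cast h1
    exact lt_of_pow_lt_pow_left₀ 2 (by positivity) (hKτ.trans_lt h2)
  have hτε : 4 ≤ (τ : ℝ) / ε := by
    rw [le_div_iff₀ hε]; linarith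
  have hM1' : 400 * ((τ : ℝ) / ε) < M + 1 := by
    have : 400 / ε * (τ : ℝ) = 400 * ((τ : ℝ) / ε) := by ring
    rw [← this]; exact hM1
  have hM2 : 2 ≤ M := by
    have : (2 : ℝ) ≤ M := by linarith
    exact_mod_cast this
  have haM : 9 * (τ : ℝ) ≤ ε / 40 * M := by
    have h1 : 399 * ((τ : ℝ) / ε) ≤ M := by linarith
    have h2 : ε / 40 * (399 * ((τ : ℝ) / ε)) ≤ ε / 40 * M := by gcongr
    have h3 : ε / 40 * (399 * ((τ : ℝ) / ε)) = 399 / 40 * τ := by field_simp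
    rw [h3] at h2
    linarith
  have hK1 : 1 ≤ K := by
    rw [hK]
    have : 0 < p * q * τ := by positivity
    omega
  -- the two sets of primes
  obtain ⟨LL₁, hLL₁, hcard₁⟩ := hN₁ N hNN₁
  obtain ⟨LL₂, hLL₂, hcard₂⟩ := hN₂ N hNN₂
  set n₁ := ⌈40 * ((τ : ℝ) + 1) / ε⌉₊ with hn₁
  have hn₁ge : 40 * ((τ : ℝ) + 1) ≤ ε * n₁ := by
    have := Nat.le_ceil (40 * ((τ : ℝ) + 1) / ε)
    rw [div_le_iff₀ hε] at this
    linarith
  have hn₁A : (n₁ : ℝ) + 1 ≤ A ^ 3 := by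
    have h1 : (n₁ : ℝ) < 40 * ((τ : ℝ) + 1) / ε + 1 := Nat.ceil_lt_add_one (by positivity)
    have h2 : 40 * ((τ : ℝ) + 1) / ε ≤ (40 / 100) * (A * (A ^ 2 + 1)) := by
      rw [div_le_iff₀ hε]
      have : (40 / 100) * (A * (A ^ 2 + 1)) * ε = (40 / 100) * (ε * A) * (A ^ 2 + 1) := by ring
      rw [this]
      have h5 : (40 / 100) * 100 * (A ^ 2 + 1) ≤ (40 / 100) * (ε * A) * (A ^ 2 + 1) := by gcongr
      linarith
    have h6 : A * (A ^ 2 + 1) = A ^ 3 + A := by ring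
    rw [h6] at h2
    linarith
  have hn₁card : n₁ + 1 ≤ LL₁.card := by
    have : ((n₁ + 1 : ℕ) : ℝ) ≤ LL₁.card := by
      push_cast
      refine hn₁A.trans (le_trans ?_ hcard₁)
      rw [hApow]
      apply Real.rpow_le_rpow_of_exponent_le hNR.le
      rw [hδ]; push_cast; linarith
    exact_mod_cast this
  obtain ⟨S₁, hS₁, hS₁c⟩ := Finset.exists_subset_card_eq hn₁card
  set n₂ := 24 * (p * τ * K) + 1 with hn₂
  have hn₂A : (n₂ : ℝ) ≤ A ^ 8 := by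
    rw [hn₂]; push_cast
    have h1 : (p * τ * K : ℝ) ≤ A ^ 7 := by
      calc (p * τ * K : ℝ) ≤ A * A ^ 2 * A ^ 4 := by gcongr
        _ = A ^ 7 := by ring
    have h2 : (1 : ℝ) ≤ A ^ 7 := one_le_pow₀ (by linarith)
    have h3 : A ^ 8 = A * A ^ 7 := by ring
    have h4 : 25 * A ^ 7 ≤ A * A ^ 7 := by gcongr
    linarith
  have hn₂card : n₂ ≤ LL₂.card := by
    have : (n₂ : ℝ) ≤ LL₂.card := by
      refine hn₂A.trans (le_trans ?_ hcard₂)
      rw [hApow]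
      apply Real.rpow_le_rpow_of_exponent_le hNR.le
      rw [hδ]; push_cast; linarith
    exact_mod_cast this
  obtain ⟨S₂, hS₂, hS₂c⟩ := Finset.exists_subset_card_eq hn₂card
  set L₁ := ⌊(N : ℝ) ^ (ε / 20)⌋₊ with hL₁
  set L₂ := ⌊(N : ℝ) ^ (1 / 2 + ε / 2)⌋₊ with hL₂
  have hA3 : A ^ 3 ≤ N := hAle 3 (by rw [hδ]; push_cast; linarith)
  have hb1 : 2 * p * q ≤ N := by
    have : ((2 * p * q : ℕ) : ℝ) ≤ N := by
      push_cast
      have h1 : (2 * p * q : ℝ) = 2 * (p * q) := by ring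
      rw [h1]
      linarith
    exact_mod_cast this
  have hb2 : 2 * q * τ ≤ N := by
    have : ((2 * q * τ : ℕ) : ℝ) ≤ N := by
      push_cast
      have h1 : (q * τ : ℝ) ≤ A * A ^ 2 := by gcongr
      have h2 : A * A ^ 2 = A ^ 3 := by ring
      have h3 : (2 * q * τ : ℝ) = 2 * (q * τ) := by ring
      rw [h3]
      linarith
    exact_mod_cast this
  have hpN' : p ≤ N := by
    calc p ≤ p * (2 * q) := Nat.le_mul_of_pos_right _ (by omega)
      _ = 2 * p * q := by ring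
      _ ≤ N := hb1
  have hmain := hM p q r s₁ s₂ hE τ N M I L₁ L₂ S₁ S₂ hrτ (by omega) hIpos
    (fun ℓ hℓ => by
      obtain ⟨h1, h2, h3⟩ := hLL₁ ℓ (hS₁ hℓ)
      exact ⟨h1, Nat.le_floor h3, cond1 hN2 (by positivity) h2 hKN hK1 hτ2 hM2 hMK haM⟩)
    (fun ℓ hℓ => by
      obtain ⟨h1, h2, h3⟩ := hLL₂ ℓ (hS₂ hℓ)
      exact ⟨h1, Nat.le_floor h3, cond2 hN2 hε hε2 h2 h2IN hIpos hτ2 hI1⟩)
    (by
      refine lt_of_le_of_lt (b := N ^ (τ + 1)) ?_ (prod_ge hN2 (a := ε / 40)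
        (fun ℓ hℓ => (hLL₁ ℓ (hS₁ hℓ)).2.1) ?_)
      · rw [pow_succ, mul_comm]
        exact Nat.mul_le_mul_left _ hpN'
      · rw [hS₁c]; push_cast
        have h7 : ε / 40 * ((n₁ : ℝ) + 1) = ε * n₁ / 40 + ε / 40 := by ring
        rw [h7]
        linarith)
    (by
      refine lt_of_le_of_lt (b := N ^ (E₁ p q τ + 1 + τ)) ?_ (prod_ge hN2 (a := 1 / 2)
        (fun ℓ hℓ => le_trans ?_ (hLL₂ ℓ (hS₂ hℓ)).2.1) ?_)
      · rw [pow_add, pow_add, pow_one]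
        have := eB_le hp hq hτ2 hN2 hb1 hb2 hKN
        gcongr
      · exact Real.rpow_le_rpow_of_exponent_le hNR.le (by linarith)
      · rw [hS₂c, hn₂]
        have h1 : ((E₁ p q τ + 1 + τ : ℕ) : ℝ) ≤ ((12 * (p * τ * K) : ℕ) : ℝ) := by
          exact_mod_cast E₁_le hp hq hτ2
        push_cast at h1 ⊢
        linarith)
  -- the final numerical bound
  intro Z hZ
  refine (hmain Z hZ).trans (Nat.le_floor ?_)
  rw [hS₁c, hS₂c]
  push_cast
  have hL₁' : (L₁ : ℝ) ≤ (N : ℝ) ^ (ε / 20) := Nat.floor_le (by positivity)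
  have hL₂' : (L₂ : ℝ) ≤ (N : ℝ) ^ (1 / 2 + ε / 2) := Nat.floor_le (by positivity)
  set X₁ : ℝ := (N : ℝ) ^ (ε / 20) with hX₁
  set X₂ : ℝ := (N : ℝ) ^ (1 / 2 + ε / 2) with hX₂
  have hX₂1 : 1 ≤ X₂ := Real.one_le_rpow hNR.le (by positivity)
  have hX₁0 : 0 < X₁ := by positivity
  have e1 : (2 : ℝ) * p * τ ≤ A ^ 19 * X₂ := by
    have h1 : (2 : ℝ) * p * τ ≤ 2 * A * A ^ 2 := by gcongr
    have h2 : 2 * A * A ^ 2 ≤ A ^ 4 := by
      have : 2 * A * A ^ 2 = 2 * A ^ 3 := by ring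
      linarith [pow_pos hA0 3]
    have h3 : A ^ 4 ≤ A ^ 19 := pow_le_pow_right₀ (by linarith) (by norm_num)
    have h4 : A ^ 19 ≤ A ^ 19 * X₂ := le_mul_of_one_le_right (by positivity) hX₂1
    linarith
  have e2 : (2 : ℝ) * p * q * (n₂ * (p * ((2 * p * q + 2 * p * τ) * L₂) *
      (r + (p + q) * I))) ≤ A ^ 19 * X₂ := by
    have h1 : (2 * p * q + 2 * p * τ : ℝ) ≤ 4 * A ^ 3 := by
      have h2 : (p * q : ℝ) ≤ A ^ 3 := hpq.trans (pow_le_pow_right₀ (by linarith) (by norm_num))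
      have h3 : (p * τ : ℝ) ≤ A ^ 3 := by
        calc (p * τ : ℝ) ≤ A * A ^ 2 := by gcongr
          _ = A ^ 3 := by ring
      linarith
    have h4 : (r + (p + q) * I : ℝ) ≤ 3 * A ^ 4 := by
      have h5 : (r : ℝ) ≤ A ^ 4 :=
        (hrτ'.trans hτA).trans (pow_le_pow_right₀ (by linarith) (by norm_num))
      have h6 : ((p + q) * I : ℝ) ≤ (A + A) * A ^ 3 := by gcongr
      have h7 : (A + A) * A ^ 3 = 2 * A ^ 4 := by ring
      linarith
    have h24 : (24 : ℝ) ≤ A := by linarith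
    calc (2 : ℝ) * p * q * (n₂ * (p * ((2 * p * q + 2 * p * τ) * L₂) * (r + (p + q) * I)))
        = 2 * (p * q) * (n₂ * (p * ((2 * p * q + 2 * p * τ) * L₂) * (r + (p + q) * I))) := by ring
      _ ≤ 2 * A ^ 2 * (A ^ 8 * (A * ((4 * A ^ 3) * X₂) * (3 * A ^ 4))) := by gcongr
      _ = 24 * A ^ 18 * X₂ := by ring
      _ ≤ A * A ^ 18 * X₂ := by gcongr
      _ = A ^ 19 * X₂ := by ring
  have e3 : ((n₁ : ℝ) + 1) * (L₁ ^ 3 * (2 * p * τ + 2 * p * q * (n₂ * (p * ((2 * p * q +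
      2 * p * τ) * L₂) * (r + (p + q) * I))))) ≤ A ^ 3 * (X₁ ^ 3 * (A ^ 20 * X₂)) := by
    have h1 : (2 : ℝ) * p * τ + 2 * p * q * (n₂ * (p * ((2 * p * q +
      2 * p * τ) * L₂) * (r + (p + q) * I))) ≤ A ^ 20 * X₂ := by
      have : A ^ 20 * X₂ = A * (A ^ 19 * X₂) := by ring
      rw [this]
      have h2 : 2 * (A ^ 19 * X₂) ≤ A * (A ^ 19 * X₂) := by gcongr; linarith
      linarith
    gcongr
  refine e3.trans ?_
  have e4 : A ^ 3 * (X₁ ^ 3 * (A ^ 20 * X₂)) = A ^ 23 * X₁ ^ 3 * X₂ := by ring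
  rw [e4, hApow, hX₁, hX₂, ← Real.rpow_natCast ((N : ℝ) ^ (ε / 20)), ← Real.rpow_mul (by positivity),
    ← Real.rpow_add (by linarith), ← Real.rpow_add (by linarith)]
  apply Real.rpow_le_rpow_of_exponent_le hNR.le
  rw [hδ]
  push_cast
  linarith

end Pool.Agent.Lib.MP_509488_nt.Surf
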