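import Pool.Agent.Lib.MP_509488_nt.Surf.Stmts

/-! Module (C): Newton iteration with polynomial parameters. -/

namespace Pool.Agent.Lib.MP_509488_nt.Surf

open Finset Polynomial

namespace HenselAux

/-- Congruent arguments give congruent values of a polynomial in several variables. -/
lemma eval_congr {m : ℕ} {N : ℤ} {a b : Fin m → ℤ} (h : ∀ j, N ∣ a j - b j)
    (f : MvPolynomial (Fin m) ℤ) : N ∣ MvPolynomial.eval a f - MvPolynomial.eval b f := by
  induction f using MvPolynomial.induction_on with
  | C c => simp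
  | add f g hf hg =>
    have : MvPolynomial.eval a (f + g) - MvPolynomial.eval b (f + g) =
        (MvPolynomial.eval a f - MvPolynomial.eval b f) +
          (MvPolynomial.eval a g - MvPolynomial.eval b g) := by
      simp only [map_add]
      ring
    rw [this]
    exact dvd_add hf hg
  | mul_X f j hf =>
    have : MvPolynomial.eval a (f * MvPolynomial.X j) - MvPolynomial.eval b (f * MvPolynomial.X j) =
        (MvPolynomial.eval a f - MvPolynomial.eval b f) * a j +
          MvPolynomial.eval b f * (a j - b j) := by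
      simp only [map_mul, MvPolynomial.eval_X]
      ring
    rw [this]
    exact dvd_add (Dvd.dvd.mul_right hf _) (Dvd.dvd.mul_left (h j) _)

lemma eval_congr2 {m : ℕ} {N : ℤ} {a b : Fin m → ℤ} (h : ∀ j, N ∣ a j - b j)
    (g : Polynomial (MvPolynomial (Fin m) ℤ)) (w : ℤ) :
    N ∣ (g.map (MvPolynomial.eval a)).eval w - (g.map (MvPolynomial.eval b)).eval w := by
  rw [Polynomial.eval_map, Polynomial.eval_map, Polynomial.eval₂_eq_sum_range,
    Polynomial.eval₂_eq_sum_range, ← Finset.sum_sub_distrib]
  apply Finset.dvd_sum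
  intro i _
  rw [← sub_mul]
  exact Dvd.dvd.mul_right (eval_congr h _) _

end HenselAux

open HenselAux in
theorem stHensel : StHensel := by
  intro d m ℓ n g ι v θ t Θ v₀ u hθ hg hv hu
  suffices H : ∀ k : ℕ, 1 ≤ k → k ≤ n → ∃ V : MvPolynomial (Fin d) ℤ,
      ∀ i, (ℓ : ℤ) ^ k ∣ v i - MvPolynomial.eval (fun k => (ℓ : ℤ) * t i k) V by
    rcases Nat.eq_zero_or_pos n with h0 | h0
    · subst h0
      exact ⟨0, fun i => by simp⟩
    · exact H n h0 le_rfl
  intro k hk
  induction k, hk using Nat.le_induction with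
  | base =>
    intro _
    refine ⟨MvPolynomial.C v₀, fun i => ?_⟩
    simpa using hv i
  | succ k hk ih =>
    intro hkn
    obtain ⟨V, hV⟩ := ih (by omega)
    set gΘ : Polynomial (MvPolynomial (Fin d) ℤ) :=
      g.map (MvPolynomial.bind₁ Θ : MvPolynomial (Fin m) ℤ →ₐ[ℤ] MvPolynomial (Fin d) ℤ).toRingHom
      with hgΘ
    refine ⟨V - MvPolynomial.C u * gΘ.eval V, fun i => ?_⟩
    set ev : MvPolynomial (Fin d) ℤ →+* ℤ := MvPolynomial.eval (fun k => (ℓ : ℤ) * t i k) with hev
    set G : Polynomial ℤ := g.map (MvPolynomial.eval (θ i)) with hG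
    have h1 : ev (gΘ.eval V) =
        (g.map (MvPolynomial.eval (fun j => ev (Θ j)))).eval (ev V) := by
      rw [← Polynomial.eval₂_hom, ← Polynomial.eval_map, hgΘ, Polynomial.map_map]
      congr 2
      ext x
      · simp [hev]
      · simp [hev]
    have h2 : (ℓ : ℤ) ^ n ∣ ev (gΘ.eval V) - G.eval (ev V) := by
      rw [h1, hG]
      apply eval_congr2
      intro j
      exact dvd_sub_comm.1 (hθ i j)
    obtain ⟨e, he⟩ : ∃ e, e = ev V - v i := ⟨_, rfl⟩
    have heV : ev V = v i + e := by rw [he]; ring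
    have hek : (ℓ : ℤ) ^ k ∣ e := by
      rw [he]
      exact dvd_sub_comm.1 (hV i)
    obtain ⟨c, hc⟩ := Polynomial.binomExpansion G (v i) e
    rw [← heV] at hc
    have hg0 : G.eval (v i) = 0 := hg i
    have hder : (derivative g).map (MvPolynomial.eval (θ i)) = derivative G := by
      rw [hG, Polynomial.derivative_map]
    have hui := hu i
    rw [hder] at hui
    rw [hg0, zero_add] at hc
    have h3 : v i - ev (V - MvPolynomial.C u * gΘ.eval V) =
        e * (u * (derivative G).eval (v i) - 1) + u * c * e ^ 2 +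
          u * (ev (gΘ.eval V) - G.eval (ev V)) := by
      rw [map_sub, map_mul, hc]
      have : ev (MvPolynomial.C u) = u := by simp [hev]
      rw [this, heV]
      ring
    rw [h3]
    refine dvd_add (dvd_add ?_ ?_) ?_
    · rw [pow_succ]
      exact mul_dvd_mul hek hui
    · apply Dvd.dvd.mul_left
      have : (ℓ : ℤ) ^ (k + 1) ∣ ((ℓ : ℤ) ^ k) ^ 2 := by
        rw [← pow_mul]
        exact pow_dvd_pow _ (by omega)
      exact this.trans (pow_dvd_pow_of_dvd hek 2)
    · exact Dvd.dvd.mul_left ((pow_dvd_pow _ hkn).trans h2) _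

end Pool.Agent.Lib.MP_509488_nt.Surf
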