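import Pool.Agent.Lib.MP_509488_nt.Surf.LocSurf

/-! Module (E): points of a curve on the surface in one residue class are one-dimensional. -/

namespace Pool.Agent.Lib.MP_509488_nt.Surf

open Finset Polynomial

namespace LocAux

/-- A polynomial in one variable as a polynomial in `Fin 1` variables. -/
noncomputable def toMv : Polynomial ℤ →+* MvPolynomial (Fin 1) ℤ :=
  Polynomial.eval₂RingHom MvPolynomial.C (MvPolynomial.X 0)

lemma eval_toMv (θ : Fin 1 → ℤ) (f : Polynomial ℤ) :
    MvPolynomial.eval θ (toMv f) = f.eval (θ 0) := by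
  have : (MvPolynomial.eval θ).comp toMv = Polynomial.evalRingHom (θ 0) := by
    apply Polynomial.ringHom_ext
    · intro a
      simp [toMv]
    · simp [toMv]
  exact congrArg (fun F : Polynomial ℤ →+* ℤ => F f) this

lemma eval_gy (H : Polynomial (Polynomial ℤ)) (θ : Fin 1 → ℤ) (y : ℤ) :
    ((H.map toMv).map (MvPolynomial.eval θ)).eval y = evalEval (θ 0) y H := by
  rw [Polynomial.map_map]
  have : (MvPolynomial.eval θ).comp toMv = Polynomial.evalRingHom (θ 0) := by
    apply RingHom.ext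
    intro f
    exact eval_toMv θ f
  rw [this, Polynomial.map_evalRingHom_eval]

lemma evalEval_congr {N : ℤ} {z z' y y' : ℤ} (hz : N ∣ z - z') (hy : N ∣ y - y')
    (H : Polynomial (Polynomial ℤ)) : N ∣ evalEval z y H - evalEval z' y' H := by
  have h1 : N ∣ evalEval z y H - evalEval z y' H := by
    rw [← Polynomial.map_evalRingHom_eval, ← Polynomial.map_evalRingHom_eval]
    exact hy.trans (Polynomial.sub_dvd_eval_sub _ _ _)
  have h2 : N ∣ evalEval z y' H - evalEval z' y' H := by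
    unfold evalEval
    exact hz.trans (Polynomial.sub_dvd_eval_sub _ _ _)
  have h3 : evalEval z y H - evalEval z' y' H =
      (evalEval z y H - evalEval z y' H) + (evalEval z y' H - evalEval z' y' H) := by ring
  rw [h3]
  exact dvd_add h1 h2

end LocAux

open LocAux in
theorem stLocCurve (h : StHensel) : StLocCurve := by
  intro ℓ p q r s₁ s₂ S P₀ H hℓ hE hP hp hH n
  choose w hw using fun (P : S) (i : Fin 3) => hP P.1 P.2 i
  set t : S → Fin 1 → ℤ := fun P => ![w P 2] with ht
  set Φ₂ : MvPolynomial (Fin 1) ℤ := MvPolynomial.C (P₀ 2) + MvPolynomial.X 0 with hΦ₂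
  have h₂ : ∀ P : S, (ℓ : ℤ) ^ n ∣ P.1 2 -
      MvPolynomial.eval (fun k => (ℓ : ℤ) * t P k) Φ₂ := by
    intro P
    have h2 : P.1 2 - MvPolynomial.eval (fun k => (ℓ : ℤ) * t P k) Φ₂ = 0 := by
      simp only [hΦ₂, map_add, MvPolynomial.eval_C, MvPolynomial.eval_X, ht,
        Matrix.cons_val_fin_one]
      linear_combination hw P 2
    rw [h2]
    exact dvd_zero _
  obtain ⟨u, hu⟩ := inv_exists hℓ hH
  obtain ⟨Φ₁, h₁⟩ := h 1 1 ℓ n (H.map toMv) S (fun P => P.1 1) (fun P => ![P.1 2]) t ![Φ₂]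
    (P₀ 1) u (by
      intro P j
      fin_cases j
      exact h₂ P) (by
      intro P
      rw [eval_gy]
      exact (hE P.1 P.2).2) (fun P => hP P.1 P.2 1) (by
      intro P
      rw [Polynomial.derivative_map, eval_gy]
      have h3 := evalEval_congr (hP P.1 P.2 2) (hP P.1 P.2 1) (derivative H)
      have h4 : u * evalEval (![P.1 2] 0) (P.1 1) (derivative H) - 1 =
          (u * evalEval (P₀ 2) (P₀ 1) (derivative H) - 1) +
          u * (evalEval (P.1 2) (P.1 1) (derivative H) -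
            evalEval (P₀ 2) (P₀ 1) (derivative H)) := by
        rw [Matrix.cons_val_fin_one]
        ring
      rw [h4]
      exact dvd_add hu (Dvd.dvd.mul_left h3 _))
  obtain ⟨Φ₀, h₀⟩ := exists_x (n := n) h hℓ (fun P hPS => (hE P hPS).1)
    (fun P hPS => hP P hPS 0) hp t Φ₁ Φ₂ h₁ h₂
  refine ⟨![Φ₀, Φ₁, Φ₂], fun P hPS => ⟨t ⟨P, hPS⟩, fun i => ?_⟩⟩
  fin_cases i
  · exact h₀ ⟨P, hPS⟩
  · exact h₁ ⟨P, hPS⟩
  · exact h₂ ⟨P, hPS⟩

end Pool.Agent.Lib.MP_509488_nt.Surf
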