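import Pool.Agent.Lib.MP_509488_nt.Surf.Stmts

/-! Module (D): points of the surface in one residue class are two-dimensional. -/

namespace Pool.Agent.Lib.MP_509488_nt.Surf

open Finset Polynomial

namespace LocAux

/-- The polynomial `X ^ p - (s₁ z ^ r + s₂ y ^ q)`, with the parameters `(y, z)`. -/
noncomputable def gx (p q r : ℕ) (s₁ s₂ : ℤ) : Polynomial (MvPolynomial (Fin 2) ℤ) :=
  X ^ p - Polynomial.C (MvPolynomial.C s₁ * MvPolynomial.X 1 ^ r +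
    MvPolynomial.C s₂ * MvPolynomial.X 0 ^ q)

lemma gx_eval (p q r : ℕ) (s₁ s₂ : ℤ) (θ : Fin 2 → ℤ) (x : ℤ) :
    ((gx p q r s₁ s₂).map (MvPolynomial.eval θ)).eval x =
      x ^ p - (s₁ * θ 1 ^ r + s₂ * θ 0 ^ q) := by
  simp [gx]

lemma gx_der (p q r : ℕ) (s₁ s₂ : ℤ) (θ : Fin 2 → ℤ) (x : ℤ) :
    ((derivative (gx p q r s₁ s₂)).map (MvPolynomial.eval θ)).eval x = p * x ^ (p - 1) := by
  rw [gx, Polynomial.derivative_sub, Polynomial.derivative_C, sub_zero,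
    Polynomial.derivative_X_pow]
  simp

lemma inv_exists {ℓ : ℕ} (hℓ : ℓ.Prime) {a : ℤ} (ha : ¬ (ℓ : ℤ) ∣ a) :
    ∃ u : ℤ, (ℓ : ℤ) ∣ u * a - 1 := by
  have hp : Prime (ℓ : ℤ) := Nat.prime_iff_prime_int.1 hℓ
  have hc : IsCoprime (ℓ : ℤ) a := (hp.coprime_iff_not_dvd).2 ha
  obtain ⟨x, y, hxy⟩ := hc
  exact ⟨y, -x, by linear_combination hxy⟩

lemma dvd_pow_sub {N a b : ℤ} (h : N ∣ a - b) (k : ℕ) : N ∣ a ^ k - b ^ k :=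
  h.trans (sub_dvd_pow_sub_pow a b k)

/-- The first coordinate by Newton iteration. -/
lemma exists_x (h : StHensel) {d ℓ p q r n : ℕ} {s₁ s₂ : ℤ} {S : Set Pt} {P₀ : Pt}
    (hℓ : ℓ.Prime) (hE : ∀ P ∈ S, Eqn p q r s₁ s₂ P) (hx : ∀ P ∈ S, (ℓ : ℤ) ∣ P 0 - P₀ 0)
    (hp : ¬ (ℓ : ℤ) ∣ p * P₀ 0) (t : S → Fin d → ℤ) (Φ₁ Φ₂ : MvPolynomial (Fin d) ℤ)
    (h₁ : ∀ P : S, (ℓ : ℤ) ^ n ∣ P.1 1 - MvPolynomial.eval (fun k => (ℓ : ℤ) * t P k) Φ₁)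
    (h₂ : ∀ P : S, (ℓ : ℤ) ^ n ∣ P.1 2 - MvPolynomial.eval (fun k => (ℓ : ℤ) * t P k) Φ₂) :
    ∃ Φ₀ : MvPolynomial (Fin d) ℤ, ∀ P : S,
      (ℓ : ℤ) ^ n ∣ P.1 0 - MvPolynomial.eval (fun k => (ℓ : ℤ) * t P k) Φ₀ := by
  have hpr : Prime (ℓ : ℤ) := Nat.prime_iff_prime_int.1 hℓ
  have hnd : ¬ (ℓ : ℤ) ∣ p * P₀ 0 ^ (p - 1) := by
    intro hd
    rcases hpr.dvd_or_dvd hd with h1 | h1
    · exact hp (Dvd.dvd.mul_right h1 _)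
    · exact hp (Dvd.dvd.mul_left (hpr.dvd_of_dvd_pow h1) _)
  obtain ⟨u, hu⟩ := inv_exists hℓ hnd
  refine h d 2 ℓ n (gx p q r s₁ s₂) S (fun P => P.1 0) (fun P => ![P.1 1, P.1 2]) t ![Φ₁, Φ₂]
    (P₀ 0) u ?_ ?_ ?_ ?_
  · intro P j
    fin_cases j
    · exact h₁ P
    · exact h₂ P
  · intro P
    rw [gx_eval]
    have := hE P.1 P.2
    unfold Eqn at this
    simp [this]
  · intro P
    exact hx P.1 P.2
  · intro P
    rw [gx_der]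
    have h3 := dvd_pow_sub (hx P.1 P.2) (p - 1)
    have h4 : u * (p * P.1 0 ^ (p - 1)) - 1 = (u * (p * P₀ 0 ^ (p - 1)) - 1) +
        u * p * (P.1 0 ^ (p - 1) - P₀ 0 ^ (p - 1)) := by ring
    rw [h4]
    exact dvd_add hu (Dvd.dvd.mul_left h3 _)

end LocAux

open LocAux in
theorem stLocSurf (h : StHensel) : StLocSurf := by
  intro ℓ p q r s₁ s₂ S P₀ hℓ hE hP hp n
  choose w hw using fun (P : S) (i : Fin 3) => hP P.1 P.2 i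
  set t : S → Fin 2 → ℤ := fun P => ![w P 1, w P 2] with ht
  set Φ₁ : MvPolynomial (Fin 2) ℤ := MvPolynomial.C (P₀ 1) + MvPolynomial.X 0 with hΦ₁
  set Φ₂ : MvPolynomial (Fin 2) ℤ := MvPolynomial.C (P₀ 2) + MvPolynomial.X 1 with hΦ₂
  have h₁ : ∀ P : S, (ℓ : ℤ) ^ n ∣ P.1 1 -
      MvPolynomial.eval (fun k => (ℓ : ℤ) * t P k) Φ₁ := by
    intro P
    have h2 : P.1 1 - MvPolynomial.eval (fun k => (ℓ : ℤ) * t P k) Φ₁ = 0 := by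
      simp only [hΦ₁, map_add, MvPolynomial.eval_C, MvPolynomial.eval_X, ht,
        Matrix.cons_val_zero]
      linear_combination hw P 1
    rw [h2]
    exact dvd_zero _
  have h₂ : ∀ P : S, (ℓ : ℤ) ^ n ∣ P.1 2 -
      MvPolynomial.eval (fun k => (ℓ : ℤ) * t P k) Φ₂ := by
    intro P
    have h2 : P.1 2 - MvPolynomial.eval (fun k => (ℓ : ℤ) * t P k) Φ₂ = 0 := by
      simp only [hΦ₂, map_add, MvPolynomial.eval_C, MvPolynomial.eval_X, ht,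
        Matrix.cons_val_one, Matrix.cons_val_fin_one]
      linear_combination hw P 2
    rw [h2]
    exact dvd_zero _
  obtain ⟨Φ₀, h₀⟩ := exists_x (n := n) h hℓ hE (fun P hPS => hP P hPS 0) hp t Φ₁ Φ₂ h₁ h₂
  refine ⟨![Φ₀, Φ₁, Φ₂], fun P hPS => ⟨t ⟨P, hPS⟩, fun i => ?_⟩⟩
  fin_cases i
  · exact h₀ ⟨P, hPS⟩
  · exact h₁ ⟨P, hPS⟩
  · exact h₂ ⟨P, hPS⟩

end Pool.Agent.Lib.MP_509488_nt.Surf
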