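import Pool.Agent.Lib.MP_509488_nt.Surf.Stmts

/-!
# Almost all bases: the union over all exponents
-/

namespace Pool.Agent.Lib.MP_509488_nt.Surf

open Finset

namespace MainAux

/-- `n` is the third coordinate of a solution with exponents `p, q, r`, signs `s₁, s₂`. -/
def Q (c₁ δ : ℝ) (N : ℕ) (j : ℕ × ℕ × ℕ × ℤ × ℤ) (n : ℕ) : Prop :=
  Exps j.1 j.2.1 j.2.2.1 j.2.2.2.1 j.2.2.2.2 ∧ j.2.2.1 ≤ ⌊c₁ * (j.1 * j.2.1 : ℝ)⌋₊ ∧
    (j.1 : ℝ) ≤ (N : ℝ) ^ δ ∧ (j.2.1 : ℝ) ≤ (N : ℝ) ^ δ ∧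
    ∃ P ∈ Sol j.1 j.2.1 j.2.2.1 ⌊c₁ * (j.1 * j.2.1 : ℝ)⌋₊ N j.2.2.2.1 j.2.2.2.2, P 2 = (n : ℤ)

open scoped Classical in
lemma card_Q {c₁ δ : ℝ} {N b : ℕ} (h1 : 0 < c₁)
    (h : ∀ (p q r τ : ℕ) (s₁ s₂ : ℤ), Exps p q r s₁ s₂ → r ≤ τ →
      (τ : ℝ) ≤ c₁ * (p * q) → (p : ℝ) ≤ (N : ℝ) ^ δ → (q : ℝ) ≤ (N : ℝ) ^ δ →
      ZB (Sol p q r τ N s₁ s₂) b) (j : ℕ × ℕ × ℕ × ℤ × ℤ) :
    ((range (N + 1)).filter fun n => Q c₁ δ N j n).card ≤ b := by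
  rcases ((range (N + 1)).filter fun n => Q c₁ δ N j n).eq_empty_or_nonempty with h0 | ⟨n, hn⟩
  · rw [h0]; simp
  · obtain ⟨-, hE, hr, hp, hq, -⟩ := Finset.mem_filter.1 hn
    have hz := h _ _ _ _ _ _ hE hr (Nat.floor_le (by positivity)) hp hq
    have h2 := hz (((range (N + 1)).filter fun n => Q c₁ δ N j n).image fun n : ℕ => (n : ℤ)) (by
      intro z hz
      obtain ⟨m, hm, rfl⟩ := Finset.mem_image.1 hz
      exact (Finset.mem_filter.1 hm).2.2.2.2.2)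
    rwa [Finset.card_image_of_injective _ Nat.cast_injective] at h2

/-- The index set. -/
noncomputable def J (T : ℕ) : Finset (ℕ × ℕ × ℕ × ℤ × ℤ) :=
  range (T + 1) ×ˢ range (T + 1) ×ˢ range (T ^ 2 + 1) ×ˢ ({1, -1} : Finset ℤ) ×ˢ
    ({1, -1} : Finset ℤ)

lemma card_J (T : ℕ) : (J T).card = 4 * ((T + 1) ^ 2 * (T ^ 2 + 1)) := by
  unfold J
  rw [Finset.card_product, Finset.card_product, Finset.card_product, Finset.card_product]
  have : ({1, -1} : Finset ℤ).card = 2 := rfl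
  rw [this]
  simp only [Finset.card_range]
  ring

/-- Common part: a solution gives an index. -/
lemma index {c₁ δ η c : ℝ} {N T n p q r : ℕ} {s₁ s₂ x y : ℤ} (hN : 1 ≤ N) (hc0 : 0 < c)
    (hc1 : c ≤ c₁ / 4) (hc2 : c ≤ 1 / 100) (hηδ : η ≤ δ)
    (hT : T = ⌊(N : ℝ) ^ η⌋₊) (hnN : n ≤ N) (hx : x ≠ 0) (hp : 2 ≤ p) (hq : 2 ≤ q)
    (hr : 2 ≤ r) (hpq : Nat.Coprime p q) (hqr : Nat.Coprime q r) (hpr : Nat.Coprime p r)
    (h1 : s₁ = 1 ∨ s₁ = -1) (h2 : s₂ = 1 ∨ s₂ = -1)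
    (hrc : (r : ℝ) ≤ c * (p * q)) (hpN : (p : ℝ) ≤ (N : ℝ) ^ η) (hqN : (q : ℝ) ≤ (N : ℝ) ^ η)
    (he : s₁ * x ^ p + s₂ * y ^ q = (n : ℤ) ^ r)
    (hxs : |(x : ℝ)| ^ p ≤ (N : ℝ) ^ (c * (p * q))) (hys : |(y : ℝ)| ^ q ≤ (N : ℝ) ^ (c * (p * q))) :
    ∃ j ∈ J T, Q c₁ δ N j n := by
  have hNR : (1 : ℝ) ≤ N := by exact_mod_cast hN
  have hW0 : (0 : ℝ) < p * q := by
    have : (0 : ℝ) < p := by exact_mod_cast (by omega : 0 < p)
    have : (0 : ℝ) < q := by exact_mod_cast (by omega : 0 < q)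
    positivity
  have hr2 : (2 : ℝ) ≤ r := by exact_mod_cast hr
  have hW : (200 : ℝ) ≤ p * q := by nlinarith
  have hWn : 200 ≤ p * q := by exact_mod_cast hW
  have hlt : r < p * q := by
    have : (r : ℝ) < ((p * q : ℕ) : ℝ) := by push_cast; nlinarith
    exact_mod_cast this
  have hcW : c * (p * q) ≤ (⌊c₁ * (p * q : ℝ)⌋₊ : ℝ) := by
    have h3 := Nat.lt_floor_add_one (c₁ * (p * q : ℝ))
    nlinarith
  have hτ : r ≤ ⌊c₁ * (p * q : ℝ)⌋₊ := by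
    have : (r : ℝ) ≤ (⌊c₁ * (p * q : ℝ)⌋₊ : ℝ) := hrc.trans hcW
    exact_mod_cast this
  have hpow : ∀ u : ℤ, ∀ k : ℕ, |(u : ℝ)| ^ k ≤ (N : ℝ) ^ (c * (p * q)) →
      |u| ^ k ≤ (N : ℤ) ^ ⌊c₁ * (p * q : ℝ)⌋₊ := by
    intro u k hu
    have h4 : |(u : ℝ)| ^ k ≤ (N : ℝ) ^ (⌊c₁ * (p * q : ℝ)⌋₊ : ℕ) := by
      refine hu.trans ?_
      rw [← Real.rpow_natCast]
      exact Real.rpow_le_rpow_of_exponent_le hNR hcW
    have h5 : ((|u| ^ k : ℤ) : ℝ) ≤ (((N : ℤ) ^ ⌊c₁ * (p * q : ℝ)⌋₊ : ℤ) : ℝ) := by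
      push_cast
      exact h4
    exact_mod_cast h5
  have hpT : p ≤ T := by rw [hT]; exact Nat.le_floor hpN
  have hqT : q ≤ T := by rw [hT]; exact Nat.le_floor hqN
  have hrT : r ≤ T ^ 2 := by
    have : p * q ≤ T * T := Nat.mul_le_mul hpT hqT
    nlinarith
  have hs : -(s₁ * s₂) = 1 ∨ -(s₁ * s₂) = -1 := by
    rcases h1 with rfl | rfl <;> rcases h2 with rfl | rfl <;> simp
  have h4 : 4 ≤ p ∨ 4 ≤ q := by
    by_contra hcon
    push Not at hcon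
    have : p * q ≤ 3 * 3 := Nat.mul_le_mul (by omega) (by omega)
    omega
  refine ⟨(p, q, r, s₁, -(s₁ * s₂)), ?_, ?_⟩
  · unfold J
    simp only [Finset.mem_product, Finset.mem_range, Finset.mem_insert, Finset.mem_singleton]
    exact ⟨by omega, by omega, by omega, h1, hs⟩
  · refine ⟨⟨hp, hq, hr, hpq, hqr, hpr, h4, hlt, h1, hs⟩, hτ, ?_, ?_, ![x, y, n], ?_, rfl⟩
    · exact hpN.trans (Real.rpow_le_rpow_of_exponent_le hNR hηδ)
    · exact hqN.trans (Real.rpow_le_rpow_of_exponent_le hNR hηδ)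
    · refine ⟨?_, hx, hpow x p hxs, hpow y q hys, ?_⟩
      · change x ^ p = s₁ * (n : ℤ) ^ r + -(s₁ * s₂) * y ^ q
        rw [← he]
        rcases h1 with rfl | rfl <;> ring
      · change |(n : ℤ)| ≤ N
        rw [abs_of_nonneg (by positivity)]
        exact_mod_cast hnN

/-- The two-logarithms bound makes the exponents small. -/
lemma exps_small {C c η : ℝ} {x y n p q r : ℕ} (hC : 0 < C) (hc0 : 0 < c)
    (hc2 : c ≤ 1 / 100) (hη : 0 < η) (hcη : 4 * C * c ≤ η ^ 2)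
    (hx : 2 ≤ x) (hp : 2 ≤ p) (hq : 2 ≤ q) (hr : 2 ≤ r)
    (he : x ^ p + y ^ q = n ^ r) (hrL : (r : ℝ) * Real.log (p * q) ^ 4 ≤ c * (p * q))
    (h : (p * q : ℝ) ≤ C * r * Real.log n ^ 2 * Real.log (p + q + r) ^ 2) :
    (r : ℝ) ≤ c * (p * q) ∧ (p * q : ℝ) ≤ (n : ℝ) ^ η := by
  have hp2 : (2 : ℝ) ≤ p := by exact_mod_cast hp
  have hq2 : (2 : ℝ) ≤ q := by exact_mod_cast hq
  have hr2 : (2 : ℝ) ≤ r := by exact_mod_cast hr
  have hW4 : (4 : ℝ) ≤ p * q := by nlinarith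
  set Λ := Real.log (p * q : ℝ) with hΛ
  have hΛ1 : 1 ≤ Λ := by
    rw [hΛ, Real.le_log_iff_exp_le (by linarith)]
    linarith [Real.exp_one_lt_d9]
  have hΛ4 : 1 ≤ Λ ^ 4 := one_le_pow₀ hΛ1
  have h1 : (r : ℝ) ≤ c * (p * q) := by nlinarith
  refine ⟨h1, ?_⟩
  have hn2 : 1 ≤ n := by
    rcases Nat.eq_zero_or_pos n with h0 | h0
    · rw [h0, zero_pow (by omega)] at he
      have : 0 < x ^ p := by positivity
      omega
    · exact h0
  have hnR : (1 : ℝ) ≤ n := by exact_mod_cast hn2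
  have hlog0 : 0 ≤ Real.log n := Real.log_nonneg hnR
  have hsum : Real.log (p + q + r) ≤ 2 * Λ := by
    have h2 : (p + q + r : ℝ) ≤ (p * q : ℝ) ^ 2 := by nlinarith
    calc Real.log (p + q + r) ≤ Real.log ((p * q : ℝ) ^ 2) :=
          Real.log_le_log (by positivity) h2
      _ = 2 * Λ := by rw [Real.log_pow, hΛ]; norm_num
  have hsum0 : 0 ≤ Real.log (p + q + r) := Real.log_nonneg (by linarith)
  have h3 : (p * q : ℝ) ≤ C * r * Real.log n ^ 2 * (2 * Λ) ^ 2 := by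
    refine h.trans ?_
    gcongr
  have h4 : (p * q : ℝ) * Λ ^ 2 ≤ (p * q : ℝ) * (4 * C * c * Real.log n ^ 2) := by
    have h5 : (p * q : ℝ) * Λ ^ 2 ≤ (C * r * Real.log n ^ 2 * (2 * Λ) ^ 2) * Λ ^ 2 := by gcongr
    have h6 : (C * r * Real.log n ^ 2 * (2 * Λ) ^ 2) * Λ ^ 2 =
        4 * C * Real.log n ^ 2 * (r * Λ ^ 4) := by ring
    rw [h6] at h5
    refine h5.trans ?_
    have h7 : 4 * C * Real.log n ^ 2 * (r * Λ ^ 4) ≤ 4 * C * Real.log n ^ 2 * (c * (p * q)) := by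
      gcongr
    refine h7.trans (le_of_eq ?_)
    ring
  have h8 : Λ ^ 2 ≤ 4 * C * c * Real.log n ^ 2 := le_of_mul_le_mul_left h4 (by linarith)
  have h9 : Λ ^ 2 ≤ (η * Real.log n) ^ 2 := by
    refine h8.trans ?_
    rw [mul_pow]
    gcongr
  have h10 : Λ ≤ η * Real.log n := by
    apply le_of_sq_le_sq h9 (by positivity)
  calc (p * q : ℝ) = Real.exp Λ := by rw [hΛ, Real.exp_log (by linarith)]
    _ ≤ Real.exp (η * Real.log n) := Real.exp_le_exp.2 h10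
    _ = (n : ℝ) ^ η := by rw [Real.rpow_def_of_pos (by linarith), mul_comm]

end MainAux

open MainAux

open scoped Classical in
/-- (P) The main theorem. -/
theorem stMain (hN : StFixed) (hO : StTwo) : StMain := by
  intro ε hε
  rcases le_or_gt (1 / 2) ε with hbig | hsmall
  · refine ⟨1, one_pos, 1, fun N hN1 => ?_⟩
    have h1 : ({n : ℕ | 1 ≤ n ∧ n ≤ N ∧ (BadA 1 n ∨ BadB 1 N n)}.ncard : ℝ) ≤ N := by
      have h2 : {n : ℕ | 1 ≤ n ∧ n ≤ N ∧ (BadA 1 n ∨ BadB 1 N n)} ⊆ (Finset.Icc 1 N : Set ℕ) := by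
        intro n hn
        rw [Finset.coe_Icc]
        exact ⟨hn.1, hn.2.1⟩
      have h3 := Set.ncard_le_ncard h2 (Finset.finite_toSet _)
      rw [Set.ncard_coe_finset, Nat.card_Icc, Nat.add_sub_cancel] at h3
      exact_mod_cast h3
    refine h1.trans ?_
    have hNR : (1 : ℝ) ≤ N := by exact_mod_cast hN1
    calc (N : ℝ) = (N : ℝ) ^ (1 : ℝ) := (Real.rpow_one _).symm
      _ ≤ (N : ℝ) ^ (1 / 2 + ε) := Real.rpow_le_rpow_of_exponent_le hNR (by linarith)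
  obtain ⟨c₁, δ, hc₁, hc₁1, hδ, N₁, hfix⟩ := hN (ε / 2) (by linarith) (by linarith)
  obtain ⟨C, hC, htwo⟩ := hO
  set η : ℝ := min δ (ε / 40) with hηdef
  have hη : 0 < η := lt_min hδ (by linarith)
  have hηδ : η ≤ δ := min_le_left _ _
  have hηε : η ≤ ε / 40 := min_le_right _ _
  set c : ℝ := min (min (c₁ / 4) (1 / 100)) (min η (η ^ 2 / (4 * C))) with hcdef
  have hc0 : 0 < c := by
    refine lt_min (lt_min (by linarith) (by norm_num)) (lt_min hη (by positivity))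
  have hcc1 : c ≤ c₁ / 4 := (min_le_left _ _).trans (min_le_left _ _)
  have hc2 : c ≤ 1 / 100 := (min_le_left _ _).trans (min_le_right _ _)
  have hcη' : c ≤ η := (min_le_right _ _).trans (min_le_left _ _)
  have hcη : 4 * C * c ≤ η ^ 2 := by
    have : c ≤ η ^ 2 / (4 * C) := (min_le_right _ _).trans (min_le_right _ _)
    rw [le_div_iff₀ (by positivity)] at this
    linarith
  obtain ⟨N₂, hN₂⟩ : ∃ N₂ : ℕ, ∀ N : ℕ, N₂ ≤ N → (33 : ℝ) ≤ (N : ℝ) ^ (2 / 5 * ε) := by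
    have := (tendsto_rpow_atTop (show 0 < 2 / 5 * ε by positivity)).comp
      tendsto_natCast_atTop_atTop
    exact (Filter.eventually_atTop.1 (this.eventually_ge_atTop 33))
  refine ⟨c, hc0, max (max N₁ N₂) 1, fun N hNN => ?_⟩
  have hN1' : N₁ ≤ N := (le_max_left _ _).trans ((le_max_left _ _).trans hNN)
  have hN2' : N₂ ≤ N := (le_max_right _ _).trans ((le_max_left _ _).trans hNN)
  have hN1 : 1 ≤ N := (le_max_right _ _).trans hNN
  have hNR : (1 : ℝ) ≤ N := by exact_mod_cast hN1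
  set T : ℕ := ⌊(N : ℝ) ^ η⌋₊ with hT
  set b : ℕ := ⌊(N : ℝ) ^ (1 / 2 + ε / 2)⌋₊ with hb
  have hcard := card_Q (b := b) hc₁ (hfix N hN1')
  -- the covering
  have hcov : {n : ℕ | 1 ≤ n ∧ n ≤ N ∧ (BadA c n ∨ BadB c N n)} ⊆
      ((insert 1 ((J T).biUnion fun j => (range (N + 1)).filter fun n => Q c₁ δ N j n) :
        Finset ℕ) : Set ℕ) := by
    rintro n ⟨hn1, hnN, hbad⟩
    rw [Finset.mem_coe, Finset.mem_insert]
    rcases eq_or_ne n 1 with h | hne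
    · exact Or.inl h
    right
    have hn2 : 2 ≤ n := by omega
    have hnR : (1 : ℝ) < n := by exact_mod_cast (by omega : 1 < n)
    have hnNR : (n : ℝ) ≤ N := by exact_mod_cast hnN
    rw [Finset.mem_biUnion]
    suffices h : ∃ j ∈ J T, Q c₁ δ N j n by
      obtain ⟨j, hj, hQ⟩ := h
      exact ⟨j, hj, Finset.mem_filter.2 ⟨Finset.mem_range.2 (by omega), hQ⟩⟩
    rcases hbad with ⟨x, y, p, q, r, hx, hy, hxy, hp, hq, hr, hpq, hqr, hpr, hrL, he⟩ |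
      ⟨x, y, p, q, r, s₁, s₂, hx, hy, hp, hq, hr, hpq, hqr, hpr, hpN, hqN, h1, h2, he, hxs, hys,
        hns⟩
    · obtain ⟨h3, h4⟩ := exps_small hC hc0 hc2 hη hcη hx hp hq hr he hrL
        (htwo x y n p q r hx hy hxy hp hq hr hpq hqr hpr he)
      have h5 : (p * q : ℝ) ≤ (N : ℝ) ^ η :=
        h4.trans (Real.rpow_le_rpow (by linarith) hnNR hη.le)
      have hp1 : (1 : ℝ) ≤ p := by exact_mod_cast (by omega : 1 ≤ p)
      have hq1 : (1 : ℝ) ≤ q := by exact_mod_cast (by omega : 1 ≤ q)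
      have hsz : ∀ u k : ℕ, u ^ k ≤ n ^ r → |((u : ℤ) : ℝ)| ^ k ≤ (N : ℝ) ^ (c * (p * q)) := by
        intro u k hu
        have h6 : (u : ℝ) ^ k ≤ (n : ℝ) ^ r := by exact_mod_cast hu
        rw [Int.cast_natCast, abs_of_nonneg (Nat.cast_nonneg u)]
        calc (u : ℝ) ^ k ≤ (n : ℝ) ^ r := h6
          _ ≤ (N : ℝ) ^ r := by gcongr
          _ = (N : ℝ) ^ (r : ℝ) := (Real.rpow_natCast _ _).symm
          _ ≤ (N : ℝ) ^ (c * (p * q)) := Real.rpow_le_rpow_of_exponent_le hNR h3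
      have he' : (1 : ℤ) * (x : ℤ) ^ p + 1 * (y : ℤ) ^ q = (n : ℤ) ^ r := by
        have h7 : ((x ^ p + y ^ q : ℕ) : ℤ) = ((n ^ r : ℕ) : ℤ) := by rw [he]
        push_cast at h7
        linarith
      refine index (x := x) (y := y) (s₁ := 1) (s₂ := 1) hN1 hc0 hcc1 hc2 hηδ hT hnN
        (by exact_mod_cast (by omega : x ≠ 0)) hp hq hr hpq hqr hpr (Or.inl rfl) (Or.inl rfl) h3
        (le_trans ?_ h5) (le_trans ?_ h5) he'
        (hsz x p (by omega)) (hsz y q (by omega))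
      · exact le_mul_of_one_le_right (by linarith) hq1
      · exact le_mul_of_one_le_left (by linarith) hp1
    · have h3 : (r : ℝ) ≤ c * (p * q) := by
        rw [← Real.rpow_natCast] at hns
        exact (Real.rpow_le_rpow_left_iff hnR).1 hns
      have hmono : (n : ℝ) ^ (c * (p * q : ℝ)) ≤ (N : ℝ) ^ (c * (p * q : ℝ)) :=
        Real.rpow_le_rpow (by linarith) hnNR (by positivity)
      have hcN : (N : ℝ) ^ c ≤ (N : ℝ) ^ η := Real.rpow_le_rpow_of_exponent_le hNR hcη'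
      exact index hN1 hc0 hcc1 hc2 hηδ hT hnN hx hp hq hr hpq hqr hpr h1 h2 h3
        (hpN.trans hcN) (hqN.trans hcN) he (hxs.trans hmono) (hys.trans hmono)
  have h1 := Set.ncard_le_ncard hcov (Finset.finite_toSet _)
  rw [Set.ncard_coe_finset] at h1
  have h2 : (insert 1 ((J T).biUnion fun j => (range (N + 1)).filter fun n => Q c₁ δ N j n) :
      Finset ℕ).card ≤ 1 + 4 * ((T + 1) ^ 2 * (T ^ 2 + 1)) * b := by
    refine (Finset.card_insert_le _ _).trans ?_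
    rw [add_comm]
    gcongr
    refine Finset.card_biUnion_le.trans ?_
    refine (Finset.sum_le_card_nsmul _ _ b fun j _ => hcard j).trans ?_
    rw [card_J, smul_eq_mul]
  have h3 : ({n : ℕ | 1 ≤ n ∧ n ≤ N ∧ (BadA c n ∨ BadB c N n)}.ncard : ℝ) ≤
      ((1 + 4 * ((T + 1) ^ 2 * (T ^ 2 + 1)) * b : ℕ) : ℝ) := by exact_mod_cast h1.trans h2
  refine h3.trans ?_
  push_cast
  set A : ℝ := (N : ℝ) ^ η with hA
  have hA1 : 1 ≤ A := Real.one_le_rpow hNR hη.le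
  have hTA : (T : ℝ) ≤ A := Nat.floor_le (by positivity)
  have hT0 : (0 : ℝ) ≤ T := Nat.cast_nonneg T
  have hbB : (b : ℝ) ≤ (N : ℝ) ^ (1 / 2 + ε / 2) := Nat.floor_le (by positivity)
  set B : ℝ := (N : ℝ) ^ (1 / 2 + ε / 2) with hB
  have hB1 : 1 ≤ B := Real.one_le_rpow hNR (by positivity)
  have h4 : ((T : ℝ) + 1) ^ 2 * ((T : ℝ) ^ 2 + 1) ≤ 8 * A ^ 4 := by
    have h5 : ((T : ℝ) + 1) ≤ 2 * A := by linarith
    have h6 : ((T : ℝ) ^ 2 + 1) ≤ 2 * A ^ 2 := by nlinarith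
    calc ((T : ℝ) + 1) ^ 2 * ((T : ℝ) ^ 2 + 1) ≤ (2 * A) ^ 2 * (2 * A ^ 2) := by gcongr
      _ = 8 * A ^ 4 := by ring
  have h7 : 1 + 4 * (((T : ℝ) + 1) ^ 2 * ((T : ℝ) ^ 2 + 1)) * b ≤ 33 * (A ^ 4 * B) := by
    have h8 : 4 * (((T : ℝ) + 1) ^ 2 * ((T : ℝ) ^ 2 + 1)) * b ≤ 4 * (8 * A ^ 4) * B := by gcongr
    have h9 : 1 ≤ A ^ 4 * B := one_le_mul_of_one_le_of_one_le (one_le_pow₀ hA1) hB1
    nlinarith
  refine h7.trans ?_
  have h10 : A ^ 4 * B ≤ (N : ℝ) ^ (1 / 2 + ε / 2 + ε / 10) := by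
    rw [hA, hB, ← Real.rpow_natCast, ← Real.rpow_mul (by positivity),
      ← Real.rpow_add (by linarith)]
    apply Real.rpow_le_rpow_of_exponent_le hNR
    push_cast
    linarith
  calc 33 * (A ^ 4 * B) ≤ (N : ℝ) ^ (2 / 5 * ε) * (N : ℝ) ^ (1 / 2 + ε / 2 + ε / 10) := by
        have := hN₂ N hN2'
        gcongr
    _ = (N : ℝ) ^ (1 / 2 + ε) := by
        rw [← Real.rpow_add (by linarith)]
        congr 1
        ring

end Pool.Agent.Lib.MP_509488_nt.Surf
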