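import Pool.Agent.Lib.MP_509488_nt.Surf.Stmts

set_option autoImplicit false

/-! (L) There are many primes between `N ^ α` and `N ^ β`. -/

namespace Pool.Agent.Lib.MP_509488_nt.Surf

open Finset Polynomial

namespace PrimesAux

open Filter Topology

theorem eventually_pi {γ : ℝ} (hγ : γ < 1) :
    ∀ᶠ x : ℝ in atTop, 3 * x ^ γ ≤ (Nat.primeCounting ⌊x⌋₊ : ℝ) := by
  have h1 := (isLittleO_log_rpow_atTop (show 0 < 1 - γ by linarith)).def
    (show (0 : ℝ) < 1 / 12 by norm_num)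
  have h2 := (Real.isLittleO_log_id_atTop).def (show (0 : ℝ) < 1 / 10 by norm_num)
  filter_upwards [h1, h2, eventually_ge_atTop (10 : ℝ)] with x h1 h2 h3
  have hx0 : 0 < x := by linarith
  have hlog : 0 < Real.log x := Real.log_pos (by linarith)
  rw [Real.norm_of_nonneg hlog.le, Real.norm_of_nonneg (by positivity)] at h1
  rw [Real.norm_of_nonneg hlog.le, id, Real.norm_of_nonneg hx0.le] at h2
  have h4 := Chebyshev.psi_ge' hx0.le
  have h5 := Chebyshev.psi_le_primeCounting_mul_log' x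
  have h6 : Real.log (x + 2) ≤ Real.log 2 + Real.log x := by
    rw [← Real.log_mul (by norm_num) hx0.ne']
    exact Real.log_le_log (by linarith) (by linarith)
  have h7 := Real.log_two_gt_d9
  have h8 := Real.log_two_lt_d9
  have h9 : x / 4 ≤ (Nat.primeCounting ⌊x⌋₊ : ℝ) * Real.log x := by nlinarith
  have h10 : x ^ γ * x ^ (1 - γ) = x := by
    rw [← Real.rpow_add hx0, add_sub_cancel, Real.rpow_one]
  have h11 : 0 < x ^ γ := by positivity
  have h12 : 3 * x ^ γ * Real.log x ≤ (Nat.primeCounting ⌊x⌋₊ : ℝ) * Real.log x := by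
    calc 3 * x ^ γ * Real.log x ≤ 3 * x ^ γ * (1 / 12 * x ^ (1 - γ)) := by gcongr
      _ = (x ^ γ * x ^ (1 - γ)) / 4 := by ring
      _ = x / 4 := by rw [h10]
      _ ≤ _ := h9
  exact le_of_mul_le_mul_right h12 hlog

end PrimesAux

open PrimesAux in
theorem stPrimes : StPrimes := by
  intro α β hα hαβ
  have hβ : 0 < β := hα.trans hαβ
  have hγ : α / β < 1 := (div_lt_one hβ).2 hαβ
  have hT : Filter.Tendsto (fun N : ℕ => (N : ℝ) ^ β) Filter.atTop Filter.atTop :=
    (tendsto_rpow_atTop hβ).comp tendsto_natCast_atTop_atTop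
  obtain ⟨N₀, hN₀⟩ := Filter.eventually_atTop.1 (hT.eventually (eventually_pi hγ))
  refine ⟨max N₀ 1, fun N hN => ?_⟩
  have h1 := hN₀ N (le_trans (le_max_left _ _) hN)
  have hN1 : 1 ≤ N := le_trans (le_max_right _ _) hN
  have hN1' : (1 : ℝ) ≤ N := by exact_mod_cast hN1
  rw [← Real.rpow_mul (by positivity), mul_div_cancel₀ _ hβ.ne'] at h1
  have h2 : (1 : ℝ) ≤ (N : ℝ) ^ α := Real.one_le_rpow hN1' hα.le
  set m := ⌊(N : ℝ) ^ β⌋₊ with hm
  set a := ⌈(N : ℝ) ^ α⌉₊ with ha
  refine ⟨(m.primesLE).filter (fun ℓ => a ≤ ℓ), ?_, ?_⟩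
  · intro ℓ hℓ
    rw [mem_filter, Nat.mem_primesLE] at hℓ
    refine ⟨hℓ.1.2, ?_, ?_⟩
    · exact (Nat.le_ceil _).trans (by exact_mod_cast hℓ.2)
    · exact (Nat.le_floor_iff (by positivity)).1 hℓ.1.1
  · have h3 : Nat.primeCounting m ≤ ((m.primesLE).filter (fun ℓ => a ≤ ℓ)).card + a := by
      rw [← Nat.primesLE_card_eq_primeCounting]
      have h4 := card_filter_add_card_filter_not (s := m.primesLE) (fun ℓ => a ≤ ℓ)
      have h5 : ((m.primesLE).filter (fun ℓ => ¬ a ≤ ℓ)).card ≤ a := by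
        calc ((m.primesLE).filter (fun ℓ => ¬ a ≤ ℓ)).card ≤ (range a).card := by
              refine card_le_card fun ℓ hℓ => ?_
              rw [mem_filter] at hℓ
              exact mem_range.2 (not_le.1 hℓ.2)
          _ = a := card_range a
      omega
    have h4 : (a : ℝ) < (N : ℝ) ^ α + 1 := Nat.ceil_lt_add_one (by positivity)
    have h5 : (Nat.primeCounting m : ℝ) ≤
        (((m.primesLE).filter (fun ℓ => a ≤ ℓ)).card : ℝ) + a := by exact_mod_cast h3
    linarith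

end Pool.Agent.Lib.MP_509488_nt.Surf
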