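import Mathlib

/-!
# Almost all bases: definitions and statements of the modules of folder Surf

Fermat-Catalan for almost all bases `z`, by the `ℓ`-adic determinant method, uniformly in the
exponents.  All statements are propositions `StX`; module `X` proves `theorem stX : StX` (possibly
with earlier statements as hypotheses).
-/

namespace Pool.Agent.Lib.MP_509488_nt.Surf

open Finset Polynomial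

/-- Points `(x, y, z) = (P 0, P 1, P 2)`. -/
abbrev Pt : Type := Fin 3 → ℤ

/-- The equation `x ^ p = s₁ z ^ r + s₂ y ^ q`. -/
def Eqn (p q r : ℕ) (s₁ s₂ : ℤ) (P : Pt) : Prop := P 0 ^ p = s₁ * P 2 ^ r + s₂ * P 1 ^ q

/-- The conditions on the exponents and signs. -/
structure Exps (p q r : ℕ) (s₁ s₂ : ℤ) : Prop where
  hp : 2 ≤ p
  hq : 2 ≤ q
  hr : 2 ≤ r
  pq : Nat.Coprime p q
  qr : Nat.Coprime q r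
  pr : Nat.Coprime p r
  h4 : 4 ≤ p ∨ 4 ≤ q
  hlt : r < p * q
  e₁ : s₁ = 1 ∨ s₁ = -1
  e₂ : s₂ = 1 ∨ s₂ = -1

/-- Modulo every power of `ℓ` the points of `S` are given by polynomials in `d` parameters which
are divisible by `ℓ`. -/
def Loc (d ℓ : ℕ) (S : Set Pt) : Prop :=
  ∀ n : ℕ, ∃ Φ : Fin 3 → MvPolynomial (Fin d) ℤ, ∀ P ∈ S, ∃ t : Fin d → ℤ,
    ∀ i, (ℓ : ℤ) ^ n ∣ P i - MvPolynomial.eval (fun j => (ℓ : ℤ) * t j) (Φ i)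

/-- The points of `S` have at most `b` different third coordinates. -/
def ZB (S : Set Pt) (b : ℕ) : Prop :=
  ∀ Z : Finset ℤ, (∀ z ∈ Z, ∃ P ∈ S, P 2 = z) → Z.card ≤ b

/-- The solutions of size `(N ^ (τ / p), N ^ (τ / q), N)` with `x ≠ 0`. -/
def Sol (p q r τ N : ℕ) (s₁ s₂ : ℤ) : Set Pt :=
  {P | Eqn p q r s₁ s₂ P ∧ P 0 ≠ 0 ∧ |P 0| ^ p ≤ (N : ℤ) ^ τ ∧ |P 1| ^ q ≤ (N : ℤ) ^ τ ∧
    |P 2| ≤ N}

/-- The exponent of `ℓ` in a `K × K` determinant in dimension `d`: `∑ |α|` over `K` different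
`α ∈ ℕ ^ d` is at least `∑_{v < M} (K - #{α : |α| ≤ v})`. -/
def expo (d K M : ℕ) : ℕ := K * M - ∑ v ∈ range M, (v + d).choose d

/-- (A) A determinant of polynomials at `K` points of a `d`-dimensional set is highly divisible.
Proof: `MultilinearMap.map_sum_finset` for the expansion of the rows in monomials of `ℓ t`. -/
def StDet : Prop := ∀ (d ℓ K M : ℕ) (S : Set Pt) (m : Fin K → MvPolynomial (Fin 3) ℤ)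
  (P : Fin K → Pt), Loc d ℓ S → (∀ j, P j ∈ S) →
  (ℓ : ℤ) ^ expo d K M ∣ (Matrix.of fun i j => MvPolynomial.eval (P j) (m i)).det

/-- (B) Vanishing of all `K × K` determinants gives a linear relation with bounded coefficients.
Proof by induction on `K`, with the minors of the last column. -/
def StRel : Prop := ∀ (K : ℕ) (α : Type) (S : Set α) (f : Fin K → α → ℤ) (B : ℕ), 1 ≤ B →
  (∀ i, ∀ P ∈ S, |f i P| ≤ B) →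
  (∀ P : Fin K → α, (∀ j, P j ∈ S) → (Matrix.of fun i j => f i (P j)).det = 0) →
  ∃ c : Fin K → ℤ, c ≠ 0 ∧ (∀ i, |c i| ≤ (K.factorial * B ^ K : ℕ)) ∧
    ∀ P ∈ S, ∑ i, c i * f i P = 0

/-- (C) Newton iteration: a simple root modulo `ℓ` of a polynomial whose coefficients are
polynomials in the parameters is a polynomial in the parameters modulo `ℓ ^ n`.
Iterate `V ↦ V - u g(V; Θ)`. -/
def StHensel : Prop := ∀ (d m ℓ n : ℕ) (g : Polynomial (MvPolynomial (Fin m) ℤ)) (ι : Type)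
  (v : ι → ℤ) (θ : ι → Fin m → ℤ) (t : ι → Fin d → ℤ) (Θ : Fin m → MvPolynomial (Fin d) ℤ)
  (v₀ u : ℤ),
  (∀ i j, (ℓ : ℤ) ^ n ∣ θ i j - MvPolynomial.eval (fun k => (ℓ : ℤ) * t i k) (Θ j)) →
  (∀ i, (g.map (MvPolynomial.eval (θ i))).eval (v i) = 0) →
  (∀ i, (ℓ : ℤ) ∣ v i - v₀) →
  (∀ i, (ℓ : ℤ) ∣ u * ((derivative g).map (MvPolynomial.eval (θ i))).eval (v i) - 1) →
  ∃ V : MvPolynomial (Fin d) ℤ,
    ∀ i, (ℓ : ℤ) ^ n ∣ v i - MvPolynomial.eval (fun k => (ℓ : ℤ) * t i k) V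

/-- (D) Points of the surface in one residue class are two-dimensional (from (C)). -/
def StLocSurf : Prop := ∀ (ℓ p q r : ℕ) (s₁ s₂ : ℤ) (S : Set Pt) (P₀ : Pt), ℓ.Prime →
  (∀ P ∈ S, Eqn p q r s₁ s₂ P) → (∀ P ∈ S, ∀ i, (ℓ : ℤ) ∣ P i - P₀ i) →
  ¬ (ℓ : ℤ) ∣ p * P₀ 0 → Loc 2 ℓ S

/-- (E) Points of the curve `H(y, z) = 0` on the surface in one residue class, at which the
`y`-derivative of `H` is a unit, are one-dimensional (from (C)).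
`H` is a polynomial in `Y` with coefficients in `ℤ[Z]`. -/
def StLocCurve : Prop := ∀ (ℓ p q r : ℕ) (s₁ s₂ : ℤ) (S : Set Pt) (P₀ : Pt)
  (H : Polynomial (Polynomial ℤ)), ℓ.Prime →
  (∀ P ∈ S, Eqn p q r s₁ s₂ P ∧ evalEval (P 2) (P 1) H = 0) →
  (∀ P ∈ S, ∀ i, (ℓ : ℤ) ∣ P i - P₀ i) →
  ¬ (ℓ : ℤ) ∣ p * P₀ 0 → ¬ (ℓ : ℤ) ∣ evalEval (P₀ 2) (P₀ 1) (derivative H) → Loc 1 ℓ S

/-- (F) No rational functions `x = C / D`, `y = A / B` of `z` satisfy the equation. -/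
def StRat : Prop := ∀ (p q r : ℕ) (s₁ s₂ : ℤ), Exps p q r s₁ s₂ → ∀ A B C D : Polynomial ℤ,
  B ≠ 0 → D ≠ 0 →
  C ^ p * B ^ q ≠ Polynomial.C s₁ * X ^ r * D ^ p * B ^ q + Polynomial.C s₂ * A ^ q * D ^ p

/-- (G) A one-dimensional class has few `z` (from (A), (B), (F)).  Functions `z ^ i, z ^ i y` and
`z ^ i, z ^ i x`, `i < I`. -/
def StClass : Prop := ∀ (p q r : ℕ) (s₁ s₂ : ℤ), Exps p q r s₁ s₂ → ∀ (ℓ N I τ : ℕ) (S : Set Pt),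
  1 ≤ N → 1 ≤ I → Loc 1 ℓ S → (∀ P ∈ S, Eqn p q r s₁ s₂ P ∧ |P 0| ≤ (N : ℤ) ^ τ ∧
    |P 1| ≤ (N : ℤ) ^ τ ∧ |P 2| ≤ N) →
  (2 * I).factorial * N ^ (I * (I - 1) + I * τ) < ℓ ^ (I * (2 * I - 1)) →
  ZB S (r + (p + q) * I)

/-- (H) The number of residue classes of points of the curve. -/
def StRes : Prop := ∀ (ℓ p q r D₁ D₂ : ℕ) [Fact ℓ.Prime] (s₁ s₂ : ZMod ℓ)
  (h : Polynomial (Polynomial (ZMod ℓ))), 1 ≤ p → h ≠ 0 → h.natDegree ≤ D₁ →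
  (∀ k, (h.coeff k).natDegree ≤ D₂) →
  Nat.card {Q : Fin 3 → ZMod ℓ // evalEval (Q 2) (Q 1) h = 0 ∧
    Q 0 ^ p = s₁ * Q 2 ^ r + s₂ * Q 1 ^ q} ≤ p * ((D₁ + D₂) * ℓ)

/-- (I) The number of `z` on a curve `H(y, z) = 0` of the surface (from (E), (G), (H)). -/
def StCurve : Prop := ∀ (p q r : ℕ) (s₁ s₂ : ℤ), Exps p q r s₁ s₂ →
  ∀ (τ N I D₁ D₂ E L : ℕ) (H : Polynomial (Polynomial ℤ)) (LL : Finset ℕ) (S : Set Pt),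
  1 ≤ N → 1 ≤ I → H ≠ 0 → H.natDegree ≤ D₁ → (∀ k, (H.coeff k).natDegree ≤ D₂) →
  (∀ ℓ ∈ LL, ℓ.Prime ∧ ℓ ≤ L ∧
    (2 * I).factorial * N ^ (I * (I - 1) + I * τ) < ℓ ^ (I * (2 * I - 1))) →
  E * p * N ^ τ < ∏ ℓ ∈ LL, ℓ →
  (∀ P ∈ S, ∀ k, |evalEval (P 2) (P 1) (derivative^[k] H)| ≤ E) →
  (∀ P ∈ S, Eqn p q r s₁ s₂ P ∧ P 0 ≠ 0 ∧ |P 0| ≤ (N : ℤ) ^ τ ∧ |P 1| ≤ (N : ℤ) ^ τ ∧
    |P 2| ≤ N ∧ evalEval (P 2) (P 1) H = 0) →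
  ZB S (D₂ + D₁ * (LL.card * (p * ((D₁ + D₂) * L) * (r + (p + q) * I))))

/-- The bound for the coefficients of the auxiliary polynomial. -/
def hB (p q τ N : ℕ) : ℕ := (p * q * τ).factorial * (N ^ (3 * τ)) ^ (p * q * τ)

/-- (J) The points of a two-dimensional class satisfy `G(x, y, z) = 0` with `G` of `x`-degree
less than `p` (from (A), (B)); functions `x ^ i y ^ j z ^ k`, `i < p`, `j < q`, `k < τ`. -/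
def StSurf : Prop := ∀ (p q τ N M ℓ : ℕ) (S : Set Pt), 1 ≤ p → 1 ≤ q → 1 ≤ τ → 1 ≤ N →
  Loc 2 ℓ S → (∀ P ∈ S, |P 0| ^ p ≤ (N : ℤ) ^ τ ∧ |P 1| ^ q ≤ (N : ℤ) ^ τ ∧ |P 2| ≤ N) →
  (p * q * τ).factorial ^ 2 * N ^ (3 * τ * (p * q * τ)) < ℓ ^ (2 * expo 2 (p * q * τ) M) →
  ∃ c : Fin p → Fin q → Fin τ → ℤ, c ≠ 0 ∧ (∀ i j k, |c i j k| ≤ hB p q τ N) ∧
    ∀ P ∈ S, ∑ i, ∑ j, ∑ k, c i j k * P 0 ^ (i : ℕ) * P 1 ^ (j : ℕ) * P 2 ^ (k : ℕ) = 0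

/-- The bound for the values of the derivatives of the norm of the auxiliary polynomial. -/
def eB (p q τ B V : ℕ) : ℕ := (2 * p * q).factorial * (p.factorial *
  (2 * q * τ * B * (V + 1) ^ (2 * (q + τ))) ^ p)

/-- (K) Elimination of `x`: `H = det` of the multiplication by `G` on `ℤ[Y, Z][X] / (X ^ p - w)`,
`w = s₁ Z ^ r + s₂ Y ^ q`. `H ≠ 0` because `X ^ p - w` is irreducible (Eisenstein at the prime ideal of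
a point `(y, z) = (± 1, ± 1)` with `w = 0`). The bound for the derivatives: Cauchy estimate on
the circle of radius `1` in `y`, or coefficients. -/
def StElim : Prop := ∀ (p q r τ B : ℕ) (s₁ s₂ : ℤ) (c : Fin p → Fin q → Fin τ → ℤ),
  1 ≤ p → 1 ≤ q → 1 ≤ r → r ≤ τ → Nat.Coprime q r → (s₁ = 1 ∨ s₁ = -1) → (s₂ = 1 ∨ s₂ = -1) →
  c ≠ 0 → (∀ i j k, |c i j k| ≤ B) →
  ∃ H : Polynomial (Polynomial ℤ), H ≠ 0 ∧ H.natDegree ≤ 2 * p * q ∧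
    (∀ k, (H.coeff k).natDegree ≤ 2 * p * τ) ∧
    (∀ x y z : ℤ, x ^ p = s₁ * z ^ r + s₂ * y ^ q →
      ∑ i, ∑ j, ∑ k, c i j k * x ^ (i : ℕ) * y ^ (j : ℕ) * z ^ (k : ℕ) = 0 →
      evalEval z y H = 0) ∧
    ∀ (k V : ℕ) (y z : ℤ), |y| ≤ V → |z| ≤ V →
      |evalEval z y (derivative^[k] H)| ≤ eB p q τ B V

/-- (L) There are many primes between `N ^ α` and `N ^ β`. -/
def StPrimes : Prop := ∀ α β : ℝ, 0 < α → α < β → ∃ N₀ : ℕ, ∀ N : ℕ, N₀ ≤ N →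
  ∃ LL : Finset ℕ, (∀ ℓ ∈ LL, ℓ.Prime ∧ (N : ℝ) ^ α ≤ ℓ ∧ (ℓ : ℝ) ≤ (N : ℝ) ^ β) ∧
    (N : ℝ) ^ α ≤ LL.card

/-- (M) The non-asymptotic bound for one signature (from (D), (J), (K), (I)). -/
def StCount : Prop := ∀ (p q r : ℕ) (s₁ s₂ : ℤ), Exps p q r s₁ s₂ →
  ∀ (τ N M I L₁ L₂ : ℕ) (LL₁ LL₂ : Finset ℕ), r ≤ τ → 1 ≤ N → 1 ≤ I →
  (∀ ℓ ∈ LL₁, ℓ.Prime ∧ ℓ ≤ L₁ ∧
    (p * q * τ).factorial ^ 2 * N ^ (3 * τ * (p * q * τ)) < ℓ ^ (2 * expo 2 (p * q * τ) M)) →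
  (∀ ℓ ∈ LL₂, ℓ.Prime ∧ ℓ ≤ L₂ ∧
    (2 * I).factorial * N ^ (I * (I - 1) + I * τ) < ℓ ^ (I * (2 * I - 1))) →
  p * N ^ τ < ∏ ℓ ∈ LL₁, ℓ →
  eB p q τ (hB p q τ N) (N ^ τ) * p * N ^ τ < ∏ ℓ ∈ LL₂, ℓ →
  ZB (Sol p q r τ N s₁ s₂) (LL₁.card * (L₁ ^ 3 * (2 * p * τ + 2 * p * q * (LL₂.card *
    (p * ((2 * p * q + 2 * p * τ) * L₂) * (r + (p + q) * I))))))

/-- (N) The bound for one signature (from (M), (L); numerics: `δ ≤ ε / 100`, `c = (ε / 200) ^ 2`,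
`I = ⌈4 τ / ε⌉`, primes in `[N ^ (ε / 40), N ^ (ε / 20)]` and `[N ^ (1 / 2 + ε / 4), N ^ (1 / 2 + ε / 2)]`). -/
def StFixed : Prop := ∀ ε : ℝ, 0 < ε → ε ≤ 1 / 2 → ∃ c δ : ℝ, 0 < c ∧ c ≤ 1 ∧ 0 < δ ∧ ∃ N₀ : ℕ,
  ∀ N : ℕ, N₀ ≤ N → ∀ (p q r τ : ℕ) (s₁ s₂ : ℤ), Exps p q r s₁ s₂ → r ≤ τ →
  (τ : ℝ) ≤ c * (p * q) → (p : ℝ) ≤ (N : ℝ) ^ δ → (q : ℝ) ≤ (N : ℝ) ^ δ →
  ZB (Sol p q r τ N s₁ s₂) ⌊(N : ℝ) ^ (1 / 2 + ε)⌋₊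

/-- (O) The bound for the exponents in terms of the base (from the two `2`-adic logarithms of
folder Unif: one of `x, y, z` is even). -/
def StTwo : Prop := ∃ C : ℝ, 0 < C ∧ ∀ x y z p q r : ℕ, 2 ≤ x → 2 ≤ y → Nat.Coprime x y →
  2 ≤ p → 2 ≤ q → 2 ≤ r → Nat.Coprime p q → Nat.Coprime q r → Nat.Coprime p r →
  x ^ p + y ^ q = z ^ r →
  (p * q : ℝ) ≤ C * r * Real.log z ^ 2 * Real.log (p + q + r) ^ 2

/-- Exceptional bases, part (a): `n ^ r = x ^ p + y ^ q`. -/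
def BadA (c : ℝ) (n : ℕ) : Prop := ∃ x y p q r : ℕ, 2 ≤ x ∧ 2 ≤ y ∧ Nat.Coprime x y ∧ 2 ≤ p ∧
  2 ≤ q ∧ 2 ≤ r ∧ Nat.Coprime p q ∧ Nat.Coprime q r ∧ Nat.Coprime p r ∧
  (r : ℝ) * Real.log (p * q) ^ 4 ≤ c * (p * q) ∧ x ^ p + y ^ q = n ^ r

/-- Exceptional bases, part (b): `n ^ r = ± x ^ p ± y ^ q` with all terms at most `n ^ (c p q)`. -/
def BadB (c : ℝ) (N n : ℕ) : Prop := ∃ (x y : ℤ) (p q r : ℕ) (s₁ s₂ : ℤ), x ≠ 0 ∧ y ≠ 0 ∧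
  2 ≤ p ∧ 2 ≤ q ∧ 2 ≤ r ∧ Nat.Coprime p q ∧ Nat.Coprime q r ∧ Nat.Coprime p r ∧
  (p : ℝ) ≤ (N : ℝ) ^ c ∧ (q : ℝ) ≤ (N : ℝ) ^ c ∧ (s₁ = 1 ∨ s₁ = -1) ∧ (s₂ = 1 ∨ s₂ = -1) ∧
  s₁ * x ^ p + s₂ * y ^ q = (n : ℤ) ^ r ∧ |(x : ℝ)| ^ p ≤ (n : ℝ) ^ (c * (p * q)) ∧
  |(y : ℝ)| ^ q ≤ (n : ℝ) ^ (c * (p * q)) ∧ (n : ℝ) ^ r ≤ (n : ℝ) ^ (c * (p * q))

/-- (P) The main theorem (from (N), (O)). -/
def StMain : Prop := ∀ ε : ℝ, 0 < ε → ∃ c : ℝ, 0 < c ∧ ∃ N₀ : ℕ, ∀ N : ℕ, N₀ ≤ N →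
  ({n : ℕ | 1 ≤ n ∧ n ≤ N ∧ (BadA c n ∨ BadB c N n)}.ncard : ℝ) ≤ (N : ℝ) ^ (1 / 2 + ε)

end Pool.Agent.Lib.MP_509488_nt.Surf
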