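import Mathlib
import Pool.Agent.Lib.MP_509488_nt.Surf.Stmts

/-!
# Module (F): no rational functions satisfy the equation

The equation `C ^ p B ^ q = s₁ z ^ r D ^ p B ^ q + s₂ A ^ q D ^ p` has no solutions in polynomials
with `B, D ≠ 0`.  Reduction to lowest terms, orders at `z = 0`, and the polynomial
Fermat-Catalan theorem of Mathlib after the substitution `z = t ^ q` or `z = t ^ p`.
-/

namespace Pool.Agent.Lib.MP_509488_nt.Surf

open Polynomial

namespace RatAux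

/-- Reduction of a fraction to lowest terms. -/
theorem lowest (A B : ℚ[X]) (hB : B ≠ 0) :
    ∃ G A' B' : ℚ[X], G ≠ 0 ∧ B' ≠ 0 ∧ A = G * A' ∧ B = G * B' ∧ IsCoprime A' B' := by
  classical
  refine ⟨GCDMonoid.gcd A B, A / GCDMonoid.gcd A B, B / GCDMonoid.gcd A B,
    gcd_ne_zero_of_right hB, right_div_gcd_ne_zero hB, ?_, ?_, isCoprime_div_gcd_div_gcd hB⟩
  · exact (EuclideanDomain.mul_div_cancel' (gcd_ne_zero_of_right hB) (gcd_dvd_left _ _)).symm
  · exact (EuclideanDomain.mul_div_cancel' (gcd_ne_zero_of_right hB) (gcd_dvd_right _ _)).symm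

/-- Uniqueness of the order at `0`. -/
theorem order_unique {a b : ℕ} {F G : ℚ[X]} (h : X ^ a * F = X ^ b * G)
    (hF : ¬ (X : ℚ[X]) ∣ F) (hG : ¬ (X : ℚ[X]) ∣ G) : a = b := by
  have key : ∀ {a b : ℕ} {F G : ℚ[X]}, X ^ a * F = X ^ b * G → ¬ (X : ℚ[X]) ∣ F → b ≤ a := by
    intro a b F G h hF
    by_contra hlt
    push Not at hlt
    obtain ⟨c, rfl⟩ := Nat.exists_eq_add_of_lt hlt
    apply hF
    have hX : (X : ℚ[X]) ^ a ≠ 0 := pow_ne_zero _ X_ne_zero
    refine ⟨X ^ c * G, mul_left_cancel₀ hX ?_⟩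
    rw [h]
    ring
  exact le_antisymm (key h.symm hG) (key h hF)

/-- Every nonzero polynomial is a power of `X` times a polynomial prime to `X`. -/
theorem exists_order {A : ℚ[X]} (hA : A ≠ 0) : ∃ (i : ℕ) (A' : ℚ[X]),
    A = X ^ i * A' ∧ ¬ (X : ℚ[X]) ∣ A' := by
  have hfin : FiniteMultiplicity (X : ℚ[X]) A :=
    FiniteMultiplicity.of_prime_left prime_X hA
  obtain ⟨c, hc, hn⟩ := hfin.exists_eq_pow_mul_and_not_dvd
  exact ⟨_, c, hc, hn⟩

theorem not_dvd_mul {F G : ℚ[X]} (hF : ¬ (X : ℚ[X]) ∣ F) (hG : ¬ (X : ℚ[X]) ∣ G) :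
    ¬ (X : ℚ[X]) ∣ F * G := by
  intro h
  rcases prime_X.dvd_or_dvd h with h | h
  · exact hF h
  · exact hG h

theorem not_dvd_pow {F : ℚ[X]} (hF : ¬ (X : ℚ[X]) ∣ F) (n : ℕ) : ¬ (X : ℚ[X]) ∣ F ^ n :=
  fun h => hF (prime_X.dvd_of_dvd_pow h)

theorem not_dvd_C {c : ℚ} (hc : c ≠ 0) : ¬ (X : ℚ[X]) ∣ C c := by
  intro h
  rw [X_dvd_iff] at h
  simp at h
  exact hc h

/-- The sum of a polynomial divisible by `X` and one prime to `X` is prime to `X`. -/
theorem not_dvd_add {F G : ℚ[X]} (hF : (X : ℚ[X]) ∣ F) (hG : ¬ (X : ℚ[X]) ∣ G) :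
    ¬ (X : ℚ[X]) ∣ F + G := fun h => hG ((dvd_add_right hF).mp h)

/-- Units of `ℚ[X]` between powers. -/
theorem reduced {p q r : ℕ} {a b : ℚ} (hb : b ≠ 0)
    {A B C' D : ℚ[X]} (hD : D ≠ 0) (hAB : IsCoprime A B) (hCD : IsCoprime C' D)
    (h : C' ^ p * B ^ q = C a * X ^ r * D ^ p * B ^ q + C b * A ^ q * D ^ p) :
    ∃ u : ℚ, u ≠ 0 ∧ B ^ q = C u * D ^ p ∧
      C u * C' ^ p = C a * X ^ r * B ^ q + C b * A ^ q := by
  have h1 : D ^ p ∣ B ^ q := by
    have h2 : D ^ p ∣ C' ^ p * B ^ q := by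
      rw [h]
      exact ⟨C a * X ^ r * B ^ q + C b * A ^ q, by ring⟩
    exact (hCD.symm.pow (m := p) (n := p)).dvd_of_dvd_mul_left h2
  have h2 : B ^ q ∣ D ^ p := by
    have h3 : B ^ q ∣ A ^ q * D ^ p := by
      have h4 : B ^ q ∣ C b * (A ^ q * D ^ p) := by
        have : C b * (A ^ q * D ^ p) = B ^ q * (C' ^ p - C a * X ^ r * D ^ p) := by
          linear_combination -h
        rw [this]
        exact dvd_mul_right _ _
      have hu : IsUnit (C b : ℚ[X]) := isUnit_C.mpr (isUnit_iff_ne_zero.mpr hb)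
      exact (hu.dvd_mul_left).mp h4
    exact (hAB.symm.pow (m := q) (n := q)).dvd_of_dvd_mul_left h3
  obtain ⟨v, hv⟩ := associated_of_dvd_dvd h1 h2
  obtain ⟨u, hu, huv⟩ := Polynomial.isUnit_iff.mp v.isUnit
  have hBq : B ^ q = C u * D ^ p := by rw [← hv, ← huv]; ring
  refine ⟨u, hu.ne_zero, hBq, ?_⟩
  have hDp : D ^ p ≠ 0 := pow_ne_zero _ hD
  apply mul_right_cancel₀ hDp
  have : C u * C' ^ p * D ^ p = C' ^ p * B ^ q := by rw [hBq]; ring
  rw [this, h]
  ring

theorem X_pow_mul_ne {r : ℕ} (hr : 1 ≤ r) {B : ℚ[X]} (hB : B ≠ 0) :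
    (X ^ r * B).natDegree ≠ 0 := by
  rw [natDegree_mul (pow_ne_zero _ X_ne_zero) hB, natDegree_X_pow]
  omega

theorem expand_isCoprime {A B : ℚ[X]} (n : ℕ) (h : IsCoprime A B) :
    IsCoprime (expand ℚ n A) (expand ℚ n B) := by
  have := h.map (expand ℚ n : ℚ[X] →ₐ[ℚ] ℚ[X]).toRingHom
  simpa using this

/-- The core: `C u C' ^ p = C a z ^ r B ^ q + C b A ^ q` with `A`, `C'` coprime and nonzero
is impossible when `4 ≤ q`. -/
theorem core {p q r : ℕ} (hp : 2 ≤ p) (hq : 4 ≤ q) (hr : 2 ≤ r) {u a b : ℚ}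
    (hu : u ≠ 0) (ha : a ≠ 0) (hb : b ≠ 0) {A B C' : ℚ[X]} (hA : A ≠ 0) (hB : B ≠ 0)
    (hC : C' ≠ 0) (hAC : IsCoprime A C')
    (h : C u * C' ^ p = C a * X ^ r * B ^ q + C b * A ^ q) : False := by
  have hq0 : 0 < q := by omega
  set A' := expand ℚ q A with hA'
  set B' := expand ℚ q B with hB'
  set C'' := expand ℚ q C' with hC''
  have hA0 : A' ≠ 0 := fun e => hA ((expand_eq_zero hq0).mp e)
  have hB0 : B' ≠ 0 := fun e => hB ((expand_eq_zero hq0).mp e)
  have hC0 : C'' ≠ 0 := fun e => hC ((expand_eq_zero hq0).mp e)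
  have h1 : C u * C'' ^ p = C a * X ^ (q * r) * B' ^ q + C b * A' ^ q := by
    have := congrArg (expand ℚ q) h
    simp only [map_mul, map_add, map_pow, expand_C, expand_X] at this
    rw [← pow_mul] at this
    exact this
  have heq : C b * A' ^ q + C (-u) * C'' ^ p + C a * (X ^ r * B') ^ q = 0 := by
    have : (C (-u) : ℚ[X]) = - C u := by simp
    rw [this, mul_pow, ← pow_mul, mul_comm r q]
    linear_combination -h1
  have hcop : IsCoprime A' C'' := expand_isCoprime q hAC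
  have hineq : p * q + q * q + q * p ≤ q * p * q := by
    obtain ⟨k, rfl⟩ := Nat.exists_eq_add_of_le hq
    obtain ⟨l, rfl⟩ := Nat.exists_eq_add_of_le hp
    nlinarith [Nat.zero_le (k * l), Nat.zero_le (k * k), Nat.zero_le (k * k * l)]
  have hX : X ^ r * B' ≠ 0 := mul_ne_zero (pow_ne_zero _ X_ne_zero) hB0
  have := Polynomial.flt_catalan (k := ℚ) (p := q) (q := p) (r := q) (by omega) (by omega)
    (by omega) hineq (by positivity) (by positivity) (by positivity) hA0 hC0 hX hcop hb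
    (neg_ne_zero.mpr hu) ha heq
  exact X_pow_mul_ne (by omega) hB0 this.2.2

/-- The statement over `ℚ`, in lowest terms. -/
theorem main {p q r : ℕ} (hp : 2 ≤ p) (hq : 2 ≤ q) (hr : 2 ≤ r) (hpq : Nat.Coprime p q)
    (hqr : Nat.Coprime q r) (hpr : Nat.Coprime p r) (h4 : 4 ≤ p ∨ 4 ≤ q) (hlt : r < p * q)
    {a b : ℚ} (ha : a ≠ 0) (hb : b ≠ 0) {A B C' D : ℚ[X]} (hB : B ≠ 0) (hD : D ≠ 0)
    (hAB : IsCoprime A B) (hCD : IsCoprime C' D)
    (h : C' ^ p * B ^ q = C a * X ^ r * D ^ p * B ^ q + C b * A ^ q * D ^ p) : False := by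
  obtain ⟨u, hu, hBq, hm⟩ := reduced hb hD hAB hCD h
  have hnp : ¬ p ∣ r := fun hd => by
    have := Nat.eq_one_of_dvd_coprimes hpr (dvd_refl p) hd
    omega
  have hnq : ¬ q ∣ r := fun hd => by
    have := Nat.eq_one_of_dvd_coprimes hqr (dvd_refl q) hd
    omega
  have hCa : ¬ (X : ℚ[X]) ∣ C a := not_dvd_C ha
  have hCb : ¬ (X : ℚ[X]) ∣ C b := not_dvd_C hb
  have hCu : ¬ (X : ℚ[X]) ∣ C u := not_dvd_C hu
  obtain ⟨k, B₁, hB₁, hnB⟩ := exists_order hB
  obtain ⟨l, D₁, hD₁, hnD⟩ := exists_order hD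
  -- `C' ≠ 0`
  have hC0 : C' ≠ 0 := by
    rintro rfl
    rw [zero_pow (by omega), mul_zero] at hm
    have hA0 : A ≠ 0 := by
      rintro rfl
      rw [zero_pow (by omega), mul_zero, add_zero] at hm
      have : C a * X ^ r * B ^ q ≠ 0 := mul_ne_zero (mul_ne_zero (by simpa using ha)
        (pow_ne_zero _ X_ne_zero)) (pow_ne_zero _ hB)
      exact this hm.symm
    obtain ⟨i, A₁, hA₁, hnA⟩ := exists_order hA0
    have h1 : X ^ (i * q) * (C b * A₁ ^ q) = X ^ (r + k * q) * (-(C a) * B₁ ^ q) := by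
      rw [hA₁, hB₁, mul_pow, mul_pow, ← pow_mul, ← pow_mul] at hm
      rw [pow_add]
      linear_combination -hm
    have h2 : i * q = r + k * q := order_unique h1 (not_dvd_mul hCb (not_dvd_pow hnA q))
      (not_dvd_mul (by rwa [dvd_neg]) (not_dvd_pow hnB q))
    exact hnq ((Nat.dvd_add_left (dvd_mul_left q k)).mp (h2 ▸ dvd_mul_left q i))
  -- `A ≠ 0`
  have hA0 : A ≠ 0 := by
    rintro rfl
    rw [zero_pow (by omega), mul_zero, add_zero, hBq] at hm
    obtain ⟨i, C₁, hC₁, hnC⟩ := exists_order hC0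
    have h1 : X ^ (i * p) * (C u * C₁ ^ p) = X ^ (r + l * p) * (C a * C u * D₁ ^ p) := by
      rw [hC₁, hD₁, mul_pow, mul_pow, ← pow_mul, ← pow_mul] at hm
      rw [pow_add]
      linear_combination hm
    have h2 : i * p = r + l * p := order_unique h1 (not_dvd_mul hCu (not_dvd_pow hnC p))
      (not_dvd_mul (not_dvd_mul hCa hCu) (not_dvd_pow hnD p))
    exact hnp ((Nat.dvd_add_left (dvd_mul_left p l)).mp (h2 ▸ dvd_mul_left p i))
  -- not both divisible by `X`
  have hnot : ¬ ((X : ℚ[X]) ∣ A ∧ (X : ℚ[X]) ∣ C') := by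
    rintro ⟨hXA, hXC⟩
    have hXB : ¬ (X : ℚ[X]) ∣ B := fun hXB =>
      prime_X.not_isUnit (hAB.isUnit_of_dvd' hXA hXB)
    obtain ⟨i, A₁, hA₁, hnA⟩ := exists_order hA0
    obtain ⟨j, C₁, hC₁, hnC⟩ := exists_order hC0
    have hi : 1 ≤ i := by
      by_contra hi
      have : i = 0 := by omega
      subst this
      rw [pow_zero, one_mul] at hA₁
      exact hnA (hA₁ ▸ hXA)
    have hj : 1 ≤ j := by
      by_contra hj
      have : j = 0 := by omega
      subst this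
      rw [pow_zero, one_mul] at hC₁
      exact hnC (hC₁ ▸ hXC)
    have hm' : X ^ (j * p) * (C u * C₁ ^ p) =
        X ^ r * (C a * B ^ q) + X ^ (i * q) * (C b * A₁ ^ q) := by
      rw [hA₁, hC₁, mul_pow, mul_pow, ← pow_mul, ← pow_mul] at hm
      linear_combination hm
    have nC : ¬ (X : ℚ[X]) ∣ C u * C₁ ^ p := not_dvd_mul hCu (not_dvd_pow hnC p)
    have nB : ¬ (X : ℚ[X]) ∣ C a * B ^ q := not_dvd_mul hCa (not_dvd_pow hXB q)
    have nA : ¬ (X : ℚ[X]) ∣ C b * A₁ ^ q := not_dvd_mul hCb (not_dvd_pow hnA q)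
    rcases lt_trichotomy (j * p) (i * q) with hlt' | heq' | hgt'
    · obtain ⟨d, hd⟩ := Nat.exists_eq_add_of_lt hlt'
      have h1 : X ^ (j * p) * (X * (-(X ^ d) * (C b * A₁ ^ q)) + C u * C₁ ^ p) =
          X ^ r * (C a * B ^ q) := by
        have e : (X : ℚ[X]) ^ (i * q) = X ^ (j * p) * X ^ d * X := by
          rw [hd, pow_succ, pow_add]
        rw [e] at hm'
        linear_combination hm'
      have h2 := order_unique h1 (not_dvd_add (dvd_mul_right _ _) nC) nB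
      exact hnp (h2 ▸ dvd_mul_left p j)
    · -- equal orders: `q ∣ j`, so `p q ≤ j p ≤ r`
      have hqj : q ∣ j := by
        have : q ∣ j * p := heq' ▸ dvd_mul_left q i
        exact hpq.symm.dvd_of_dvd_mul_right this
      have hqj' : q ≤ j := Nat.le_of_dvd hj hqj
      have hle : p * q ≤ j * p := by
        rw [mul_comm p q]
        exact Nat.mul_le_mul_right p hqj'
      -- then `X ^ (j p)` divides `X ^ r * (C a * B ^ q)`
      have hrl : r < j * p := lt_of_lt_of_le hlt hle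
      obtain ⟨d, hd⟩ := Nat.exists_eq_add_of_lt hrl
      apply nB
      have hX : (X : ℚ[X]) ^ r ≠ 0 := pow_ne_zero _ X_ne_zero
      refine ⟨X ^ d * (C u * C₁ ^ p - C b * A₁ ^ q), mul_left_cancel₀ hX ?_⟩
      have e : (X : ℚ[X]) ^ (j * p) = X ^ r * X ^ d * X := by
        rw [hd, pow_succ, pow_add]
      rw [← heq', e] at hm'
      linear_combination -hm'
    · obtain ⟨d, hd⟩ := Nat.exists_eq_add_of_lt hgt'
      have h1 : X ^ (i * q) * (X * (X ^ d * (C u * C₁ ^ p)) + -(C b * A₁ ^ q)) =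
          X ^ r * (C a * B ^ q) := by
        have e : (X : ℚ[X]) ^ (j * p) = X ^ (i * q) * X ^ d * X := by
          rw [hd, pow_succ, pow_add]
        rw [e] at hm'
        linear_combination hm'
      have h2 := order_unique h1 (not_dvd_add (dvd_mul_right _ _) (by rwa [dvd_neg])) nB
      exact hnq (h2 ▸ dvd_mul_left q i)
  -- `A` and `C'` are coprime
  have hAC : IsCoprime A C' := by
    apply isCoprime_of_prime_dvd
    · rintro ⟨h1, -⟩
      exact hA0 h1
    · intro π hπ hπA hπC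
      have h1 : π ∣ C a * X ^ r * B ^ q := by
        have e : C a * X ^ r * B ^ q = C u * C' ^ p - C b * A ^ q := by rw [hm]; ring
        rw [e]
        exact dvd_sub (dvd_mul_of_dvd_right (dvd_pow hπC (by omega)) _)
          (dvd_mul_of_dvd_right (dvd_pow hπA (by omega)) _)
      have hπB : ¬ π ∣ B := fun h2 => hπ.not_isUnit (hAB.isUnit_of_dvd' hπA h2)
      have h3 : π ∣ C a * X ^ r := by
        rcases hπ.dvd_or_dvd h1 with h | h
        · exact h
        · exact absurd (hπ.dvd_of_dvd_pow h) hπB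
      have h4 : π ∣ X := by
        rcases hπ.dvd_or_dvd h3 with h | h
        · exact absurd (isUnit_of_dvd_unit h
            (isUnit_C.mpr (isUnit_iff_ne_zero.mpr ha))) hπ.not_isUnit
        · exact hπ.dvd_of_dvd_pow h
      have h5 : Associated π X := (hπ.dvd_prime_iff_associated prime_X).mp h4
      exact hnot ⟨h5.symm.dvd.trans hπA, h5.symm.dvd.trans hπC⟩
  rcases h4 with h4 | h4
  · -- exchange the roles of the two fractions
    have hm2 : C (b) * A ^ q = C (-(a * u)) * X ^ r * D ^ p + C u * C' ^ p := by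
      rw [hBq] at hm
      have : (C (-(a * u)) : ℚ[X]) = -(C a * C u) := by simp
      rw [this]
      linear_combination -hm
    exact core hq h4 hr hb (neg_ne_zero.mpr (mul_ne_zero ha hu)) hu hC0 hD hA0 hAC.symm hm2
  · exact core hp h4 hr hu ha hb hA0 hB hC0 hAC hm

end RatAux

/-- (F) No rational functions satisfy the equation. -/
theorem stRat : StRat := by
  intro p q r s₁ s₂ hE A B C' D hB hD h
  have hinj : Function.Injective (Int.castRingHom ℚ) := Int.cast_injective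
  set φ := Polynomial.mapRingHom (Int.castRingHom ℚ) with hφ
  have hφinj : Function.Injective φ := Polynomial.map_injective _ hinj
  have hBQ : φ B ≠ 0 := fun e => hB (hφinj (by rw [e, map_zero]))
  have hDQ : φ D ≠ 0 := fun e => hD (hφinj (by rw [e, map_zero]))
  have hQ : φ C' ^ p * φ B ^ q = C (s₁ : ℚ) * X ^ r * φ D ^ p * φ B ^ q +
      C (s₂ : ℚ) * φ A ^ q * φ D ^ p := by
    have := congrArg φ h
    simp only [map_mul, map_add, map_pow] at this
    rw [this]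
    simp [hφ]
  obtain ⟨G, A', B', hG, hB', hA1, hB1, hcop1⟩ := RatAux.lowest (φ A) (φ B) hBQ
  obtain ⟨G', C'', D', hG', hD', hC1, hD1, hcop2⟩ := RatAux.lowest (φ C') (φ D) hDQ
  have hs₁ : (s₁ : ℚ) ≠ 0 := by rcases hE.e₁ with rfl | rfl <;> norm_num
  have hs₂ : (s₂ : ℚ) ≠ 0 := by rcases hE.e₂ with rfl | rfl <;> norm_num
  refine RatAux.main hE.hp hE.hq hE.hr hE.pq hE.qr hE.pr hE.h4 hE.hlt hs₁ hs₂ hB' hD' hcop1 hcop2
    (A := A') (C' := C'') ?_
  rw [hA1, hB1, hC1, hD1] at hQ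
  have hGG : G ^ q * G' ^ p ≠ 0 := mul_ne_zero (pow_ne_zero _ hG) (pow_ne_zero _ hG')
  apply mul_left_cancel₀ hGG
  simp only [mul_pow] at hQ
  linear_combination hQ

end Pool.Agent.Lib.MP_509488_nt.Surf
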