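import Pool.Agent.Lib.MP_509488_nt.Surf.Stmts

/-! Module (B) of Surf: vanishing of all `K × K` determinants gives a bounded linear relation. -/

namespace Pool.Agent.Lib.MP_509488_nt.Surf

open Finset

namespace RelAux

lemma abs_det_le {K : ℕ} (A : Matrix (Fin K) (Fin K) ℤ) {B : ℕ} (h : ∀ i j, |A i j| ≤ B) :
    |A.det| ≤ ((K.factorial * B ^ K : ℕ) : ℤ) := by
  have := Matrix.det_le (A := A) (abv := AbsoluteValue.abs) (x := (B : ℤ)) (fun i j => h i j)
  simp only [AbsoluteValue.abs_apply, Fintype.card_fin, nsmul_eq_mul] at this
  push_cast
  exact this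

end RelAux

open RelAux in
/-- (B) -/
theorem stRel : StRel := by
  intro K α S
  induction K with
  | zero =>
    intro f B _ _ h
    have := h (fun j => j.elim0) (fun j => j.elim0)
    simp at this
  | succ K ih =>
    intro f B hB hf h
    have hmono : ((K.factorial * B ^ K : ℕ) : ℤ) ≤ (((K + 1).factorial * B ^ (K + 1) : ℕ) : ℤ) := by
      have : K.factorial * B ^ K ≤ (K + 1).factorial * B ^ (K + 1) :=
        Nat.mul_le_mul (Nat.factorial_le (by omega)) (Nat.pow_le_pow_right (by omega) (by omega))
      exact_mod_cast this
    by_cases hc : ∀ P : Fin K → α, (∀ j, P j ∈ S) →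
        (Matrix.of fun i j => f (Fin.castSucc i) (P j)).det = 0
    · obtain ⟨c, hc0, hcb, hcS⟩ := ih (fun i => f (Fin.castSucc i)) B hB
        (fun i P hP => hf _ P hP) hc
      refine ⟨Fin.snoc c 0, ?_, ?_, ?_⟩
      · intro h0
        apply hc0
        funext i
        have := congrFun h0 (Fin.castSucc i)
        simpa using this
      · intro i
        refine Fin.lastCases ?_ (fun i => ?_) i
        · simp only [Fin.snoc_last, abs_zero]
          positivity
        · simp only [Fin.snoc_castSucc]
          exact (hcb i).trans hmono
      · intro P hP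
        rw [Fin.sum_univ_castSucc]
        simp only [Fin.snoc_castSucc, Fin.snoc_last, zero_mul, add_zero]
        exact hcS P hP
    · push Not at hc
      obtain ⟨P', hP', hdet⟩ := hc
      refine ⟨fun i => (-1) ^ ((i : ℕ) + K) *
        (Matrix.of fun a b => f (i.succAbove a) (P' b)).det, ?_, ?_, ?_⟩
      · intro h0
        have h1 := congrFun h0 (Fin.last K)
        simp only [Fin.val_last, Fin.succAbove_last, Pi.zero_apply, mul_eq_zero] at h1
        rcases h1 with h1 | h1
        · exact absurd h1 (pow_ne_zero _ (by norm_num))
        · exact hdet h1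
      · intro i
        simp only [abs_mul, abs_pow, abs_neg, abs_one, one_pow, one_mul]
        refine (abs_det_le _ (B := B) fun a b => ?_).trans hmono
        simp only [Matrix.of_apply]
        exact hf _ _ (hP' b)
      · intro P hP
        have h2 := h (Fin.snoc P' P) (fun j => by
          refine Fin.lastCases ?_ (fun j => ?_) j
          · simpa using hP
          · simpa using hP' j)
        rw [Matrix.det_succ_column _ (Fin.last K)] at h2
        rw [← h2]
        refine Finset.sum_congr rfl fun i _ => ?_
        have e : (Matrix.of fun i j => f i (Fin.snoc (α := fun _ => α) P' P j)).submatrix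
            i.succAbove (Fin.last K).succAbove = Matrix.of fun a b => f (i.succAbove a) (P' b) := by
          ext a b
          simp
        rw [e]
        simp only [Fin.val_last, Matrix.of_apply, Fin.snoc_last]
        ring

end Pool.Agent.Lib.MP_509488_nt.Surf
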