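import Mathlib
import Pool.Agent.Lib.MP_509488_nt.Surf.Stmts

/-!
# Module (H): the number of residue classes of points of the curve
-/

namespace Pool.Agent.Lib.MP_509488_nt.Surf

open Polynomial Finset

namespace ResAux

variable {K : Type*} [Field K] [Fintype K] [DecidableEq K]

theorem card_zeros {f : K[X]} (hf : f ≠ 0) :
    (univ.filter fun y : K => f.eval y = 0).card ≤ f.natDegree := by
  have h1 : (univ.filter fun y : K => f.eval y = 0) ⊆ f.roots.toFinset := by
    intro y hy
    rw [mem_filter] at hy
    rw [Multiset.mem_toFinset, mem_roots hf]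
    exact hy.2
  calc (univ.filter fun y : K => f.eval y = 0).card ≤ f.roots.toFinset.card := card_le_card h1
    _ ≤ Multiset.card f.roots := Multiset.toFinset_card_le _
    _ ≤ f.natDegree := card_roots' f

/-- The number of zeros of a nonzero polynomial in two variables. -/
theorem card_curve {h : K[X][X]} (hh : h ≠ 0) {D₁ D₂ : ℕ} (h1 : h.natDegree ≤ D₁)
    (h2 : ∀ k, (h.coeff k).natDegree ≤ D₂) :
    (univ.filter fun w : K × K => evalEval w.2 w.1 h = 0).card ≤ (D₁ + D₂) * Fintype.card K := by
  obtain ⟨k, hk⟩ : ∃ k, h.coeff k ≠ 0 := by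
    by_contra hcon
    push Not at hcon
    exact hh (Polynomial.ext (by simpa using hcon))
  set Z := univ.filter fun z : K => (h.coeff k).eval z = 0 with hZ
  have hZc : Z.card ≤ D₂ := (card_zeros hk).trans (h2 k)
  have hfib : ∀ z : K, (univ.filter fun y : K => evalEval z y h = 0).card ≤
      D₁ + if z ∈ Z then Fintype.card K else 0 := by
    intro z
    by_cases hz : z ∈ Z
    · rw [if_pos hz]
      exact (card_le_univ _).trans (Nat.le_add_left _ _)
    · rw [if_neg hz, add_zero]
      have hm : h.map (evalRingHom z) ≠ 0 := by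
        intro e
        apply hz
        rw [hZ, mem_filter]
        refine ⟨mem_univ _, ?_⟩
        have := congrArg (fun g => coeff g k) e
        simpa using this
      have : (univ.filter fun y : K => evalEval z y h = 0) =
          univ.filter fun y : K => (h.map (evalRingHom z)).eval y = 0 := by
        ext y
        simp only [mem_filter, mem_univ, true_and]
        rw [map_evalRingHom_eval]
      rw [this]
      exact (card_zeros hm).trans ((natDegree_map_le).trans h1)
  calc (univ.filter fun w : K × K => evalEval w.2 w.1 h = 0).card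
      ≤ ∑ z : K, (univ.filter fun y : K => evalEval z y h = 0).card := by
        rw [← card_sigma]
        apply card_le_card_of_injOn (fun w : K × K => (⟨w.2, w.1⟩ : Σ _ : K, K))
        · intro w hw
          have hw' := (mem_filter.mp (mem_coe.mp hw)).2
          simp only [coe_sigma, Set.mem_sigma_iff, coe_univ, Set.mem_univ, coe_filter,
            mem_univ, true_and, Set.mem_ofPred_eq]
          exact hw'
        · rintro ⟨a, b⟩ _ ⟨c, d⟩ _ hab
          simp only [Sigma.mk.injEq, heq_eq_eq] at hab
          rw [Prod.mk.injEq]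
          exact ⟨hab.2, hab.1⟩
    _ ≤ ∑ z : K, (D₁ + if z ∈ Z then Fintype.card K else 0) := sum_le_sum fun z _ => hfib z
    _ = D₁ * Fintype.card K + Z.card * Fintype.card K := by
        rw [sum_add_distrib, sum_const, card_univ, smul_eq_mul, mul_comm, sum_ite_mem, univ_inter,
          sum_const, smul_eq_mul]
    _ ≤ (D₁ + D₂) * Fintype.card K := by
        rw [add_mul]
        exact Nat.add_le_add_left (Nat.mul_le_mul_right _ hZc) _

end ResAux

/-- (H) The number of residue classes. -/
theorem stRes : StRes := by
  intro ℓ p q r D₁ D₂ _ s₁ s₂ h hp hh h1 h2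
  classical
  set S := univ.filter fun Q : Fin 3 → ZMod ℓ => evalEval (Q 2) (Q 1) h = 0 ∧
    Q 0 ^ p = s₁ * Q 2 ^ r + s₂ * Q 1 ^ q with hS
  have hcard : Nat.card {Q : Fin 3 → ZMod ℓ // evalEval (Q 2) (Q 1) h = 0 ∧
    Q 0 ^ p = s₁ * Q 2 ^ r + s₂ * Q 1 ^ q} = S.card := by
    rw [Nat.card_eq_fintype_card, Fintype.card_subtype]
  rw [hcard]
  have hfib : ∀ w ∈ S.image (fun Q => (Q 1, Q 2)), (S.filter fun Q => (Q 1, Q 2) = w).card ≤ p := by
    intro w _
    have hpol : (X ^ p - Polynomial.C (s₁ * w.2 ^ r + s₂ * w.1 ^ q) : (ZMod ℓ)[X]) ≠ 0 :=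
      X_pow_sub_C_ne_zero (by omega) _
    calc (S.filter fun Q => (Q 1, Q 2) = w).card
        ≤ (univ.filter fun x : ZMod ℓ =>
            (X ^ p - Polynomial.C (s₁ * w.2 ^ r + s₂ * w.1 ^ q) : (ZMod ℓ)[X]).eval x = 0).card := by
          apply card_le_card_of_injOn (fun Q => Q 0)
          · intro Q hQ
            have hQ' := mem_filter.mp (mem_coe.mp hQ)
            have hQS := (mem_filter.mp hQ'.1).2
            have e1 : Q 1 = w.1 := by rw [← hQ'.2]
            have e2 : Q 2 = w.2 := by rw [← hQ'.2]
            simp only [coe_filter, mem_univ, true_and, Set.mem_ofPred_eq, eval_sub, eval_pow,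
              eval_X, eval_C]
            rw [hQS.2, e1, e2, sub_self]
          · intro Q hQ Q' hQ' h0
            have hw := (mem_filter.mp (mem_coe.mp hQ)).2
            have hw' := (mem_filter.mp (mem_coe.mp hQ')).2
            have hww := hw.trans hw'.symm
            rw [Prod.mk.injEq] at hww
            funext i
            fin_cases i
            · exact h0
            · exact hww.1
            · exact hww.2
      _ ≤ _ := ResAux.card_zeros hpol
      _ = p := natDegree_X_pow_sub_C
  have h3 := card_le_mul_card_image (s := S) (f := fun Q => (Q 1, Q 2)) p hfib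
  refine h3.trans (Nat.mul_le_mul_left p ?_)
  have h4 : S.image (fun Q => (Q 1, Q 2)) ⊆
      univ.filter fun w : ZMod ℓ × ZMod ℓ => evalEval w.2 w.1 h = 0 := by
    intro w hw
    obtain ⟨Q, hQ, rfl⟩ := mem_image.mp hw
    exact mem_filter.mpr ⟨mem_univ _, (mem_filter.mp hQ).2.1⟩
  refine (card_le_card h4).trans ?_
  have := ResAux.card_curve hh h1 h2
  rwa [ZMod.card] at this

end Pool.Agent.Lib.MP_509488_nt.Surf
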