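import Pool.Agent.Lib.MP_509488_nt.Surf.Stmts

/-! Module (J) of Surf: the auxiliary polynomial for a two-dimensional class. -/

namespace Pool.Agent.Lib.MP_509488_nt.Surf

open Finset

namespace SurfAux

lemma abs_det_le {K : ℕ} (A : Matrix (Fin K) (Fin K) ℤ) {g : Fin K → ℝ}
    (h : ∀ i j, ((|A i j| : ℤ) : ℝ) ≤ g i) :
    ((|A.det| : ℤ) : ℝ) ≤ (K.factorial : ℝ) * ∏ i, g i := by
  rw [Matrix.det_apply]
  have h1 : |∑ σ : Equiv.Perm (Fin K), Equiv.Perm.sign σ • ∏ i, A (σ i) i| ≤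
      ∑ σ : Equiv.Perm (Fin K), ∏ i, |A (σ i) i| := by
    refine (Finset.abs_sum_le_sum_abs _ _).trans (le_of_eq ?_)
    refine Finset.sum_congr rfl fun σ _ => ?_
    rw [Units.smul_def, zsmul_eq_mul, Int.cast_id, abs_mul, Finset.abs_prod]
    have : |((Equiv.Perm.sign σ : ℤˣ) : ℤ)| = 1 := by
      rcases Int.units_eq_one_or (Equiv.Perm.sign σ) with h | h <;> simp [h]
    rw [this, one_mul]
  calc ((|∑ σ : Equiv.Perm (Fin K), Equiv.Perm.sign σ • ∏ i, A (σ i) i| : ℤ) : ℝ)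
      ≤ ((∑ σ : Equiv.Perm (Fin K), ∏ i, |A (σ i) i| : ℤ) : ℝ) := by exact_mod_cast h1
    _ = ∑ σ : Equiv.Perm (Fin K), ∏ i, ((|A (σ i) i| : ℤ) : ℝ) := by push_cast; rfl
    _ ≤ ∑ σ : Equiv.Perm (Fin K), ∏ i, g (σ i) := by
        refine Finset.sum_le_sum fun σ _ => Finset.prod_le_prod (fun i _ => ?_) fun i _ => h _ _
        exact_mod_cast abs_nonneg _
    _ = ∑ _σ : Equiv.Perm (Fin K), ∏ i, g i := by
        refine Finset.sum_congr rfl fun σ _ => ?_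
        exact Equiv.prod_comp σ g
    _ = _ := by
        rw [Finset.sum_const, Finset.card_univ, Fintype.card_perm, Fintype.card_fin, nsmul_eq_mul]

lemma prod_lin (n : ℕ) (X : ℝ) : (∏ i : Fin n, X ^ (i : ℕ)) ^ 2 = X ^ (n * (n - 1)) := by
  rw [Finset.prod_pow_eq_pow_sum, Fin.sum_univ_eq_sum_range (fun i => i) n, ← pow_mul,
    Finset.sum_range_id_mul_two]

lemma prod_three (p q τ : ℕ) (X Y Z : ℝ) :
    ∏ a : Fin p × Fin q × Fin τ, X ^ (a.1 : ℕ) * Y ^ (a.2.1 : ℕ) * Z ^ (a.2.2 : ℕ) =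
      (∏ i : Fin p, X ^ (i : ℕ)) ^ (q * τ) * (∏ j : Fin q, Y ^ (j : ℕ)) ^ (p * τ) *
        (∏ k : Fin τ, Z ^ (k : ℕ)) ^ (p * q) := by
  rw [Fintype.prod_prod_type]
  have h1 : ∀ i : Fin p, ∏ x : Fin q × Fin τ, X ^ (i : ℕ) * Y ^ (x.1 : ℕ) * Z ^ (x.2 : ℕ) =
      (X ^ (i : ℕ)) ^ (q * τ) * ((∏ j : Fin q, Y ^ (j : ℕ)) ^ τ *
        (∏ k : Fin τ, Z ^ (k : ℕ)) ^ q) := by
    intro i
    rw [Fintype.prod_prod_type]
    have h2 : ∀ j : Fin q, ∏ k : Fin τ, X ^ (i : ℕ) * Y ^ (j : ℕ) * Z ^ (k : ℕ) =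
        (X ^ (i : ℕ)) ^ τ * (Y ^ (j : ℕ)) ^ τ * ∏ k : Fin τ, Z ^ (k : ℕ) := by
      intro j
      rw [Finset.prod_mul_distrib, Finset.prod_const, Finset.card_univ, Fintype.card_fin, mul_pow]
    simp only [h2]
    rw [Finset.prod_mul_distrib, Finset.prod_mul_distrib, Finset.prod_const, Finset.prod_const,
      Finset.card_univ, Fintype.card_fin, Finset.prod_pow, ← pow_mul, mul_comm τ q, mul_assoc]
  simp only [h1]
  rw [Finset.prod_mul_distrib, Finset.prod_const, Finset.card_univ, Fintype.card_fin,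
    Finset.prod_pow, mul_pow, ← pow_mul, ← pow_mul, mul_comm τ p, mul_comm q p, mul_assoc]

/-- the square of the product of the bounds of the monomials -/
lemma prod_sq_le {p q τ : ℕ} {N X Y : ℝ} (hN : 1 ≤ N) (hX : X ^ p = N ^ τ) (hY : Y ^ q = N ^ τ)
    :
    (∏ a : Fin p × Fin q × Fin τ, X ^ (a.1 : ℕ) * Y ^ (a.2.1 : ℕ) * N ^ (a.2.2 : ℕ)) ^ 2 ≤
      N ^ (3 * τ * (p * q * τ)) := by
  have e : (∏ a : Fin p × Fin q × Fin τ, X ^ (a.1 : ℕ) * Y ^ (a.2.1 : ℕ) * N ^ (a.2.2 : ℕ)) ^ 2 =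
      N ^ (τ * (p - 1) * (q * τ) + τ * (q - 1) * (p * τ) + τ * (τ - 1) * (p * q)) := by
    rw [prod_three]
    calc ((∏ i : Fin p, X ^ (i : ℕ)) ^ (q * τ) * (∏ j : Fin q, Y ^ (j : ℕ)) ^ (p * τ) *
        (∏ k : Fin τ, N ^ (k : ℕ)) ^ (p * q)) ^ 2 =
        ((∏ i : Fin p, X ^ (i : ℕ)) ^ 2) ^ (q * τ) * ((∏ j : Fin q, Y ^ (j : ℕ)) ^ 2) ^ (p * τ) *
        ((∏ k : Fin τ, N ^ (k : ℕ)) ^ 2) ^ (p * q) := by
          simp only [mul_pow, ← pow_mul, mul_comm _ 2]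
      _ = ((X ^ p) ^ (p - 1)) ^ (q * τ) * ((Y ^ q) ^ (q - 1)) ^ (p * τ) *
          (N ^ (τ * (τ - 1))) ^ (p * q) := by
          rw [prod_lin, prod_lin, prod_lin, pow_mul X p (p - 1), pow_mul Y q (q - 1)]
      _ = _ := by
          rw [hX, hY]
          simp only [← pow_mul, ← pow_add]
  rw [e]
  apply pow_le_pow_right₀ hN
  have h1 : τ * (p - 1) * (q * τ) ≤ τ * p * (q * τ) := by gcongr; omega
  have h2 : τ * (q - 1) * (p * τ) ≤ τ * q * (p * τ) := by gcongr; omega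
  have h3 : τ * (τ - 1) * (p * q) ≤ τ * τ * (p * q) := by gcongr; omega
  calc τ * (p - 1) * (q * τ) + τ * (q - 1) * (p * τ) + τ * (τ - 1) * (p * q)
      ≤ τ * p * (q * τ) + τ * q * (p * τ) + τ * τ * (p * q) := by omega
    _ = _ := by ring

/-- powers of an integer whose `p`-th power is bounded -/
lemma pow_le_of {x : ℤ} {p i : ℕ} {B : ℤ} (hB : 1 ≤ B) (h : |x| ^ p ≤ B) (hi : i ≤ p) :
    |x| ^ i ≤ B := by
  rcases lt_or_ge |x| 1 with h1 | h1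
  · have h2 : |x| = 0 := by have := abs_nonneg x; omega
    rw [h2]
    rcases Nat.eq_zero_or_pos i with h3 | h3
    · rw [h3, pow_zero]; exact hB
    · rw [zero_pow (by omega)]; omega
  · exact (pow_le_pow_right₀ h1 hi).trans h

end SurfAux

open SurfAux in
/-- (J) -/
theorem stSurf (hA : StDet) (hBB : StRel) : StSurf := by
  intro p q τ N M ℓ S hp hq hτ hN hL hS hlt
  set K := p * q * τ with hK
  have hcard : Fintype.card (Fin p × Fin q × Fin τ) = K := by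
    simp only [Fintype.card_prod, Fintype.card_fin, hK]
    ring
  let e : Fin K ≃ Fin p × Fin q × Fin τ := (Fintype.equivFinOfCardEq hcard).symm
  let m : Fin K → MvPolynomial (Fin 3) ℤ := fun a =>
    MvPolynomial.X 0 ^ ((e a).1 : ℕ) * MvPolynomial.X 1 ^ ((e a).2.1 : ℕ) *
      MvPolynomial.X 2 ^ ((e a).2.2 : ℕ)
  let f : Fin K → Pt → ℤ := fun a P => P 0 ^ ((e a).1 : ℕ) * P 1 ^ ((e a).2.1 : ℕ) *
      P 2 ^ ((e a).2.2 : ℕ)
  have hm : ∀ a (P : Pt), MvPolynomial.eval P (m a) = f a P := by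
    intro a P
    simp [m, f]
  have hN1 : (1 : ℝ) ≤ N := by exact_mod_cast hN
  have hNz : (1 : ℤ) ≤ N := by exact_mod_cast hN
  have hNτ : (1 : ℤ) ≤ (N : ℤ) ^ τ := one_le_pow₀ hNz
  -- bound of the functions
  have hfb : ∀ a, ∀ P ∈ S, |f a P| ≤ ((N ^ (3 * τ) : ℕ) : ℤ) := by
    intro a P hP
    obtain ⟨h0, h1, h2⟩ := hS P hP
    have e1 : |P 0| ^ ((e a).1 : ℕ) ≤ (N : ℤ) ^ τ := pow_le_of hNτ h0 (e a).1.isLt.le
    have e2 : |P 1| ^ ((e a).2.1 : ℕ) ≤ (N : ℤ) ^ τ := pow_le_of hNτ h1 (e a).2.1.isLt.le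
    have e3 : |P 2| ^ ((e a).2.2 : ℕ) ≤ (N : ℤ) ^ τ :=
      pow_le_of hNτ (pow_le_pow_left₀ (abs_nonneg _) h2 τ) (e a).2.2.isLt.le
    simp only [f, abs_mul, abs_pow]
    calc |P 0| ^ ((e a).1 : ℕ) * |P 1| ^ ((e a).2.1 : ℕ) * |P 2| ^ ((e a).2.2 : ℕ)
        ≤ (N : ℤ) ^ τ * (N : ℤ) ^ τ * (N : ℤ) ^ τ := by gcongr
      _ = _ := by push_cast; ring
  -- the determinants vanish
  have hdet : ∀ P : Fin K → Pt, (∀ j, P j ∈ S) → (Matrix.of fun i j => f i (P j)).det = 0 := by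
    intro P hP
    have hdvd := hA 2 ℓ K M S m P hL hP
    simp only [hm] at hdvd
    set A : Matrix (Fin K) (Fin K) ℤ := Matrix.of fun i j => f i (P j) with hAdef
    have hp0 : (p : ℝ) ≠ 0 := by positivity
    have hq0 : (q : ℝ) ≠ 0 := by positivity
    set X : ℝ := ((N : ℝ) ^ τ) ^ (1 / (p : ℝ)) with hX
    set Y : ℝ := ((N : ℝ) ^ τ) ^ (1 / (q : ℝ)) with hY
    have hX0 : 0 ≤ X := by positivity
    have hY0 : 0 ≤ Y := by positivity
    have hXp : X ^ p = (N : ℝ) ^ τ := by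
      rw [hX, ← Real.rpow_natCast, ← Real.rpow_mul (by positivity), one_div, inv_mul_cancel₀ hp0,
        Real.rpow_one]
    have hYq : Y ^ q = (N : ℝ) ^ τ := by
      rw [hY, ← Real.rpow_natCast, ← Real.rpow_mul (by positivity), one_div, inv_mul_cancel₀ hq0,
        Real.rpow_one]
    have hb := abs_det_le A (g := fun a => X ^ ((e a).1 : ℕ) * Y ^ ((e a).2.1 : ℕ) *
      (N : ℝ) ^ ((e a).2.2 : ℕ)) (fun a j => by
        obtain ⟨h0, h1, h2⟩ := hS (P j) (hP j)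
        have h0' : ((|P j 0| : ℤ) : ℝ) ^ p ≤ X ^ p := by rw [hXp]; exact_mod_cast h0
        have h1' : ((|P j 1| : ℤ) : ℝ) ^ q ≤ Y ^ q := by rw [hYq]; exact_mod_cast h1
        have h2' : ((|P j 2| : ℤ) : ℝ) ≤ N := by exact_mod_cast h2
        have h0'' : ((|P j 0| : ℤ) : ℝ) ≤ X := le_of_pow_le_pow_left₀ (by omega) hX0 h0'
        have h1'' : ((|P j 1| : ℤ) : ℝ) ≤ Y := le_of_pow_le_pow_left₀ (by omega) hY0 h1'
        simp only [A, f, Matrix.of_apply, abs_mul, abs_pow]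
        push_cast
        push_cast at h0'' h1'' h2'
        gcongr)
    have hprod : ∏ a : Fin K, (X ^ ((e a).1 : ℕ) * Y ^ ((e a).2.1 : ℕ) *
      (N : ℝ) ^ ((e a).2.2 : ℕ)) = ∏ a : Fin p × Fin q × Fin τ, X ^ (a.1 : ℕ) * Y ^ (a.2.1 : ℕ) *
        (N : ℝ) ^ (a.2.2 : ℕ) :=
      Equiv.prod_comp e (fun a : Fin p × Fin q × Fin τ => X ^ (a.1 : ℕ) * Y ^ (a.2.1 : ℕ) *
        (N : ℝ) ^ (a.2.2 : ℕ))
    rw [hprod] at hb
    have hsq := prod_sq_le (p := p) (q := q) hN1 hXp hYq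
    rw [← hK] at hsq
    set W : ℝ := ∏ a : Fin p × Fin q × Fin τ, X ^ (a.1 : ℕ) * Y ^ (a.2.1 : ℕ) *
        (N : ℝ) ^ (a.2.2 : ℕ) with hW
    have h3 : ((|A.det| : ℤ) : ℝ) ^ 2 < ((ℓ : ℝ) ^ expo 2 K M) ^ 2 := by
      calc ((|A.det| : ℤ) : ℝ) ^ 2 ≤ ((K.factorial : ℝ) * W) ^ 2 := by
            have : (0 : ℝ) ≤ ((|A.det| : ℤ) : ℝ) := by exact_mod_cast abs_nonneg _
            gcongr
        _ = (K.factorial : ℝ) ^ 2 * W ^ 2 := by ring
        _ ≤ (K.factorial : ℝ) ^ 2 * (N : ℝ) ^ (3 * τ * K) := by gcongr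
        _ < (ℓ : ℝ) ^ (2 * expo 2 K M) := by exact_mod_cast hlt
        _ = _ := by rw [mul_comm 2, pow_mul]
    have h4 : ((|A.det| : ℤ) : ℝ) < (ℓ : ℝ) ^ expo 2 K M := lt_of_pow_lt_pow_left₀ 2 (by positivity) h3
    have h5 : |A.det| < (ℓ : ℤ) ^ expo 2 K M := by exact_mod_cast h4
    exact Int.eq_zero_of_abs_lt_dvd hdvd h5
  obtain ⟨c, hc0, hcb, hcS⟩ := hBB K Pt S f (N ^ (3 * τ)) (Nat.one_le_pow _ _ hN) hfb hdet
  refine ⟨fun i j k => c (e.symm (i, j, k)), ?_, ?_, ?_⟩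
  · intro h0
    apply hc0
    funext a
    have := congrFun (congrFun (congrFun h0 (e a).1) (e a).2.1) (e a).2.2
    simpa using this
  · intro i j k
    exact hcb _
  · intro P hP
    rw [← hcS P hP, ← Equiv.sum_comp e.symm (fun a => c a * f a P)]
    simp only [Fintype.sum_prod_type, f, Equiv.apply_symm_apply]
    refine Finset.sum_congr rfl fun i _ => Finset.sum_congr rfl fun j _ =>
      Finset.sum_congr rfl fun k _ => ?_
    ring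

end Pool.Agent.Lib.MP_509488_nt.Surf
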