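import Pool.Agent.Lib.MP_509488_nt.Surf.Stmts
import Pool.Agent.Lib.MP_509488_nt.Unif.Abs
import Pool.Agent.Lib.MP_509488_nt.Unif.Zero
import Pool.Agent.Lib.MP_509488_nt.Unif.Two

/-! Module (O) of Surf: the bound for the exponents in terms of the base, from two `2`-adic
logarithms. -/

namespace Pool.Agent.Lib.MP_509488_nt.Surf

namespace TwoAux

lemma twoL : Unif.TwoLogs := Unif.twoLogs (Unif.twoLogsAbs Unif.zeroEst)

lemma one_le_log {a : ℕ} (h : 3 ≤ a) : 1 ≤ Real.log a := by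
  rw [Real.le_log_iff_exp_le (by positivity)]
  have h1 := Real.exp_one_lt_d9
  have h2 : (3 : ℝ) ≤ a := by exact_mod_cast h
  linarith

/-- one of the exponents is odd: the first one -/
lemma core1 {α β a b n : ℕ} (hα : 3 ≤ α) (hβ : 3 ≤ β) (oα : Odd α) (oβ : Odd β) (ha : 1 ≤ a)
    (hb : 1 ≤ b) (hab : Nat.Coprime a b) (oa : Odd a)
    (hd : ((2 : ℕ) : ℤ) ^ n ∣ (α : ℤ) ^ a - (β : ℤ) ^ b) {Λ : ℝ} (hΛ : Real.log (a + b) ≤ Λ)
    (hΛ1 : 17 / 10 ≤ Λ) :
    ((a : ℝ) ≤ 91 * Λ * Real.log β ∧ (b : ℝ) ≤ 91 * Λ * Real.log α) ∨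
      (n : ℝ) ≤ 6500 * Λ ^ 2 * Real.log α * Real.log β := by
  by_contra hcon
  push Not at hcon
  obtain ⟨h1, h2⟩ := hcon
  have lα := one_le_log hα
  have lβ := one_le_log hβ
  have ha' : (1 : ℝ) ≤ a := by exact_mod_cast ha
  have hb' : (1 : ℝ) ≤ b := by exact_mod_cast hb
  set L : ℕ := ⌈9 * Λ⌉₊ with hL
  have hL1 : 9 * Λ ≤ L := Nat.le_ceil _
  have hL2 : (L : ℝ) < 9 * Λ + 1 := Nat.ceil_lt_add_one (by linarith)
  have hL3 : (L : ℝ) ≤ 10 * Λ := by linarith
  refine twoL 2 α β b a L n Nat.prime_two (by omega) (by omega) ?_ ?_ hb ha hab.symm ?_ ?_ ?_ ?_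
    ?_ hd
  · exact Nat.odd_iff.1 oα
  · exact Nat.odd_iff.1 oβ
  · rw [Nat.two_dvd_ne_zero]; exact Nat.odd_iff.1 oa
  · have : (10 : ℝ) ≤ L := by linarith
    exact_mod_cast this
  · have h3 : (b : ℝ) / Real.log α + a / Real.log β ≤ a + b := by
      have e1 : (b : ℝ) / Real.log α ≤ b := div_le_self (by linarith) lα
      have e2 : (a : ℝ) / Real.log β ≤ a := div_le_self (by linarith) lβ
      linarith
    have h4 : Real.log ((b : ℝ) / Real.log α + a / Real.log β) ≤ Λ :=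
      (Real.log_le_log (by positivity) h3).trans hΛ
    linarith
  · by_cases h3 : (a : ℝ) ≤ 91 * Λ * Real.log β
    · right
      have h4 := h1 h3
      have h5 : 9 * (L : ℝ) * Real.log α ≤ 9 * (10 * Λ) * Real.log α := by gcongr
      nlinarith
    · left
      push Not at h3
      have h5 : 9 * (L : ℝ) * Real.log β ≤ 9 * (10 * Λ) * Real.log β := by gcongr
      nlinarith
  · have h5 : 65 * (L : ℝ) ^ 2 * Real.log α * Real.log β ≤
        65 * (10 * Λ) ^ 2 * Real.log α * Real.log β := by gcongr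
    calc 65 * (L : ℝ) ^ 2 * Real.log α * Real.log β ≤
        65 * (10 * Λ) ^ 2 * Real.log α * Real.log β := h5
      _ = 6500 * Λ ^ 2 * Real.log α * Real.log β := by ring
      _ ≤ n := h2.le

lemma core {α β a b n : ℕ} (hα : 3 ≤ α) (hβ : 3 ≤ β) (oα : Odd α) (oβ : Odd β) (ha : 1 ≤ a)
    (hb : 1 ≤ b) (hab : Nat.Coprime a b)
    (hd : ((2 : ℕ) : ℤ) ^ n ∣ (α : ℤ) ^ a - (β : ℤ) ^ b) {Λ : ℝ} (hΛ : Real.log (a + b) ≤ Λ)
    (hΛ1 : 17 / 10 ≤ Λ) :
    ((a : ℝ) ≤ 91 * Λ * Real.log β ∧ (b : ℝ) ≤ 91 * Λ * Real.log α) ∨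
      (n : ℝ) ≤ 6500 * Λ ^ 2 * Real.log α * Real.log β := by
  rcases Nat.even_or_odd a with h | h
  · have ob : Odd b := by
      rw [← Nat.not_even_iff_odd]
      intro h2
      have := Nat.dvd_gcd h.two_dvd h2.two_dvd
      rw [hab] at this
      omega
    have hd' : ((2 : ℕ) : ℤ) ^ n ∣ (β : ℤ) ^ b - (α : ℤ) ^ a := by
      have := dvd_neg.2 hd
      rwa [neg_sub] at this
    rcases core1 hβ hα oβ oα hb ha hab.symm ob hd' (by rwa [add_comm]) hΛ1 with h3 | h3
    · exact Or.inl ⟨h3.2, h3.1⟩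
    · right
      calc (n : ℝ) ≤ _ := h3
        _ = _ := by ring
  · exact core1 hα hβ oα oβ ha hb hab h hd hΛ hΛ1

lemma three_le {a : ℕ} (h : 2 ≤ a) (ho : Odd a) : 3 ≤ a := by
  obtain ⟨k, hk⟩ := ho
  omega

/-- the case of even `y` -/
lemma caseB {x y z p q r : ℕ} (hx : 2 ≤ x) (hy : 2 ≤ y) (hp : 2 ≤ p) (hr : 2 ≤ r)
    (hpr : Nat.Coprime p r) (h : x ^ p + y ^ q = z ^ r) (hyp : Even y) (hxo : Odd x) (hzo : Odd z)
    (hz : 3 ≤ z) {Λ : ℝ}
    (hΛ : Real.log (p + q + r) ≤ Λ) (hΛ1 : 17 / 10 ≤ Λ) (hxl : (p : ℝ) * Real.log x ≤ r * Real.log z)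
    (hyl : (q : ℝ) * Real.log y ≤ r * Real.log z) :
    (p * q : ℝ) ≤ 26000 * r * Real.log z ^ 2 * Λ ^ 2 := by
  have hx3 := three_le hx hxo
  have lx := one_le_log hx3
  have lz := one_le_log hz
  have hr0 : (0 : ℝ) < r := by positivity
  have hp0 : (0 : ℝ) < p := by positivity
  have hd : ((2 : ℕ) : ℤ) ^ q ∣ (z : ℤ) ^ r - (x : ℤ) ^ p := by
    have h1 : (z : ℤ) ^ r - (x : ℤ) ^ p = (y : ℤ) ^ q := by
      have : (x : ℤ) ^ p + (y : ℤ) ^ q = (z : ℤ) ^ r := by exact_mod_cast h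
      linarith
    rw [h1]
    exact pow_dvd_pow_of_dvd (by exact_mod_cast hyp.two_dvd) q
  have hΛ' : Real.log (r + p) ≤ Λ := by
    refine (Real.log_le_log (by positivity) ?_).trans hΛ
    have : (0 : ℝ) ≤ q := by positivity
    linarith
  rcases core hz hx3 hzo hxo (by omega) (by omega) hpr.symm hd hΛ' hΛ1 with ⟨-, h2⟩ | h2
  · have ly : 1 / 2 ≤ Real.log y := by
      have h3 : Real.log 2 ≤ Real.log y := Real.log_le_log (by norm_num) (by exact_mod_cast hy)
      have := Real.log_two_gt_d9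
      linarith
    have h4 : (q : ℝ) ≤ 2 * (r * Real.log z) := by
      have : (q : ℝ) * (1 / 2) ≤ q * Real.log y := by gcongr
      linarith
    calc (p * q : ℝ) ≤ (91 * Λ * Real.log z) * (2 * (r * Real.log z)) := by gcongr
      _ = 182 * (r * Real.log z ^ 2) * (Λ * 1) := by ring
      _ ≤ 26000 * (r * Real.log z ^ 2) * (Λ * Λ) := by gcongr <;> linarith
      _ = _ := by ring
  · calc (p * q : ℝ) ≤ p * (6500 * Λ ^ 2 * Real.log z * Real.log x) := by gcongr
      _ = 6500 * Λ ^ 2 * Real.log z * (p * Real.log x) := by ring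
      _ ≤ 6500 * Λ ^ 2 * Real.log z * (r * Real.log z) := by gcongr
      _ = 6500 * (r * Real.log z ^ 2 * Λ ^ 2) := by ring
      _ ≤ 26000 * (r * Real.log z ^ 2 * Λ ^ 2) := by gcongr; norm_num
      _ = _ := by ring

/-- the case of even `z` -/
lemma caseA {x y z p q r : ℕ} (hx : 2 ≤ x) (hy : 2 ≤ y) (hp : 2 ≤ p) (hq : 2 ≤ q) (hr : 2 ≤ r)
    (hpq : Nat.Coprime p q) (h : x ^ p + y ^ q = z ^ r) (hze : Even z) (hxo : Odd x) (hyo : Odd y)
    (hz : 2 ≤ z) {Λ : ℝ}
    (hΛ : Real.log (p + q + r) ≤ Λ) (hΛ1 : 17 / 10 ≤ Λ) (hxl : (p : ℝ) * Real.log x ≤ r * Real.log z)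
    (hyl : (q : ℝ) * Real.log y ≤ r * Real.log z) :
    (p * q : ℝ) ≤ 26000 * r * Real.log z ^ 2 * Λ ^ 2 := by
  have hx3 := three_le hx hxo
  have hy3 := three_le hy hyo
  have lx := one_le_log hx3
  have ly := one_le_log hy3
  have lz : 6 / 10 ≤ Real.log z := by
    have h3 : Real.log 2 ≤ Real.log z := Real.log_le_log (by norm_num) (by exact_mod_cast hz)
    have := Real.log_two_gt_d9
    linarith
  have hr0 : (0 : ℝ) < r := by positivity
  have hp0 : (0 : ℝ) < p := by positivity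
  have hq0 : (0 : ℝ) < q := by positivity
  have hd : ((2 : ℕ) : ℤ) ^ r ∣ ((x ^ 2 : ℕ) : ℤ) ^ p - ((y ^ 2 : ℕ) : ℤ) ^ q := by
    have h1 : ((x ^ 2 : ℕ) : ℤ) ^ p - ((y ^ 2 : ℕ) : ℤ) ^ q =
        (z : ℤ) ^ r * ((x : ℤ) ^ p - (y : ℤ) ^ q) := by
      have : (x : ℤ) ^ p + (y : ℤ) ^ q = (z : ℤ) ^ r := by exact_mod_cast h
      rw [← this]
      push_cast
      ring
    rw [h1]
    exact (pow_dvd_pow_of_dvd (by exact_mod_cast hze.two_dvd) r).mul_right _
  have hΛ' : Real.log (p + q) ≤ Λ := by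
    refine (Real.log_le_log (by positivity) ?_).trans hΛ
    linarith
  have hx9 : 3 ≤ x ^ 2 := by nlinarith
  have hy9 : 3 ≤ y ^ 2 := by nlinarith
  have ex : Real.log ((x ^ 2 : ℕ) : ℝ) = 2 * Real.log x := by
    push_cast; rw [Real.log_pow]; norm_num
  have ey : Real.log ((y ^ 2 : ℕ) : ℝ) = 2 * Real.log y := by
    push_cast; rw [Real.log_pow]; norm_num
  have hz2 : 0 < Real.log z := by linarith
  rcases core hx9 hy9 hxo.pow hyo.pow (by omega) (by omega) hpq hd hΛ' hΛ1 with ⟨h2, -⟩ | h2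
  · rw [ey] at h2
    have h3 : 1 ≤ Real.log z * Λ := by nlinarith
    calc (p * q : ℝ) ≤ (91 * Λ * (2 * Real.log y)) * q := by gcongr
      _ = 182 * Λ * (q * Real.log y) := by ring
      _ ≤ 182 * Λ * (r * Real.log z) := by gcongr
      _ = 182 * (Λ * r * Real.log z) * 1 := by ring
      _ ≤ 26000 * (Λ * r * Real.log z) * (Real.log z * Λ) := by gcongr; norm_num
      _ = _ := by ring
  · rw [ex, ey] at h2
    have h3 : r * (p * q : ℝ) ≤ r * (26000 * r * Real.log z ^ 2 * Λ ^ 2) := by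
      calc r * (p * q : ℝ) ≤ (6500 * Λ ^ 2 * (2 * Real.log x) * (2 * Real.log y)) * (p * q) := by
            gcongr
        _ = 26000 * Λ ^ 2 * ((p * Real.log x) * (q * Real.log y)) := by ring
        _ ≤ 26000 * Λ ^ 2 * ((r * Real.log z) * (r * Real.log z)) := by gcongr
        _ = _ := by ring
    exact le_of_mul_le_mul_left h3 hr0

end TwoAux

open TwoAux in
/-- (O) -/
theorem stTwo : StTwo := by
  refine ⟨26000, by norm_num, fun x y z p q r hx hy hxy hp hq hr hpq hqr hpr h => ?_⟩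
  have hz : 2 ≤ z := by
    by_contra hz
    have h1 : z ≤ 1 := by omega
    have h2 : z ^ r ≤ 1 := pow_le_one₀ (by omega) h1
    have h3 : 2 ^ 2 ≤ x ^ p := (Nat.pow_le_pow_left hx 2).trans (Nat.pow_le_pow_right (by omega) hp)
    omega
  have hxz : x ^ p ≤ z ^ r := by omega
  have hyz : y ^ q ≤ z ^ r := by omega
  have hxl : (p : ℝ) * Real.log x ≤ r * Real.log z := by
    rw [← Real.log_pow, ← Real.log_pow]
    exact Real.log_le_log (by positivity) (by exact_mod_cast hxz)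
  have hyl : (q : ℝ) * Real.log y ≤ r * Real.log z := by
    rw [← Real.log_pow, ← Real.log_pow]
    exact Real.log_le_log (by positivity) (by exact_mod_cast hyz)
  have hΛ1 : (17 / 10 : ℝ) ≤ Real.log (p + q + r) := by
    have h1 : (6 : ℝ) ≤ p + q + r := by
      have : 6 ≤ p + q + r := by omega
      exact_mod_cast this
    refine le_trans ?_ (Real.log_le_log (by norm_num) h1)
    have h6 : Real.log 6 = Real.log 2 + Real.log 3 := by
      rw [← Real.log_mul (by norm_num) (by norm_num)]; norm_num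
    have h2 := Real.log_two_gt_d9
    have h3 := one_le_log (a := 3) le_rfl
    push_cast at h3
    have h4 : (1.01 : ℝ) ≤ Real.log 3 := by
      rw [Real.le_log_iff_exp_le (by norm_num)]
      have h5 := Real.exp_one_lt_d9
      have h7 : Real.exp (0.01 : ℝ) ≤ 1.02 := by
        have := Real.exp_bound_div_one_sub_of_interval (x := 0.01) (by norm_num) (by norm_num)
        refine this.trans ?_
        norm_num
      calc Real.exp 1.01 = Real.exp 1 * Real.exp 0.01 := by rw [← Real.exp_add]; norm_num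
        _ ≤ 2.7182818286 * 1.02 := by gcongr
        _ ≤ 3 := by norm_num
    rw [h6]
    linarith
  have hodd : ∀ a n : ℕ, Odd a → Odd (a ^ n) := fun a n h => h.pow
  rcases Nat.even_or_odd x with ex | ox
  · -- `x` even, `y` odd, `z` odd
    have oy : Odd y := by
      rw [← Nat.not_even_iff_odd]
      intro h2
      have := Nat.dvd_gcd ex.two_dvd h2.two_dvd
      rw [hxy] at this
      omega
    have oz : Odd z := by
      rw [← Nat.not_even_iff_odd]
      intro h2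
      have e1 : Even (x ^ p) := ex.pow_of_ne_zero (by omega)
      have e2 : Even (z ^ r) := h2.pow_of_ne_zero (by omega)
      rw [← h, Nat.even_add] at e2
      exact (Nat.not_even_iff_odd.2 (hodd y q oy)) (e2.1 e1)
    have := caseB (Λ := Real.log (p + q + r)) hy hx hq hr hqr (by rw [← h]; ring) ex oy oz
      (three_le hz oz) (by rw [add_comm (q : ℝ) p]) hΛ1 hyl hxl
    calc (p * q : ℝ) = q * p := by ring
      _ ≤ _ := this
      _ = _ := by ring
  · rcases Nat.even_or_odd y with ey | oy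
    · have oz : Odd z := by
        rw [← Nat.not_even_iff_odd]
        intro h2
        have e1 : Even (y ^ q) := ey.pow_of_ne_zero (by omega)
        have e2 : Even (z ^ r) := h2.pow_of_ne_zero (by omega)
        rw [← h, Nat.even_add] at e2
        exact (Nat.not_even_iff_odd.2 (hodd x p ox)) (e2.2 e1)
      exact caseB (Λ := Real.log (p + q + r)) hx hy hp hr hpr h ey ox oz
        (three_le hz oz) le_rfl hΛ1 hxl hyl
    · have ez : Even z := by
        have e1 : Even (z ^ r) := by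
          rw [← h]
          exact (hodd x p ox).add_odd (hodd y q oy)
        exact (Nat.even_pow.1 e1).1
      exact caseA (Λ := Real.log (p + q + r)) hx hy hp hq hr hpq h ez ox oy hz le_rfl hΛ1 hxl hyl

end Pool.Agent.Lib.MP_509488_nt.Surf
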