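import Pool.Agent.Lib.MP_509488_nt.Surf.Det
import Pool.Agent.Lib.MP_509488_nt.Surf.Rel
import Pool.Agent.Lib.MP_509488_nt.Surf.Hensel
import Pool.Agent.Lib.MP_509488_nt.Surf.LocSurf
import Pool.Agent.Lib.MP_509488_nt.Surf.LocCurve
import Pool.Agent.Lib.MP_509488_nt.Surf.Rat
import Pool.Agent.Lib.MP_509488_nt.Surf.Class
import Pool.Agent.Lib.MP_509488_nt.Surf.Res
import Pool.Agent.Lib.MP_509488_nt.Surf.Curve
import Pool.Agent.Lib.MP_509488_nt.Surf.Surf
import Pool.Agent.Lib.MP_509488_nt.Surf.Elim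
import Pool.Agent.Lib.MP_509488_nt.Surf.Primes
import Pool.Agent.Lib.MP_509488_nt.Surf.Count
import Pool.Agent.Lib.MP_509488_nt.Surf.Fixed
import Pool.Agent.Lib.MP_509488_nt.Surf.Two
import Pool.Agent.Lib.MP_509488_nt.Surf.Main

/-!
# Assembly of folder Surf
-/

namespace Pool.Agent.Lib.MP_509488_nt.Surf

theorem stFixed' : StFixed :=
  stFixed (stCount (stLocSurf stHensel) (stSurf stDet stRel) stElim
    (stCurve (stLocCurve stHensel) (stClass stDet stRel stRat) stRes)) stPrimes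

theorem stMain' : StMain := stMain stFixed' stTwo

end Pool.Agent.Lib.MP_509488_nt.Surf
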