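import Pool.Agent.Lib.MP_509488_nt.Surf.Stmts

/-!
# Module Det: divisibility of a determinant of polynomials at points of a `d`-dimensional set
-/

namespace Pool.Agent.Lib.MP_509488_nt.Surf

open Finset Polynomial

namespace DetAux

/-- The degree of an exponent. -/
def dg {d : ℕ} (a : Fin d →₀ ℕ) : ℕ := ∑ i, a i

/-- Few exponents have small degree. -/
theorem card_small {d K : ℕ} (r : Fin K → (Fin d →₀ ℕ)) (hr : Function.Injective r) (v : ℕ) :
    (univ.filter fun i => dg (r i) ≤ v).card ≤ (v + d).choose d := by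
  classical
  have h1 : (univ.filter fun i => dg (r i) ≤ v).card ≤
      ((univ : Finset (Fin (d + 1))).finsuppAntidiag v).card := by
    apply Finset.card_le_card_of_injOn (fun i => Finsupp.cons (v - dg (r i)) (r i))
    · intro i hi
      have hi' : dg (r i) ≤ v := by simpa using hi
      simp only [Finset.mem_coe, Finset.mem_finsuppAntidiag,
        Finset.subset_univ, and_true]
      rw [Fin.sum_univ_succ]
      simp only [Finsupp.cons_zero, Finsupp.cons_succ]
      have : (∑ i_1 : Fin d, (r i) i_1) = dg (r i) := rfl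
      omega
    · intro i _ j _ hij
      apply hr
      have h := congrArg Finsupp.tail hij
      simpa using h
  rw [Finset.card_finsuppAntidiag_nat_eq_choose] at h1
  simp only [Finset.card_univ, Fintype.card_fin] at h1
  have e : d + 1 + v - 1 = v + d := by omega
  rw [e] at h1
  calc _ ≤ (v + d).choose v := h1
    _ = (v + d).choose d := by
      rw [← Nat.choose_symm_add]

/-- The sum of the degrees of different exponents. -/
theorem expo_le {d K : ℕ} (M : ℕ) (r : Fin K → (Fin d →₀ ℕ)) (hr : Function.Injective r) :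
    expo d K M ≤ ∑ i, dg (r i) := by
  have h1 : ∀ i, M ≤ dg (r i) + ((range M).filter fun v => dg (r i) ≤ v).card := by
    intro i
    have h2 : ((range M).filter fun v => ¬ dg (r i) ≤ v).card ≤ dg (r i) := by
      calc ((range M).filter fun v => ¬ dg (r i) ≤ v).card ≤ (range (dg (r i))).card := by
            apply Finset.card_le_card
            intro v hv
            simp only [mem_filter, mem_range] at hv ⊢
            omega
        _ = dg (r i) := card_range _
    have h3 := Finset.card_filter_add_card_filter_not (s := range M) (fun v => dg (r i) ≤ v)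
    rw [card_range] at h3
    omega
  have h4 : K * M ≤ ∑ i : Fin K, (dg (r i) + ((range M).filter fun v => dg (r i) ≤ v).card) := by
    calc K * M = ∑ _i : Fin K, M := by simp
      _ ≤ _ := Finset.sum_le_sum fun i _ => h1 i
  have h5 : ∑ i : Fin K, ((range M).filter fun v => dg (r i) ≤ v).card =
      ∑ v ∈ range M, (univ.filter fun i => dg (r i) ≤ v).card := by
    simp only [Finset.card_filter]
    rw [Finset.sum_comm]
  have h6 : ∑ v ∈ range M, (univ.filter fun i => dg (r i) ≤ v).card ≤
      ∑ v ∈ range M, (v + d).choose d := Finset.sum_le_sum fun v _ => card_small r hr v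
  rw [Finset.sum_add_distrib, h5] at h4
  unfold expo
  omega

/-- The determinant of polynomials at points with coordinates divisible by `ℓ`. -/
theorem dvd_det {d K : ℕ} (ℓ : ℤ) (M : ℕ) (Ψ : Fin K → MvPolynomial (Fin d) ℤ)
    (t : Fin K → Fin d → ℤ) :
    ℓ ^ expo d K M ∣
      (Matrix.of fun i j => MvPolynomial.eval (fun k => ℓ * t j k) (Ψ i)).det := by
  classical
  have e1 : (Matrix.of fun i j => MvPolynomial.eval (fun k => ℓ * t j k) (Ψ i)) =
      fun i => ∑ a ∈ (Ψ i).support, ((Ψ i).coeff a * ℓ ^ dg a) •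
        (fun j => ∏ k, t j k ^ a k : Fin K → ℤ) := by
    funext i j
    simp only [Matrix.of_apply, Finset.sum_apply, Pi.smul_apply, smul_eq_mul]
    rw [MvPolynomial.eval_eq']
    refine Finset.sum_congr rfl fun a _ => ?_
    simp only [mul_pow]
    rw [Finset.prod_mul_distrib, Finset.prod_pow_eq_pow_sum]
    unfold dg
    ring
  have e2 : (Matrix.of fun i j => MvPolynomial.eval (fun k => ℓ * t j k) (Ψ i)).det =
      ∑ r ∈ Fintype.piFinset fun i => (Ψ i).support,
        (∏ i, ((Ψ i).coeff (r i) * ℓ ^ dg (r i))) •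
          (Matrix.detRowAlternating (fun i j => ∏ k, t j k ^ (r i) k : Fin K → Fin K → ℤ) : ℤ) := by
    rw [e1]
    have h := (Matrix.detRowAlternating (n := Fin K) (R := ℤ)).toMultilinearMap.map_sum_finset
      (fun i (a : Fin d →₀ ℕ) => ((Ψ i).coeff a * ℓ ^ dg a) •
        (fun j => ∏ k, t j k ^ a k : Fin K → ℤ)) (fun i => (Ψ i).support)
    refine (Eq.trans ?_ h).trans ?_
    · rfl
    · refine Finset.sum_congr rfl fun r _ => ?_
      exact (Matrix.detRowAlternating (n := Fin K) (R := ℤ)).toMultilinearMap.map_smul_univ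
        (fun i => (Ψ i).coeff (r i) * ℓ ^ dg (r i))
        (fun i => (fun j => ∏ k, t j k ^ (r i) k : Fin K → ℤ))
  rw [e2]
  refine Finset.dvd_sum fun r _ => ?_
  by_cases hr : Function.Injective r
  · rw [Finset.prod_mul_distrib, Finset.prod_pow_eq_pow_sum, smul_eq_mul]
    refine Dvd.dvd.mul_right ?_ _
    refine Dvd.dvd.mul_left ?_ _
    exact pow_dvd_pow _ (expo_le M r hr)
  · have h0 : (Matrix.detRowAlternating
        (fun i j => ∏ k, t j k ^ (r i) k : Fin K → Fin K → ℤ) : ℤ) = 0 := by
      rw [Function.not_injective_iff] at hr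
      obtain ⟨a, b, hab, hne⟩ := hr
      exact AlternatingMap.map_eq_zero_of_eq _ _ (by simp only [hab]) hne
    rw [h0, smul_zero]
    exact dvd_zero _

end DetAux

open DetAux in
theorem stDet : StDet := by
  intro d ℓ K M S m P hloc hP
  obtain ⟨Φ, hΦ⟩ := hloc (expo d K M)
  choose t ht using fun j => hΦ (P j) (hP j)
  have key := dvd_det (ℓ : ℤ) M (fun i => MvPolynomial.bind₁ Φ (m i)) t
  set n := expo d K M with hn
  -- compare modulo `ℓ ^ n`
  have hc : ((Matrix.of fun i j => MvPolynomial.eval (P j) (m i)).det : ZMod (ℓ ^ n)) =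
      ((Matrix.of fun i j => MvPolynomial.eval (fun k => (ℓ : ℤ) * t j k)
        (MvPolynomial.bind₁ Φ (m i))).det : ℤ) := by
    have h1 := RingHom.map_det (Int.castRingHom (ZMod (ℓ ^ n)))
      (Matrix.of fun i j => MvPolynomial.eval (P j) (m i))
    have h2 := RingHom.map_det (Int.castRingHom (ZMod (ℓ ^ n)))
      (Matrix.of fun i j => MvPolynomial.eval (fun k => (ℓ : ℤ) * t j k)
        (MvPolynomial.bind₁ Φ (m i)))
    simp only [Int.coe_castRingHom] at h1 h2
    rw [h1, h2]
    congr 1
    ext i j
    simp only [RingHom.mapMatrix_apply, Matrix.map_apply, Matrix.of_apply]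
    have h3 : MvPolynomial.eval (fun k => (ℓ : ℤ) * t j k) (MvPolynomial.bind₁ Φ (m i)) =
        MvPolynomial.eval (fun s => MvPolynomial.eval (fun k => (ℓ : ℤ) * t j k) (Φ s)) (m i) := by
      rw [MvPolynomial.eval, MvPolynomial.eval₂Hom_bind₁]
      rfl
    rw [h3]
    have h4 : ∀ f : Fin 3 → ℤ, (Int.castRingHom (ZMod (ℓ ^ n))) (MvPolynomial.eval f (m i)) =
        MvPolynomial.eval₂ (Int.castRingHom (ZMod (ℓ ^ n)))
          (fun s => ((f s : ℤ) : ZMod (ℓ ^ n))) (m i) := by
      intro f
      rw [MvPolynomial.eval, MvPolynomial.map_eval₂Hom]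
      rfl
    rw [h4, h4]
    congr 1
    funext s
    have h5 := ht j s
    rw [← sub_eq_zero, ← Int.cast_sub, ZMod.intCast_zmod_eq_zero_iff_dvd]
    push_cast
    exact h5
  have h6 : ((Matrix.of fun i j => MvPolynomial.eval (fun k => (ℓ : ℤ) * t j k)
        (MvPolynomial.bind₁ Φ (m i))).det : ZMod (ℓ ^ n)) = 0 := by
    rw [ZMod.intCast_zmod_eq_zero_iff_dvd]
    push_cast
    exact key
  rw [h6, ZMod.intCast_zmod_eq_zero_iff_dvd] at hc
  push_cast at hc
  exact hc

end Pool.Agent.Lib.MP_509488_nt.Surf
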