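import Pool.Agent.Lib.MP_509488_nt.Surf.Stmts

set_option autoImplicit false

/-! (K) Elimination of `x` by a determinant. -/

namespace Pool.Agent.Lib.MP_509488_nt.Surf

open Finset Polynomial

namespace ElimAux

/-- A nonnegative subadditive and submultiplicative function. -/
structure Nrm {S : Type} [CommRing S] (N : S → ℤ) : Prop where
  zero : N 0 = 0
  one : N 1 ≤ 1
  nonneg : ∀ a, 0 ≤ N a
  neg : ∀ a, N (-a) = N a
  add : ∀ a b, N (a + b) ≤ N a + N b
  mul : ∀ a b, N (a * b) ≤ N a * N b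

section norms

variable {S : Type} [CommRing S] {N : S → ℤ}

theorem Nrm.sum (h : Nrm N) {ι : Type} (s : Finset ι) (f : ι → S) :
    N (∑ i ∈ s, f i) ≤ ∑ i ∈ s, N (f i) := by
  classical
  induction s using Finset.induction_on with
  | empty => simp [h.zero]
  | insert a s ha ih =>
    rw [sum_insert ha, sum_insert ha]
    exact (h.add _ _).trans (by linarith)

theorem Nrm.prod (h : Nrm N) {ι : Type} (s : Finset ι) (f : ι → S) :
    N (∏ i ∈ s, f i) ≤ ∏ i ∈ s, N (f i) := by
  classical
  induction s using Finset.induction_on with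
  | empty => simpa using h.one
  | insert a s ha ih =>
    rw [prod_insert ha, prod_insert ha]
    exact (h.mul _ _).trans (mul_le_mul_of_nonneg_left ih (h.nonneg _))

theorem Nrm.pow (h : Nrm N) (a : S) (ha : N a ≤ 1) (n : ℕ) : N (a ^ n) ≤ 1 := by
  induction n with
  | zero => simpa using h.one
  | succ n ih =>
    rw [pow_succ]
    refine (h.mul _ _).trans ?_
    have h1 := h.nonneg a
    have h2 := h.nonneg (a ^ n)
    nlinarith

/-- The induced function on polynomials. -/
noncomputable def up (N : S → ℤ) (f : S[X]) : ℤ := ∑ i ∈ f.support, N (f.coeff i)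

theorem up_eq (h0 : N 0 = 0) (f : S[X]) {n : ℕ} (hn : f.natDegree < n) :
    up N f = ∑ i ∈ range n, N (f.coeff i) := by
  apply Finset.sum_subset
  · exact supp_subset_range hn
  · intro i _ hi
    rw [notMem_support_iff.1 hi, h0]

/-- The polynomial of the values of `N` at the coefficients. -/
noncomputable def maj (N : S → ℤ) (f : S[X]) : ℤ[X] :=
  ∑ i ∈ range (f.natDegree + 1), monomial i (N (f.coeff i))

theorem maj_coeff (h0 : N 0 = 0) (f : S[X]) (i : ℕ) : (maj N f).coeff i = N (f.coeff i) := by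
  unfold maj
  rw [finsetSum_coeff]
  simp only [coeff_monomial, sum_ite_eq', mem_range]
  split_ifs with h
  · rfl
  · rw [coeff_eq_zero_of_natDegree_lt (by omega), h0]

theorem maj_natDegree (f : S[X]) : (maj N f).natDegree ≤ f.natDegree := by
  unfold maj
  refine natDegree_sum_le_of_forall_le _ _ fun i hi => ?_
  exact (natDegree_monomial_le _).trans (by have := mem_range.1 hi; omega)

theorem maj_eval (h0 : N 0 = 0) (f : S[X]) : (maj N f).eval 1 = up N f := by
  rw [eval_eq_sum_range' (n := f.natDegree + 1) (by have := maj_natDegree (N := N) f; omega),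
    up_eq h0 f (Nat.lt_succ_self _)]
  refine sum_congr rfl fun i _ => ?_
  rw [maj_coeff h0, one_pow, mul_one]

theorem nrm_up (h : Nrm N) : Nrm (up N) where
  zero := by simp [up]
  one := by
    rw [up_eq h.zero (1 : S[X]) (n := 1) (by simp)]
    simpa using h.one
  nonneg f := sum_nonneg fun i _ => h.nonneg _
  neg f := by
    rw [up_eq h.zero (-f) (n := f.natDegree + 1) (by rw [natDegree_neg]; omega),
      up_eq h.zero f (Nat.lt_succ_self _)]
    refine sum_congr rfl fun i _ => ?_
    rw [coeff_neg, h.neg]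
  add f g := by
    set n := max f.natDegree g.natDegree + 1 with hn
    rw [up_eq h.zero (f + g) (n := n) (by have := natDegree_add_le f g; omega),
      up_eq h.zero f (n := n) (by omega), up_eq h.zero g (n := n) (by omega),
      ← sum_add_distrib]
    refine sum_le_sum fun i _ => ?_
    rw [coeff_add]
    exact h.add _ _
  mul f g := by
    rw [← maj_eval h.zero f, ← maj_eval h.zero g, ← eval_mul]
    set n := f.natDegree + g.natDegree + 1 with hn
    rw [up_eq h.zero (f * g) (n := n) (by have := natDegree_mul_le (p := f) (q := g); omega),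
      eval_eq_sum_range' (n := n) (by
        have h1 := natDegree_mul_le (p := maj N f) (q := maj N g)
        have h2 := maj_natDegree (N := N) f
        have h3 := maj_natDegree (N := N) g
        omega)]
    refine sum_le_sum fun i _ => ?_
    rw [coeff_mul, coeff_mul, one_pow, mul_one]
    refine (h.sum _ _).trans (sum_le_sum fun x _ => ?_)
    rw [maj_coeff h.zero, maj_coeff h.zero]
    exact h.mul _ _

theorem up_C (h : Nrm N) (a : S) : up N (C a) ≤ N a := by
  rw [up_eq h.zero (C a) (n := 1) (by simp)]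
  simp

theorem up_X (h : Nrm N) : up N (X : S[X]) ≤ 1 := by
  rw [up_eq h.zero (X : S[X]) (n := 2) (by
    have := natDegree_X_le (R := S)
    omega)]
  simp only [sum_range_succ, range_zero, sum_empty, coeff_X_zero, coeff_X_one, zero_add, h.zero]
  exact h.one

end norms

theorem nrm_abs : Nrm (fun a : ℤ => |a|) where
  zero := abs_zero
  one := by simp
  nonneg := abs_nonneg
  neg := abs_neg
  add := abs_add_le
  mul a b := (abs_mul a b).le

/-- The sum of the absolute values of the coefficients. -/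
noncomputable def n1 : ℤ[X] → ℤ := up (fun a : ℤ => |a|)

/-- The sum of the absolute values of the coefficients. -/
noncomputable def n2 : ℤ[X][X] → ℤ := up n1

theorem nrm1 : Nrm n1 := nrm_up nrm_abs
theorem nrm2 : Nrm n2 := nrm_up nrm1

theorem eval_bound (f : ℤ[X]) {D V : ℕ} {z : ℤ} (hD : f.natDegree ≤ D) (hz : |z| ≤ V) :
    |f.eval z| ≤ (V + 1) ^ D * n1 f := by
  rw [eval_eq_sum_range' (n := D + 1) (by omega), n1, up_eq nrm_abs.zero f (n := D + 1) (by omega),
    mul_sum]
  refine (abs_sum_le_sum_abs _ _).trans (sum_le_sum fun i hi => ?_)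
  rw [abs_mul, abs_pow, mul_comm]
  have h1 : (0 : ℤ) ≤ V := Int.natCast_nonneg V
  have h2 : |z| ^ i ≤ ((V : ℤ) + 1) ^ D :=
    calc |z| ^ i ≤ ((V : ℤ) + 1) ^ i := pow_le_pow_left₀ (abs_nonneg z) (by linarith) i
      _ ≤ ((V : ℤ) + 1) ^ D := pow_le_pow_right₀ (by linarith) (by
        have := mem_range.1 hi
        omega)
  exact mul_le_mul_of_nonneg_right h2 (abs_nonneg _)

theorem deriv_bound (H : ℤ[X][X]) {D₁ D₂ V k : ℕ} {y z : ℤ} (h₁ : H.natDegree ≤ D₁)
    (h₂ : ∀ m, (H.coeff m).natDegree ≤ D₂) (hy : |y| ≤ V) (hz : |z| ≤ V) :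
    |evalEval z y (derivative^[k] H)| ≤ D₁.factorial * (V + 1) ^ (D₁ + D₂) * n2 H := by
  have hdeg : (derivative^[k] H).natDegree < D₁ + 1 := by
    have := natDegree_iterate_derivative H k
    omega
  have h0 : (0 : ℤ) ≤ V := Int.natCast_nonneg V
  have e1 : evalEval z y (derivative^[k] H) =
      ∑ m ∈ range (D₁ + 1), ((m + k).descFactorial k : ℤ) * (H.coeff (m + k)).eval z * y ^ m := by
    unfold evalEval
    rw [eval_eq_sum_range' hdeg, eval_finsetSum]
    refine sum_congr rfl fun m _ => ?_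
    rw [coeff_iterate_derivative, eval_mul, eval_pow, eval_C, nsmul_eq_mul, eval_mul]
    simp
  have e2 : ∑ m ∈ range (D₁ + 1), n1 (H.coeff (m + k)) ≤ n2 H := by
    have : ∑ m ∈ range (D₁ + 1), n1 (H.coeff (m + k)) =
        ∑ x ∈ range (D₁ + 1), n1 (H.coeff (k + x)) :=
      sum_congr rfl fun m _ => by rw [add_comm]
    rw [this, n2, up_eq nrm1.zero H (n := k + (D₁ + 1)) (by omega),
      Finset.sum_range_add _ k (D₁ + 1)]
    have h3 : 0 ≤ ∑ x ∈ range k, n1 (H.coeff x) := sum_nonneg fun i _ => nrm1.nonneg _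
    linarith
  rw [e1]
  refine (abs_sum_le_sum_abs _ _).trans ?_
  calc ∑ m ∈ range (D₁ + 1), |((m + k).descFactorial k : ℤ) * (H.coeff (m + k)).eval z * y ^ m|
      ≤ ∑ m ∈ range (D₁ + 1), (D₁.factorial * ((V : ℤ) + 1) ^ (D₁ + D₂)) *
          n1 (H.coeff (m + k)) := by
        refine sum_le_sum fun m hm => ?_
        by_cases hmk : D₁ < m + k
        · rw [coeff_eq_zero_of_natDegree_lt (by omega)]
          simp [nrm1.zero]
        · rw [abs_mul, abs_mul, abs_pow, Nat.abs_cast]
          have a1 : ((m + k).descFactorial k : ℤ) ≤ D₁.factorial := by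
            have b1 := Nat.factorial_mul_descFactorial (Nat.le_add_left k m)
            have b2 := Nat.factorial_pos (m + k - k)
            have b3 : (m + k).factorial ≤ D₁.factorial := Nat.factorial_le (by omega)
            have b4 : (m + k).descFactorial k ≤ D₁.factorial := by nlinarith
            exact_mod_cast b4
          have a2 := eval_bound (H.coeff (m + k)) (h₂ (m + k)) hz
          have a3 : |y| ^ m ≤ ((V : ℤ) + 1) ^ D₁ :=
            calc |y| ^ m ≤ ((V : ℤ) + 1) ^ m := pow_le_pow_left₀ (abs_nonneg y) (by linarith) m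
              _ ≤ ((V : ℤ) + 1) ^ D₁ := pow_le_pow_right₀ (by linarith) (by
                have := mem_range.1 hm
                omega)
          have a4 : (0 : ℤ) ≤ ((V : ℤ) + 1) ^ D₂ * n1 (H.coeff (m + k)) :=
            mul_nonneg (by positivity) (nrm1.nonneg _)
          calc ((m + k).descFactorial k : ℤ) * |eval z (H.coeff (m + k))| * |y| ^ m
              ≤ (D₁.factorial : ℤ) * (((V : ℤ) + 1) ^ D₂ * n1 (H.coeff (m + k))) *
                ((V : ℤ) + 1) ^ D₁ := by
                refine mul_le_mul (mul_le_mul a1 a2 (abs_nonneg _) (by positivity)) a3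
                  (by positivity) (mul_nonneg (by positivity) a4)
            _ = _ := by rw [pow_add]; ring
    _ = (D₁.factorial * ((V : ℤ) + 1) ^ (D₁ + D₂)) *
          ∑ m ∈ range (D₁ + 1), n1 (H.coeff (m + k)) := by rw [mul_sum]
    _ ≤ _ := mul_le_mul_of_nonneg_left e2 (by positivity)

/-- The matrix of the multiplication by `∑ g a x ^ a` if `x ^ p = w`. -/
def mat {p : ℕ} [NeZero p] {A : Type} [CommRing A] (w : A) (g : Fin p → A) :
    Matrix (Fin p) (Fin p) A :=
  Matrix.of fun i i' => (if i ≤ i' then 1 else w) * g (i' - i)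

theorem row {p : ℕ} [NeZero p] {A : Type} [CommRing A] (w x : A) (g : Fin p → A)
    (hx : x ^ p = w) (i : Fin p) :
    ∑ i', mat w g i i' * x ^ (i' : ℕ) = x ^ (i : ℕ) * ∑ a, g a * x ^ (a : ℕ) := by
  rw [← Equiv.sum_comp (Equiv.addLeft i) (fun i' => mat w g i i' * x ^ (i' : ℕ)), mul_sum]
  refine sum_congr rfl fun a _ => ?_
  simp only [Equiv.coe_addLeft, mat, Matrix.of_apply, add_sub_cancel_left]
  have h1 := Fin.val_add_eq_ite i a
  have hi := i.2
  have ha := a.2
  by_cases h : p ≤ (i : ℕ) + a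
  · rw [if_pos h] at h1
    have h2 : ¬ i ≤ i + a := by
      rw [Fin.le_def, h1]
      omega
    rw [if_neg h2, h1, ← hx]
    have : x ^ p * g a * x ^ ((i : ℕ) + a - p) = g a * (x ^ p * x ^ ((i : ℕ) + a - p)) := by ring
    rw [this, ← pow_add, Nat.add_sub_cancel' h, pow_add]
    ring
  · rw [if_neg h] at h1
    have h2 : i ≤ i + a := by
      rw [Fin.le_def, h1]
      omega
    rw [if_pos h2, h1, pow_add]
    ring

theorem mat_map {p : ℕ} [NeZero p] {A B : Type} [CommRing A] [CommRing B] (φ : A →+* B) (w : A)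
    (g : Fin p → A) : (mat w g).map φ = mat (φ w) (fun a => φ (g a)) := by
  ext i i'
  simp only [Matrix.map_apply, mat, Matrix.of_apply, map_mul]
  split_ifs <;> simp

theorem det_eq_zero {p : ℕ} [NeZero p] (w x : ℤ) (g : Fin p → ℤ)
    (hx : x ^ p = w) (hg : ∑ a, g a * x ^ (a : ℕ) = 0) : (mat w g).det = 0 := by
  rw [← Matrix.exists_mulVec_eq_zero_iff]
  refine ⟨fun i => x ^ (i : ℕ), ?_, ?_⟩
  · intro h0
    have := congrFun h0 0
    simp at this
  · ext i
    have := row w x g hx i
    rw [hg, mul_zero] at this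
    simpa [Matrix.mulVec, dotProduct] using this

/-- The polynomial with the given coefficients. -/
noncomputable def pol {A : Type} [CommRing A] {n : ℕ} (v : Fin n → A) : A[X] :=
  ∑ i, C (v i) * X ^ (i : ℕ)

theorem pol_coeff {A : Type} [CommRing A] {n : ℕ} (v : Fin n → A) (i : Fin n) :
    (pol v).coeff i = v i := by
  unfold pol
  rw [finsetSum_coeff, Finset.sum_eq_single i]
  · simp
  · intro j _ hj
    rw [coeff_C_mul, coeff_X_pow, if_neg, mul_zero]
    intro h
    exact hj (Fin.ext h.symm)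
  · simp

theorem pol_natDegree {A : Type} [CommRing A] {n : ℕ} (v : Fin n → A) :
    (pol v).natDegree ≤ n - 1 := by
  unfold pol
  refine natDegree_sum_le_of_forall_le _ _ fun i _ => ?_
  refine (natDegree_C_mul_X_pow_le _ _).trans ?_
  have := i.2
  omega

theorem pol_ne {A : Type} [CommRing A] {n : ℕ} {v : Fin n → A} (hv : v ≠ 0) : pol v ≠ 0 := by
  intro h
  apply hv
  ext i
  rw [← pol_coeff v i, h]
  simp

/-- If `X ^ p - w` is prime the determinant does not vanish. -/
theorem det_ne {p : ℕ} [NeZero p] {A : Type} [CommRing A] [IsDomain A] (w : A) (g : Fin p → A)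
    (hg : g ≠ 0) (hp : Prime (X ^ p - C w : A[X])) : (mat w g).det ≠ 0 := by
  intro hdet
  obtain ⟨v, hv0, hv⟩ := Matrix.exists_vecMul_eq_zero_iff.2 hdet
  have hp0 : 0 < p := Nat.pos_of_ne_zero (NeZero.ne p)
  set F : A[X] := X ^ p - C w with hF
  have hFd : F.natDegree = p := natDegree_X_pow_sub_C
  have hdvd : F ∣ pol v * pol g := by
    rw [← Ideal.mem_span_singleton, ← Ideal.Quotient.eq_zero_iff_mem]
    set φ := Ideal.Quotient.mk (Ideal.span {F}) with hφ
    set x := φ X with hx
    have hxp : x ^ p = φ (C w) := by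
      rw [hx, ← map_pow, ← sub_eq_zero, ← map_sub]
      exact Ideal.Quotient.eq_zero_iff_mem.2 (Ideal.mem_span_singleton_self F)
    have hr := row (φ (C w)) x (fun a => φ (C (g a))) hxp
    have e1 : φ (pol g) = ∑ a, φ (C (g a)) * x ^ (a : ℕ) := by
      simp [pol, hx]
    have e2 : φ (pol v) = ∑ i, φ (C (v i)) * x ^ (i : ℕ) := by
      simp [pol, hx]
    rw [map_mul, e2, sum_mul, e1]
    calc ∑ i, φ (C (v i)) * x ^ (i : ℕ) * ∑ a, φ (C (g a)) * x ^ (a : ℕ)
        = ∑ i, φ (C (v i)) * ∑ i', mat (φ (C w)) (fun a => φ (C (g a))) i i' * x ^ (i' : ℕ) := by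
          refine sum_congr rfl fun i _ => ?_
          rw [hr, mul_assoc]
      _ = ∑ i', (∑ i, φ (C (v i)) * mat (φ (C w)) (fun a => φ (C (g a))) i i') *
            x ^ (i' : ℕ) := by
          simp only [mul_sum, sum_mul]
          rw [sum_comm]
          refine sum_congr rfl fun i _ => sum_congr rfl fun j _ => by ring
      _ = 0 := by
          refine sum_eq_zero fun i' _ => ?_
          have h1 := congrFun hv i'
          have h2 := mat_map (φ.comp C) w g
          have h3 : ∑ i, φ (C (v i)) * mat (φ (C w)) (fun a => φ (C (g a))) i i' =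
              φ (C (∑ i, v i * mat w g i i')) := by
            rw [map_sum, map_sum]
            refine sum_congr rfl fun i _ => ?_
            have h4 := congrFun (congrFun h2 i) i'
            simp only [Matrix.map_apply, RingHom.comp_apply] at h4
            rw [C_mul, map_mul, h4]
          rw [h3]
          have h5 : ∑ i, v i * mat w g i i' = 0 := by
            simpa [Matrix.vecMul, dotProduct] using h1
          rw [h5]
          simp
  rcases hp.dvd_or_dvd hdvd with h | h
  · refine pol_ne hv0 (eq_zero_of_dvd_of_natDegree_lt h ?_)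
    rw [hFd]
    have := pol_natDegree v
    omega
  · refine pol_ne hg (eq_zero_of_dvd_of_natDegree_lt h ?_)
    rw [hFd]
    have := pol_natDegree g
    omega

/-- The right-hand side. -/
noncomputable def ww (q r : ℕ) (s₁ s₂ : ℤ) : ℤ[X][X] := C (C s₁ * X ^ r) + C (C s₂) * X ^ q

theorem ww_eval (q r : ℕ) (s₁ s₂ y z : ℤ) :
    evalEval z y (ww q r s₁ s₂) = s₁ * z ^ r + s₂ * y ^ q := by
  simp [ww, evalEval]

theorem prime_F {p q r : ℕ} {s₁ s₂ : ℤ} (hp : 1 ≤ p) (hr : 1 ≤ r)
    (hqr : Nat.Coprime q r) (h₁ : s₁ = 1 ∨ s₁ = -1) (h₂ : s₂ = 1 ∨ s₂ = -1) :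
    Prime (X ^ p - C (ww q r s₁ s₂) : ℤ[X][X][X]) := by
  apply Irreducible.prime
  -- the point
  obtain ⟨y, z, hz, hyz⟩ : ∃ y z : ℤ, (z = 1 ∨ z = -1) ∧ s₁ * z ^ r + s₂ * y ^ q = 0 := by
    by_cases hs : s₁ = -s₂
    · exact ⟨1, 1, Or.inl rfl, by rw [hs]; simp⟩
    · have hs' : s₁ = s₂ := by
        rcases h₁ with h₁ | h₁ <;> rcases h₂ with h₂ | h₂ <;> subst h₁ <;> subst h₂ <;> simp_all
      rcases Nat.even_or_odd r with he | ho
      · have hq : Odd q := by
          by_contra hne
          rw [Nat.not_odd_iff_even] at hne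
          have h3 : 2 ∣ Nat.gcd q r := Nat.dvd_gcd hne.two_dvd he.two_dvd
          rw [hqr] at h3
          omega
        exact ⟨-1, 1, Or.inl rfl, by rw [hs', hq.neg_one_pow]; ring⟩
      · exact ⟨1, -1, Or.inr rfl, by rw [hs', ho.neg_one_pow]; ring⟩
  set P : Ideal ℤ[X][X] := RingHom.ker (evalEvalRingHom z y) with hP
  have hPp : P.IsPrime := RingHom.ker_isPrime _
  have hwP : ww q r s₁ s₂ ∈ P := by
    rw [hP, RingHom.mem_ker, coe_evalEvalRingHom, ww_eval, hyz]
  have hdeg : (X ^ p - C (ww q r s₁ s₂) : ℤ[X][X][X]).degree = p :=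
    degree_X_pow_sub_C (by omega) _
  have hmon : (X ^ p - C (ww q r s₁ s₂) : ℤ[X][X][X]).Monic := monic_X_pow_sub_C _ (by omega)
  refine irreducible_of_eisenstein_criterion hPp ?_ ?_ ?_ ?_ hmon.isPrimitive
  · rw [hmon.leadingCoeff]
    exact fun h => hPp.ne_top ((Ideal.eq_top_iff_one _).2 h)
  · intro n hn
    rw [hdeg] at hn
    have hn' : n < p := by exact_mod_cast hn
    rw [coeff_sub, coeff_X_pow, if_neg (by omega), zero_sub]
    apply P.neg_mem
    rw [coeff_C]
    split_ifs
    · exact hwP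
    · exact P.zero_mem
  · rw [hdeg]
    exact_mod_cast hp
  · rw [coeff_sub, coeff_X_pow, if_neg (by omega), zero_sub, coeff_C_zero]
    intro hmem
    have key : ∀ f ∈ P ^ 2, (derivative (f.eval (C y))).eval z = 0 := by
      intro f hf
      rw [pow_two] at hf
      refine Submodule.mul_induction_on hf ?_ ?_
      · intro a ha b hb
        have ha' : (a.eval (C y)).eval z = 0 := ha
        have hb' : (b.eval (C y)).eval z = 0 := hb
        rw [eval_mul, derivative_mul, eval_add, eval_mul, eval_mul, ha', hb']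
        ring
      · intro a b ha hb
        rw [eval_add, derivative_add, eval_add, ha, hb, add_zero]
    have h3 := key _ hmem
    have h4 : (derivative ((-(ww q r s₁ s₂)).eval (C y))).eval z = -(s₁ * (r * z ^ (r - 1))) := by
      simp [ww, derivative_pow]
    rw [h4] at h3
    have h5 : s₁ ≠ 0 := by rcases h₁ with h₁ | h₁ <;> rw [h₁] <;> norm_num
    have h6 : z ≠ 0 := by rcases hz with hz | hz <;> rw [hz] <;> norm_num
    have h7 : (r : ℤ) ≠ 0 := by exact_mod_cast (by omega : r ≠ 0)
    exact (neg_ne_zero.2 (mul_ne_zero h5 (mul_ne_zero h7 (pow_ne_zero _ h6)))) h3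

/-- All coefficients have degree at most `D`. -/
def In (D : ℕ) (f : ℤ[X][X]) : Prop := ∀ m, (f.coeff m).natDegree ≤ D

theorem In.mono {D D' : ℕ} {f : ℤ[X][X]} (h : In D f) (hD : D ≤ D') : In D' f :=
  fun m => (h m).trans hD

theorem In.mul {D D' : ℕ} {f g : ℤ[X][X]} (hf : In D f) (hg : In D' g) :
    In (D + D') (f * g) := by
  intro m
  rw [coeff_mul]
  refine natDegree_sum_le_of_forall_le _ _ fun x _ => ?_
  have h1 := natDegree_mul_le (p := f.coeff x.1) (q := g.coeff x.2)
  have h2 := hf x.1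
  have h3 := hg x.2
  omega

theorem In.sum {D : ℕ} {ι : Type} {s : Finset ι} {f : ι → ℤ[X][X]} (h : ∀ i ∈ s, In D (f i)) :
    In D (∑ i ∈ s, f i) := by
  intro m
  rw [finsetSum_coeff]
  exact natDegree_sum_le_of_forall_le _ _ fun i hi => h i hi m

theorem In.one : In 0 1 := by
  intro m
  rw [coeff_one]
  split_ifs <;> simp

theorem In.prod {D : ℕ} {ι : Type} {s : Finset ι} {f : ι → ℤ[X][X]} (h : ∀ i ∈ s, In D (f i)) :
    In (s.card * D) (∏ i ∈ s, f i) := by
  classical
  induction s using Finset.induction_on with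
  | empty => simpa using In.one
  | insert a s ha ih =>
    rw [prod_insert ha, card_insert_of_notMem ha]
    refine ((h a (mem_insert_self _ _)).mul
      (ih fun i hi => h i (mem_insert_of_mem hi))).mono (by nlinarith)

theorem In.units {D : ℕ} {f : ℤ[X][X]} (h : In D f) (u : ℤˣ) : In D (u • f) := by
  rcases Int.units_eq_one_or u with h1 | h1
  · rw [h1, one_smul]
    exact h
  · rw [h1]
    intro m
    rw [Units.neg_smul, one_smul, coeff_neg, natDegree_neg]
    exact h m

/-- The coefficients of the auxiliary polynomial. -/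
noncomputable def gg {p q τ : ℕ} (c : Fin p → Fin q → Fin τ → ℤ) (i : Fin p) : ℤ[X][X] :=
  pol fun j => pol fun k => c i j k

theorem gg_eval {p q τ : ℕ} (c : Fin p → Fin q → Fin τ → ℤ) (i : Fin p) (y z : ℤ) :
    evalEval z y (gg c i) = ∑ j, ∑ k, c i j k * y ^ (j : ℕ) * z ^ (k : ℕ) := by
  unfold evalEval gg pol
  rw [eval_finsetSum, eval_finsetSum]
  refine sum_congr rfl fun j _ => ?_
  simp only [eval_mul, eval_C, eval_pow, eval_X, eval_finsetSum, sum_mul]
  refine sum_congr rfl fun k _ => ?_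
  ring

theorem gg_ne {p q τ : ℕ} {c : Fin p → Fin q → Fin τ → ℤ} (hc : c ≠ 0) : gg c ≠ 0 := by
  intro h
  apply hc
  ext i j k
  have h1 := congrFun h i
  have h2 := pol_coeff (fun j => pol fun k => c i j k) j
  have h3 := pol_coeff (fun k => c i j k) k
  rw [← h3, ← h2]
  have h4 : (pol fun j => pol fun k => c i j k) = 0 := h1
  rw [h4]
  simp

theorem gg_natDegree {p q τ : ℕ} (c : Fin p → Fin q → Fin τ → ℤ) (i : Fin p) :
    (gg c i).natDegree ≤ q := (pol_natDegree _).trans (by omega)

theorem gg_in {p q τ : ℕ} (c : Fin p → Fin q → Fin τ → ℤ) (i : Fin p) : In τ (gg c i) := by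
  unfold gg pol
  refine In.sum fun j _ => ?_
  intro m
  rw [coeff_C_mul, coeff_X_pow]
  split_ifs
  · rw [mul_one]
    exact (pol_natDegree fun k => c i j k).trans (by omega)
  · simp

theorem gg_n2 {p q τ B : ℕ} {c : Fin p → Fin q → Fin τ → ℤ} (hc : ∀ i j k, |c i j k| ≤ B)
    (i : Fin p) : n2 (gg c i) ≤ q * τ * B := by
  unfold gg
  have hX1 : n1 (X : ℤ[X]) ≤ 1 := up_X nrm_abs
  have hX2 : n2 (X : ℤ[X][X]) ≤ 1 := up_X nrm1
  have h1 : ∀ j, n1 (pol fun k => c i j k) ≤ τ * B := by
    intro j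
    unfold pol
    refine (nrm1.sum _ _).trans ?_
    calc ∑ k, n1 (C (c i j k) * X ^ (k : ℕ)) ≤ ∑ k : Fin τ, (B : ℤ) := by
          refine sum_le_sum fun k _ => (nrm1.mul _ _).trans ?_
          have a1 : n1 (C (c i j k)) ≤ B := (up_C nrm_abs _).trans (hc i j k)
          have a2 := nrm1.pow _ hX1 (k : ℕ)
          have a3 := nrm1.nonneg (C (c i j k))
          have a4 := nrm1.nonneg ((X : ℤ[X]) ^ (k : ℕ))
          nlinarith
      _ = τ * B := by simp
  unfold pol at h1 ⊢
  refine (nrm2.sum _ _).trans ?_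
  calc ∑ j, n2 (C (∑ k, C (c i j k) * X ^ (k : ℕ)) * X ^ (j : ℕ)) ≤
      ∑ j : Fin q, ((τ : ℤ) * B) := by
        refine sum_le_sum fun j _ => (nrm2.mul _ _).trans ?_
        have a1 : n2 (C (∑ k, C (c i j k) * X ^ (k : ℕ))) ≤ τ * B :=
          (up_C nrm1 _).trans (h1 j)
        have a2 := nrm2.pow _ hX2 (j : ℕ)
        have a3 := nrm2.nonneg (C (∑ k, C (c i j k) * X ^ (k : ℕ)))
        have a4 := nrm2.nonneg ((X : ℤ[X][X]) ^ (j : ℕ))
        nlinarith
    _ = q * τ * B := by simp [mul_assoc]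

theorem ww_natDegree (q r : ℕ) (s₁ s₂ : ℤ) : (ww q r s₁ s₂).natDegree ≤ q := by
  unfold ww
  refine (natDegree_add_le _ _).trans (max_le (by rw [natDegree_C]; omega) ?_)
  exact natDegree_C_mul_X_pow_le _ _

theorem ww_in (q r : ℕ) (s₁ s₂ : ℤ) : In r (ww q r s₁ s₂) := by
  intro m
  unfold ww
  rw [coeff_add, coeff_C, coeff_C_mul, coeff_X_pow]
  refine (natDegree_add_le _ _).trans (max_le ?_ ?_)
  · split_ifs
    · exact natDegree_C_mul_X_pow_le _ _
    · simp
  · split_ifs
    · rw [mul_one, natDegree_C]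
      omega
    · simp

theorem ww_n2 (q r : ℕ) {s₁ s₂ : ℤ} (h₁ : s₁ = 1 ∨ s₁ = -1) (h₂ : s₂ = 1 ∨ s₂ = -1) :
    n2 (ww q r s₁ s₂) ≤ 2 := by
  have hX1 : n1 (X : ℤ[X]) ≤ 1 := up_X nrm_abs
  have hX2 : n2 (X : ℤ[X][X]) ≤ 1 := up_X nrm1
  have hs : ∀ s : ℤ, s = 1 ∨ s = -1 → n1 (C s) ≤ 1 := by
    intro s hs
    refine (up_C nrm_abs s).trans ?_
    rcases hs with hs | hs <;> rw [hs] <;> norm_num
  unfold ww
  have b1 : n2 (C (C s₁ * X ^ r)) ≤ 1 := by
    refine (up_C nrm1 _).trans ((nrm1.mul _ _).trans ?_)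
    have a1 := hs s₁ h₁
    have a2 := nrm1.pow _ hX1 r
    have a3 := nrm1.nonneg (C s₁)
    have a4 := nrm1.nonneg ((X : ℤ[X]) ^ r)
    nlinarith
  have b2 : n2 (C (C s₂) * X ^ q) ≤ 1 := by
    refine (nrm2.mul _ _).trans ?_
    have a1 : n2 (C (C s₂)) ≤ 1 := (up_C nrm1 _).trans (hs s₂ h₂)
    have a2 := nrm2.pow _ hX2 q
    have a3 := nrm2.nonneg (C (C s₂))
    have a4 := nrm2.nonneg ((X : ℤ[X][X]) ^ q)
    nlinarith
  have := nrm2.add (C (C s₁ * X ^ r)) (C (C s₂) * X ^ q)
  linarith

end ElimAux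

open ElimAux in
theorem stElim : StElim := by
  intro p q r τ B s₁ s₂ c hp hq hr hrτ hqr h₁ h₂ hc hB
  have : NeZero p := ⟨by omega⟩
  set w := ww q r s₁ s₂ with hw
  set g := gg c with hg
  set H : ℤ[X][X] := (mat w g).det with hH
  have ent1 : ∀ i i', (mat w g i i').natDegree ≤ 2 * q := by
    intro i i'
    simp only [mat, Matrix.of_apply]
    refine natDegree_mul_le.trans ?_
    have a1 := gg_natDegree c (i' - i)
    have a2 : (if i ≤ i' then 1 else w).natDegree ≤ q := by
      split_ifs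
      · simp
      · exact ww_natDegree q r s₁ s₂
    rw [hg]
    omega
  have ent2 : ∀ i i', In (2 * τ) (mat w g i i') := by
    intro i i'
    simp only [mat, Matrix.of_apply]
    have a2 : In τ (if i ≤ i' then 1 else w) := by
      split_ifs
      · exact In.one.mono (by omega)
      · exact (ww_in q r s₁ s₂).mono hrτ
    exact (a2.mul (gg_in c (i' - i))).mono (by omega)
  have ent3 : ∀ i i', n2 (mat w g i i') ≤ 2 * q * τ * B := by
    intro i i'
    simp only [mat, Matrix.of_apply]
    refine (nrm2.mul _ _).trans ?_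
    have a1 := gg_n2 hB (i' - i)
    have a2 : n2 (if i ≤ i' then 1 else w) ≤ 2 := by
      split_ifs
      · exact nrm2.one.trans (by norm_num)
      · exact ww_n2 q r h₁ h₂
    have a3 := nrm2.nonneg (if i ≤ i' then 1 else w)
    have a4 := nrm2.nonneg (gg c (i' - i))
    rw [hg]
    calc n2 (if i ≤ i' then 1 else w) * n2 (gg c (i' - i)) ≤ 2 * ((q : ℤ) * τ * B) :=
          mul_le_mul a2 a1 a4 (by norm_num)
      _ = _ := by ring
  have hd1 : H.natDegree ≤ 2 * p * q := by
    rw [hH, Matrix.det_apply]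
    refine natDegree_sum_le_of_forall_le _ _ fun σ _ => ?_
    have h1 : (∏ i, mat w g (σ i) i).natDegree ≤ 2 * p * q := by
      refine (natDegree_prod_le _ _).trans ?_
      calc ∑ i, (mat w g (σ i) i).natDegree ≤ ∑ i : Fin p, 2 * q :=
            sum_le_sum fun i _ => ent1 _ _
        _ = 2 * p * q := by simp; ring
    rcases Int.units_eq_one_or (Equiv.Perm.sign σ) with hs | hs
    · rw [hs, one_smul]
      exact h1
    · rw [hs, Units.neg_smul, one_smul, natDegree_neg]
      exact h1
  have hd2 : In (2 * p * τ) H := by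
    rw [hH, Matrix.det_apply]
    refine In.sum fun σ _ => In.units ?_ _
    refine (In.prod (D := 2 * τ) fun i _ => ent2 _ _).mono ?_
    simp only [card_univ, Fintype.card_fin]
    exact le_of_eq (by ring)
  have hd3 : n2 H ≤ p.factorial * (2 * q * τ * B) ^ p := by
    rw [hH, Matrix.det_apply]
    refine (nrm2.sum _ _).trans ?_
    calc ∑ σ : Equiv.Perm (Fin p), n2 (Equiv.Perm.sign σ • ∏ i, mat w g (σ i) i)
        ≤ ∑ σ : Equiv.Perm (Fin p), (2 * (q : ℤ) * τ * B) ^ p := by
          refine sum_le_sum fun σ _ => ?_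
          have h1 : n2 (∏ i, mat w g (σ i) i) ≤ (2 * (q : ℤ) * τ * B) ^ p := by
            refine (nrm2.prod _ _).trans ?_
            calc ∏ i, n2 (mat w g (σ i) i) ≤ ∏ i : Fin p, (2 * (q : ℤ) * τ * B) :=
                  prod_le_prod (fun i _ => nrm2.nonneg _) fun i _ => ent3 _ _
              _ = _ := by simp
          rcases Int.units_eq_one_or (Equiv.Perm.sign σ) with hs | hs
          · rw [hs, one_smul]
            exact h1
          · rw [hs, Units.neg_smul, one_smul, nrm2.neg]
            exact h1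
      _ = _ := by simp [Fintype.card_perm]
  refine ⟨H, ?_, hd1, hd2, ?_, ?_⟩
  · exact det_ne w g (gg_ne hc) (prime_F hp hr hqr h₁ h₂)
  · intro x y z hx hG
    rw [← coe_evalEvalRingHom, hH, RingHom.map_det, RingHom.mapMatrix_apply, mat_map]
    refine det_eq_zero _ x _ ?_ ?_
    · rw [coe_evalEvalRingHom, hw, ww_eval, hx]
    · rw [← hG]
      refine sum_congr rfl fun i _ => ?_
      rw [coe_evalEvalRingHom, hg, gg_eval, sum_mul]
      refine sum_congr rfl fun j _ => ?_
      rw [sum_mul]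
      refine sum_congr rfl fun k _ => ?_
      ring
  · intro k V y z hy hz
    refine (deriv_bound H hd1 hd2 hy hz).trans ?_
    have h0 : (0 : ℤ) ≤ ((2 * p * q).factorial : ℤ) * ((V : ℤ) + 1) ^ (2 * p * q + 2 * p * τ) := by
      positivity
    refine (mul_le_mul_of_nonneg_left hd3 h0).trans (le_of_eq ?_)
    unfold eB
    push_cast
    have e : ((V : ℤ) + 1) ^ (2 * p * q + 2 * p * τ) = (((V : ℤ) + 1) ^ (2 * (q + τ))) ^ p := by
      rw [← pow_mul]
      congr 1
      ring
    rw [e, mul_pow (2 * (q : ℤ) * τ * B) (((V : ℤ) + 1) ^ (2 * (q + τ))) p]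
    ring

end Pool.Agent.Lib.MP_509488_nt.Surf
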